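import Mathlib

open MeasureTheory Filter
open scoped ENNReal

namespace FanoFib.Ana

open scoped Pointwise in
/-- convergence of the normalised number of lattice points in dilates -/
theorem integral_bound_conv {ι R : Type} [Fintype ι] [Finite R] (r : R → ι → ℤ)
    (hbdd : Bornology.IsBounded {x : ι → ℝ | ∀ ρ, -1 ≤ ∑ i, (r ρ i : ℝ) * x i})
    (U : ℕ → Finset (ι → ℤ)) (hU : ∀ m u, u ∈ U m ↔ ∀ ρ, -(m : ℤ) ≤ ∑ i, r ρ i * u i)
    (α : ι → ℤ) (β : ℤ) (t : ℝ) :
    Tendsto (fun m : ℕ => (((U m).filter fun u => ⌈(m : ℝ) * t⌉ ≤ ∑ i, u i * α i + m * β).card : ℝ) /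
      (m : ℝ) ^ Fintype.card ι) atTop
      (nhds (volume.real {x : ι → ℝ | (∀ ρ, -1 ≤ ∑ i, (r ρ i : ℝ) * x i) ∧
        t ≤ ∑ i, x i * α i + β})) := by
  set Q : Set (ι → ℝ) := {x : ι → ℝ | (∀ ρ, -1 ≤ ∑ i, (r ρ i : ℝ) * x i) ∧
        t ≤ ∑ i, x i * α i + β} with hQ
  have hQb : Bornology.IsBounded Q := hbdd.subset fun x hx => hx.1
  have hQclosed : IsClosed Q := by
    have h1 : IsClosed {x : ι → ℝ | ∀ ρ, -1 ≤ ∑ i, (r ρ i : ℝ) * x i} := by
      rw [Set.ofPred_forall]
      exact isClosed_iInter fun ρ => isClosed_le continuous_const (by fun_prop)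
    have h2 : IsClosed {x : ι → ℝ | t ≤ ∑ i, x i * α i + β} :=
      isClosed_le continuous_const (by fun_prop)
    exact h1.inter h2
  have hQconv : Convex ℝ Q := by
    intro x hx y hy a b ha hb hab
    refine ⟨fun ρ => ?_, ?_⟩
    · have h1 := hx.1 ρ
      have h2 := hy.1 ρ
      have e : ∑ i, (r ρ i : ℝ) * (a • x + b • y) i =
          a * ∑ i, (r ρ i : ℝ) * x i + b * ∑ i, (r ρ i : ℝ) * y i := by
        rw [Finset.mul_sum, Finset.mul_sum, ← Finset.sum_add_distrib]
        refine Finset.sum_congr rfl fun i _ => ?_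
        simp only [Pi.add_apply, Pi.smul_apply, smul_eq_mul]
        ring
      rw [e]
      nlinarith
    · have h1 := hx.2
      have h2 := hy.2
      have e : ∑ i, (a • x + b • y) i * (α i : ℝ) =
          a * ∑ i, x i * (α i : ℝ) + b * ∑ i, y i * (α i : ℝ) := by
        rw [Finset.mul_sum, Finset.mul_sum, ← Finset.sum_add_distrib]
        refine Finset.sum_congr rfl fun i _ => ?_
        simp only [Pi.add_apply, Pi.smul_apply, smul_eq_mul]
        ring
      rw [e]
      have hb' : b = 1 - a := by linarith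
      subst hb'
      nlinarith
  have key := tendsto_card_div_pow_atTop_volume Q hQb hQclosed.measurableSet
    (hQconv.addHaar_frontier volume)
  refine key.congr' ?_
  filter_upwards [eventually_ge_atTop 1] with m hm
  have hm0 : (0 : ℝ) < m := by exact_mod_cast hm
  have : NeZero m := ⟨by omega⟩
  congr 1
  rw [Nat.cast_inj]
  have himg : (Q ∩ (m : ℝ)⁻¹ • ((Submodule.span ℤ (Set.range (Pi.basisFun ℝ ι)) :
      Submodule ℤ (ι → ℝ)) : Set (ι → ℝ))) =
      (fun (u : ι → ℤ) (i : ι) => (u i : ℝ) / m) ''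
        ((((U m).filter fun u => ⌈(m : ℝ) * t⌉ ≤ ∑ i, u i * α i + m * β) : Finset (ι → ℤ)) :
          Set (ι → ℤ)) := by
    have hQu : ∀ u : ι → ℤ, (fun i => (u i : ℝ) / m) ∈ Q ↔
        u ∈ ((U m).filter fun u => ⌈(m : ℝ) * t⌉ ≤ ∑ i, u i * α i + m * β) := by
      intro u
      rw [Finset.mem_filter, hU, hQ]
      have e1 : ∀ ρ, ∑ i, (r ρ i : ℝ) * ((u i : ℝ) / m) = ((∑ i, r ρ i * u i : ℤ) : ℝ) / m := by
        intro ρ
        push_cast
        rw [Finset.sum_div]
        refine Finset.sum_congr rfl fun i _ => ?_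
        ring
      have e2 : ∑ i, ((u i : ℝ) / m) * (α i : ℝ) + (β : ℝ) =
          ((∑ i, u i * α i + m * β : ℤ) : ℝ) / m := by
        push_cast
        rw [add_div, Finset.sum_div]
        congr 1
        · refine Finset.sum_congr rfl fun i _ => ?_
          ring
        · field_simp
      refine and_congr (forall_congr' fun ρ => ?_) ?_
      · rw [e1, le_div_iff₀ hm0]
        constructor
        · intro h
          have : ((-(m : ℤ) : ℤ) : ℝ) ≤ ((∑ i, r ρ i * u i : ℤ) : ℝ) := by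
            push_cast at h ⊢
            linarith
          exact_mod_cast this
        · intro h
          have : ((-(m : ℤ) : ℤ) : ℝ) ≤ ((∑ i, r ρ i * u i : ℤ) : ℝ) := by exact_mod_cast h
          push_cast at this ⊢
          linarith
      · rw [e2, le_div_iff₀ hm0, Int.ceil_le, mul_comm t]
    ext x
    constructor
    · rintro ⟨hxQ, hxL⟩
      have hx2 : x ∈ (m : ℝ)⁻¹ • (Submodule.span ℤ (Set.range (Pi.basisFun ℝ ι)) :
          Submodule ℤ (ι → ℝ)) := hxL
      rw [BoxIntegral.unitPartition.mem_smul_span_iff] at hx2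
      choose u hu using hx2
      have hxu : x = fun i => (u i : ℝ) / m := by
        funext i
        rw [eq_div_iff hm0.ne', mul_comm, ← hu i]
        rfl
      refine ⟨u, ?_, hxu.symm⟩
      rw [hxu] at hxQ
      exact_mod_cast (hQu u).1 hxQ
    · rintro ⟨u, hu, rfl⟩
      refine ⟨(hQu u).2 (by exact_mod_cast hu), ?_⟩
      have : (fun i => (u i : ℝ) / m) ∈ (m : ℝ)⁻¹ • (Submodule.span ℤ
          (Set.range (Pi.basisFun ℝ ι)) : Submodule ℤ (ι → ℝ)) := by
        rw [BoxIntegral.unitPartition.mem_smul_span_iff]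
        intro i
        refine ⟨u i, ?_⟩
        show (algebraMap ℤ ℝ) (u i) = (m : ℝ) * ((u i : ℝ) / m)
        field_simp
        rfl
      exact this
  rw [himg]
  have hinj : Function.Injective (fun (u : ι → ℤ) (i : ι) => (u i : ℝ) / m) := by
    intro u v huv
    funext i
    have := congrFun huv i
    simp only at this
    rw [div_left_inj' hm0.ne'] at this
    exact_mod_cast this
  rw [Nat.card_image_of_injective hinj]
  simp

/-- Upper bound for the integral of volumes, from a linear upper bound for the order function. -/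
theorem integral_bound {ι R : Type} [Fintype ι] [Finite R] (r : R → ι → ℤ)
    (hbdd : Bornology.IsBounded {x : ι → ℝ | ∀ ρ, -1 ≤ ∑ i, (r ρ i : ℝ) * x i})
    (U : ℕ → Finset (ι → ℤ)) (hU : ∀ m u, u ∈ U m ↔ ∀ ρ, -(m : ℤ) ≤ ∑ i, r ρ i * u i)
    (α : ι → ℤ) (β : ℤ) (hL : ∀ m, ∀ u ∈ U m, 0 ≤ ∑ i, u i * α i + m * β)
    (hsum : ∀ m, ∑ u ∈ U m, u = 0) (d : ℕ → ℤ → ℕ)
    (hd : ∀ m, 1 ≤ m → ∀ j, d m j ≤ ((U m).filter fun u => j ≤ ∑ i, u i * α i + m * β).card)
    (n : ℕ) (hn : n = Fintype.card ι) :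
    ∫⁻ t in Set.Ioi (0 : ℝ), limsup (fun m : ℕ =>
        ((n.factorial * d m ⌈m * t⌉ : ℕ) : ℝ≥0∞) / (m : ℝ≥0∞) ^ n) atTop ≤
      ENNReal.ofReal (β : ℝ) * limsup (fun m : ℕ =>
        ((n.factorial * (U m).card : ℕ) : ℝ≥0∞) / (m : ℝ≥0∞) ^ n) atTop := by
  classical
  set φ : ℕ → ℝ → ℝ≥0∞ := fun m t => ∑ u ∈ U m, ((n.factorial : ℝ≥0∞) / (m : ℝ≥0∞) ^ n) *
    (Set.Iic (((∑ i, u i * α i + m * β : ℤ) : ℝ) / m)).indicator 1 t with hφ
  have hφm : ∀ m, Measurable (φ m) := by
    intro m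
    refine Finset.measurable_sum _ fun u _ => ?_
    exact (measurable_one.indicator measurableSet_Iic).const_mul _
  -- value of φ
  have hφv : ∀ m : ℕ, 1 ≤ m → ∀ t : ℝ, φ m t = ((n.factorial *
      ((U m).filter fun u => ⌈(m : ℝ) * t⌉ ≤ ∑ i, u i * α i + m * β).card : ℕ) : ℝ≥0∞) /
        (m : ℝ≥0∞) ^ n := by
    intro m hm t
    have hm0 : (0 : ℝ) < m := by exact_mod_cast hm
    have e : ∀ u : ι → ℤ, (Set.Iic (((∑ i, u i * α i + m * β : ℤ) : ℝ) / m)).indicator
        (1 : ℝ → ℝ≥0∞) t = if ⌈(m : ℝ) * t⌉ ≤ ∑ i, u i * α i + m * β then 1 else 0 := by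
      intro u
      rw [Set.indicator_apply]
      have : t ∈ Set.Iic (((∑ i, u i * α i + m * β : ℤ) : ℝ) / m) ↔
          ⌈(m : ℝ) * t⌉ ≤ ∑ i, u i * α i + m * β := by
        rw [Set.mem_Iic, le_div_iff₀ hm0, Int.ceil_le, mul_comm t]
      simp only [this, Pi.one_apply]
    simp only [hφ, e]
    rw [← Finset.mul_sum, ← Finset.sum_filter, Finset.sum_const, nsmul_eq_mul, mul_one]
    push_cast
    rw [ENNReal.mul_div_right_comm]
  -- step 1
  have h1 : ∀ t : ℝ, limsup (fun m : ℕ =>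
        ((n.factorial * d m ⌈m * t⌉ : ℕ) : ℝ≥0∞) / (m : ℝ≥0∞) ^ n) atTop ≤
        limsup (fun m => φ m t) atTop := by
    intro t
    refine limsup_le_limsup ?_
    filter_upwards [eventually_ge_atTop 1] with m hm
    rw [hφv m hm t]
    refine ENNReal.div_le_div_right ?_ _
    have := hd m hm ⌈(m : ℝ) * t⌉
    exact_mod_cast Nat.mul_le_mul_left _ this
  -- step 2
  have h2 : ∀ t : ℝ, ∃ l : ℝ≥0∞, Tendsto (fun m => φ m t) atTop (nhds l) := by
    intro t
    have h3 := integral_bound_conv r hbdd U hU α β t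
    rw [← hn] at h3
    have h4 := (ENNReal.tendsto_ofReal h3)
    have h5 := ENNReal.Tendsto.const_mul h4 (a := (n.factorial : ℝ≥0∞))
      (Or.inr (ENNReal.natCast_ne_top _))
    refine ⟨_, h5.congr' ?_⟩
    filter_upwards [eventually_ge_atTop 1] with m hm
    have hm0 : (0 : ℝ) < m := by exact_mod_cast hm
    rw [hφv m hm t, ENNReal.ofReal_div_of_pos (by positivity), ENNReal.ofReal_natCast,
      ENNReal.ofReal_pow hm0.le, ENNReal.ofReal_natCast]
    push_cast
    rw [mul_div_assoc]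
  have h3 : ∀ t, limsup (fun m => φ m t) atTop = liminf (fun m => φ m t) atTop := by
    intro t
    obtain ⟨l, hl⟩ := h2 t
    rw [hl.limsup_eq, hl.liminf_eq]
  -- step 3: the integral of φ
  have hβ : 0 ≤ β := by
    have h0 : (0 : ι → ℤ) ∈ U 1 := by
      rw [hU]
      intro ρ
      simp
    have := hL 1 0 h0
    simpa using this
  have hint : ∀ m : ℕ, 1 ≤ m → ∫⁻ t in Set.Ioi (0 : ℝ), φ m t = ENNReal.ofReal (β : ℝ) *
      (((n.factorial * (U m).card : ℕ) : ℝ≥0∞) / (m : ℝ≥0∞) ^ n) := by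
    intro m hm
    have hm0 : (0 : ℝ) < m := by exact_mod_cast hm
    simp only [hφ]
    rw [lintegral_finsetSum _ (fun u _ => (measurable_one.indicator measurableSet_Iic).const_mul _)]
    have e : ∀ u ∈ U m, ∫⁻ t in Set.Ioi (0 : ℝ), ((n.factorial : ℝ≥0∞) / (m : ℝ≥0∞) ^ n) *
        (Set.Iic (((∑ i, u i * α i + m * β : ℤ) : ℝ) / m)).indicator 1 t =
        ((n.factorial : ℝ≥0∞) / (m : ℝ≥0∞) ^ n) *
          ENNReal.ofReal (((∑ i, u i * α i + m * β : ℤ) : ℝ) / m) := by
      intro u _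
      rw [lintegral_const_mul _ (measurable_one.indicator measurableSet_Iic),
        lintegral_indicator_one measurableSet_Iic, Measure.restrict_apply measurableSet_Iic,
        Set.Iic_inter_Ioi, Real.volume_Ioc, sub_zero]
    rw [Finset.sum_congr rfl e, ← Finset.mul_sum, ← ENNReal.ofReal_sum_of_nonneg]
    · have e2 : ∑ u ∈ U m, (((∑ i, u i * α i + m * β : ℤ) : ℝ) / m) = (U m).card * β := by
        rw [← Finset.sum_div, ← Int.cast_sum, Finset.sum_add_distrib, Finset.sum_comm]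
        have e3 : ∀ i, ∑ u ∈ U m, u i * α i = 0 := by
          intro i
          rw [← Finset.sum_mul]
          have := congrFun (hsum m) i
          rw [Finset.sum_apply] at this
          rw [this]
          simp
        rw [Finset.sum_congr rfl (fun i _ => e3 i), Finset.sum_const_zero, zero_add,
          Finset.sum_const, nsmul_eq_mul]
        push_cast
        field_simp
      rw [e2, ENNReal.ofReal_mul (by positivity), ENNReal.ofReal_natCast]
      push_cast
      rw [ENNReal.mul_div_right_comm]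
      ring
    · intro u hu
      have := hL m u hu
      have h4 : (0 : ℝ) ≤ ((∑ i, u i * α i + m * β : ℤ) : ℝ) := by exact_mod_cast this
      positivity
  calc ∫⁻ t in Set.Ioi (0 : ℝ), limsup (fun m : ℕ =>
        ((n.factorial * d m ⌈m * t⌉ : ℕ) : ℝ≥0∞) / (m : ℝ≥0∞) ^ n) atTop
      ≤ ∫⁻ t in Set.Ioi (0 : ℝ), liminf (fun m => φ m t) atTop :=
        lintegral_mono fun t => (h1 t).trans_eq (h3 t)
    _ ≤ liminf (fun m => ∫⁻ t in Set.Ioi (0 : ℝ), φ m t) atTop := lintegral_liminf_le hφm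
    _ ≤ limsup (fun m => ∫⁻ t in Set.Ioi (0 : ℝ), φ m t) atTop := liminf_le_limsup
    _ = limsup (fun m : ℕ => ENNReal.ofReal (β : ℝ) *
          (((n.factorial * (U m).card : ℕ) : ℝ≥0∞) / (m : ℝ≥0∞) ^ n)) atTop := by
        refine limsup_congr ?_
        filter_upwards [eventually_ge_atTop 1] with m hm
        exact hint m hm
    _ = _ := ENNReal.limsup_const_mul_of_ne_top ENNReal.ofReal_ne_top

end FanoFib.Ana
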