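import Mathlib

open MeasureTheory Filter
open scoped ENNReal

namespace FanoFib.Ana

theorem aux_div (n m k : ℕ) (hm : 1 ≤ m) :
    ((k : ℕ) : ℝ≥0∞) / (m : ℝ≥0∞) ^ n = ENNReal.ofReal ((k : ℝ) / (m : ℝ) ^ n) := by
  have hm' : (0:ℝ) < (m : ℝ) ^ n := by
    have : (0:ℝ) < m := by exact_mod_cast hm
    positivity
  rw [ENNReal.ofReal_div_of_pos hm', ENNReal.ofReal_natCast, ENNReal.ofReal_pow (Nat.cast_nonneg m),
    ENNReal.ofReal_natCast]

theorem ofReal_sum_le' {κ : Type} (s : Finset κ) (y : κ → ℝ) :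
    ENNReal.ofReal (∑ u ∈ s, y u) ≤ ∑ u ∈ s, ENNReal.ofReal (y u) := by
  classical
  induction s using Finset.induction_on with
  | empty => simp
  | insert a s ha ih =>
    rw [Finset.sum_insert ha, Finset.sum_insert ha]
    exact ENNReal.ofReal_add_le.trans (by gcongr)

theorem vol_pos_finite_aux {ι : Type} [Fintype ι] (n : ℕ) (a : ι) (U : ℕ → Finset (ι → ℤ))
    (hUa : ∀ m, ∀ u ∈ U m, u a ≤ m)
    (C : ℝ) (hC : ∀ m : ℕ, 1 ≤ m → ((U m).card : ℝ) ≤ C * (m : ℝ) ^ n)
    (c : ℝ) (hc : 0 < c)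
    (hsum : ∀ m : ℕ, 1 ≤ m → c * (m : ℝ) ^ (n + 1) ≤ ∑ u ∈ U m, (u a : ℝ)) :
    limsup (fun m : ℕ => ((n.factorial * (U m).card : ℕ) : ℝ≥0∞) / (m : ℝ≥0∞) ^ n) atTop ≠ 0 ∧
    limsup (fun m : ℕ => ((n.factorial * (U m).card : ℕ) : ℝ≥0∞) / (m : ℝ≥0∞) ^ n) atTop ≠ ⊤ := by
  have hnf : (0:ℝ) < n.factorial := by exact_mod_cast n.factorial_pos
  constructor
  · have h1 : ENNReal.ofReal (n.factorial * c) ≤
        limsup (fun m : ℕ => ((n.factorial * (U m).card : ℕ) : ℝ≥0∞) / (m : ℝ≥0∞) ^ n) atTop := by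
      refine le_limsup_of_frequently_le (Eventually.frequently ?_)
      filter_upwards [eventually_ge_atTop 1] with m hm
      rw [aux_div n m _ hm]
      apply ENNReal.ofReal_le_ofReal
      have hm' : (0:ℝ) < m := by exact_mod_cast hm
      rw [le_div_iff₀ (by positivity)]
      have h2 : ∑ u ∈ U m, (u a : ℝ) ≤ (U m).card * (m : ℝ) := by
        have := Finset.sum_le_card_nsmul (U m) (fun u => (u a : ℝ)) (m : ℝ)
          (fun u hu => by exact_mod_cast hUa m u hu)
        simpa [nsmul_eq_mul] using this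
      have h3 := (hsum m hm).trans h2
      rw [pow_succ, ← mul_assoc] at h3
      have h4 := le_of_mul_le_mul_right h3 hm'
      push_cast
      nlinarith
    intro h0
    rw [h0] at h1
    have h2 : 0 < ENNReal.ofReal (n.factorial * c) := ENNReal.ofReal_pos.2 (by positivity)
    exact absurd h1 (not_le.2 h2)
  · have h1 : limsup (fun m : ℕ => ((n.factorial * (U m).card : ℕ) : ℝ≥0∞) / (m : ℝ≥0∞) ^ n) atTop
        ≤ ENNReal.ofReal (n.factorial * C) := by
      refine limsup_le_of_le (by isBoundedDefault) ?_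
      filter_upwards [eventually_ge_atTop 1] with m hm
      rw [aux_div n m _ hm]
      apply ENNReal.ofReal_le_ofReal
      have hm' : (0:ℝ) < m := by exact_mod_cast hm
      rw [div_le_iff₀ (by positivity)]
      have := hC m hm
      push_cast
      nlinarith
    exact (lt_of_le_of_lt h1 ENNReal.ofReal_lt_top).ne

/-- Lower bound for the integral of volumes when the barycentre is on the wrong side. -/
theorem integral_lower {ι : Type} [Fintype ι] (n : ℕ) (a : ι) (U : ℕ → Finset (ι → ℤ))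
    (hUa : ∀ m, ∀ u ∈ U m, u a ≤ m)
    (C : ℝ) (hC : ∀ m : ℕ, 1 ≤ m → ((U m).card : ℝ) ≤ C * (m : ℝ) ^ n)
    (c : ℝ) (hc : 0 < c)
    (hsum : ∀ m : ℕ, 1 ≤ m → c * (m : ℝ) ^ (n + 1) ≤ ∑ u ∈ U m, (u a : ℝ))
    (κ : ℤ) (hκ : 0 ≤ κ) (d : ℕ → ℤ → ℕ)
    (hd : ∀ m, 1 ≤ m → ∀ j, ((U m).filter fun u => j ≤ u a + m * κ).card ≤ d m j) :
    ENNReal.ofReal (κ : ℝ) * limsup (fun m : ℕ =>
        ((n.factorial * (U m).card : ℕ) : ℝ≥0∞) / (m : ℝ≥0∞) ^ n) atTop <
      ∫⁻ t in Set.Ioi (0 : ℝ), limsup (fun m : ℕ =>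
        ((n.factorial * d m ⌈m * t⌉ : ℕ) : ℝ≥0∞) / (m : ℝ≥0∞) ^ n) atTop := by
  classical
  have hnf : (0:ℝ) < n.factorial := by exact_mod_cast n.factorial_pos
  have hκ' : (0:ℝ) ≤ κ := by exact_mod_cast hκ
  have hC0 : 0 ≤ C := by
    have := hC 1 le_rfl
    simp only [Nat.cast_one, one_pow, mul_one] at this
    exact le_trans (Nat.cast_nonneg _) this
  set V : ℕ → ℝ≥0∞ := fun m => ((n.factorial * (U m).card : ℕ) : ℝ≥0∞) / (m : ℝ≥0∞) ^ n with hV
  have hVtop : limsup V atTop ≠ ⊤ := (vol_pos_finite_aux n a U hUa C hC c hc hsum).2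
  -- the auxiliary functions
  set x : ℕ → (ι → ℤ) → ℝ := fun m u => ((u a : ℝ) + m * κ) / m with hx
  set f : ℕ → ℝ → ℝ≥0∞ := fun m t => if m = 0 then 0 else
    ∑ u ∈ U m, (Set.Iic (x m u)).indicator (fun _ => ENNReal.ofReal (n.factorial / (m:ℝ) ^ n)) t
    with hf
  have hfmeas : ∀ m, Measurable (f m) := by
    intro m
    rw [hf]
    by_cases hm : m = 0
    · simp only [hm, if_true]; exact measurable_const
    · simp only [hm, if_false]
      exact Finset.measurable_fun_sum _ fun u _ => measurable_const.indicator measurableSet_Iic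
  have hfcard : ∀ m, 1 ≤ m → ∀ t, f m t = ENNReal.ofReal
      ((n.factorial * ((U m).filter fun u => t ≤ x m u).card : ℕ) / (m:ℝ) ^ n) := by
    intro m hm t
    have hm0 : m ≠ 0 := by omega
    rw [hf]
    simp only [hm0, if_false]
    simp only [Set.indicator_apply, Set.mem_Iic]
    rw [← Finset.sum_filter, Finset.sum_const, nsmul_eq_mul]
    rw [← ENNReal.ofReal_natCast, ← ENNReal.ofReal_mul (Nat.cast_nonneg _)]
    congr 1
    push_cast
    ring
  have hbound : ∀ m t, f m t ≤ (Set.Iic ((κ:ℝ) + 1)).indicator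
      (fun _ => ENNReal.ofReal (n.factorial * C)) t := by
    intro m t
    rcases Nat.eq_zero_or_pos m with hm | hm
    · rw [hf]; simp [hm]
    · rw [hfcard m hm t]
      have hm' : (0:ℝ) < m := by exact_mod_cast hm
      by_cases ht : t ≤ κ + 1
      · rw [Set.indicator_of_mem (show t ∈ Set.Iic ((κ:ℝ) + 1) from ht)]
        apply ENNReal.ofReal_le_ofReal
        rw [div_le_iff₀ (by positivity)]
        have h1 := hC m hm
        have h2 : (((U m).filter fun u => t ≤ x m u).card : ℝ) ≤ (U m).card := by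
          exact_mod_cast Finset.card_filter_le _ _
        push_cast
        have h3 := h2.trans h1
        nlinarith
      · rw [Set.indicator_of_notMem (show t ∉ Set.Iic ((κ:ℝ) + 1) from ht)]
        have h1 : ((U m).filter fun u => t ≤ x m u) = ∅ := by
          apply Finset.filter_eq_empty_iff.2
          intro u hu htx
          apply ht
          refine htx.trans ?_
          rw [hx]
          show ((u a : ℝ) + m * κ) / m ≤ κ + 1
          rw [div_le_iff₀ hm']
          have h2 : (u a : ℝ) ≤ m := by exact_mod_cast hUa m u hu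
          nlinarith
        rw [h1]
        simp
  have hint : ∀ m, 1 ≤ m → ENNReal.ofReal (κ : ℝ) * V m + ENNReal.ofReal (n.factorial * c) ≤
      ∫⁻ t in Set.Ioi (0:ℝ), f m t := by
    intro m hm
    have hm' : (0:ℝ) < m := by exact_mod_cast hm
    have hm0 : m ≠ 0 := by omega
    have e1 : ∫⁻ t in Set.Ioi (0:ℝ), f m t =
        ∑ u ∈ U m, ENNReal.ofReal (n.factorial / (m:ℝ) ^ n) * ENNReal.ofReal (x m u) := by
      rw [hf]
      simp only [hm0, if_false]
      rw [lintegral_finsetSum _ fun u _ => measurable_const.indicator measurableSet_Iic]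
      refine Finset.sum_congr rfl fun u _ => ?_
      rw [lintegral_indicator measurableSet_Iic, lintegral_const,
        Measure.restrict_restrict measurableSet_Iic, Measure.restrict_apply_univ,
        Set.inter_comm, Set.Ioi_inter_Iic, Real.volume_Ioc, sub_zero]
    rw [e1]
    have e2 : ∀ u, ENNReal.ofReal (n.factorial / (m:ℝ) ^ n) * ENNReal.ofReal (x m u) =
        ENNReal.ofReal (n.factorial / (m:ℝ) ^ n * x m u) := fun u =>
      (ENNReal.ofReal_mul (by positivity)).symm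
    rw [Finset.sum_congr rfl fun u _ => e2 u]
    refine le_trans ?_ (ofReal_sum_le' _ _)
    rw [hV]
    show ENNReal.ofReal (κ : ℝ) * (((n.factorial * (U m).card : ℕ) : ℝ≥0∞) / (m : ℝ≥0∞) ^ n) + _ ≤ _
    rw [aux_div n m _ hm, ← ENNReal.ofReal_mul hκ', ← ENNReal.ofReal_add (by positivity)
      (by positivity)]
    apply ENNReal.ofReal_le_ofReal
    have e3 : ∑ u ∈ U m, (n.factorial : ℝ) / (m:ℝ) ^ n * x m u =
        κ * ((n.factorial * (U m).card : ℕ) / (m:ℝ) ^ n) +
          n.factorial * ((∑ u ∈ U m, (u a : ℝ)) / (m:ℝ) ^ (n + 1)) := by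
      rw [← Finset.mul_sum]
      have e4 : ∑ u ∈ U m, x m u = (∑ u ∈ U m, (u a : ℝ)) / m + (U m).card * κ := by
        rw [hx]
        simp only [add_div]
        rw [Finset.sum_add_distrib, ← Finset.sum_div, Finset.sum_const, nsmul_eq_mul]
        congr 2
        field_simp
      rw [e4]
      push_cast
      field_simp
      ring
    rw [e3]
    have e5 : c ≤ (∑ u ∈ U m, (u a : ℝ)) / (m:ℝ) ^ (n + 1) := by
      rw [le_div_iff₀ (by positivity)]
      exact hsum m hm
    have e6 : (n.factorial : ℝ) * c ≤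
        n.factorial * ((∑ u ∈ U m, (u a : ℝ)) / (m:ℝ) ^ (n + 1)) :=
      mul_le_mul_of_nonneg_left e5 hnf.le
    linarith
  have hfat : limsup (fun m => ∫⁻ t in Set.Ioi (0:ℝ), f m t) atTop ≤
      ∫⁻ t in Set.Ioi (0:ℝ), limsup (fun m => f m t) atTop := by
    refine limsup_lintegral_le ((Set.Iic ((κ:ℝ) + 1)).indicator
      (fun _ => ENNReal.ofReal (n.factorial * C))) hfmeas
      (fun m => Eventually.of_forall fun t => hbound m t) ?_
    rw [lintegral_indicator measurableSet_Iic, lintegral_const,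
        Measure.restrict_restrict measurableSet_Iic, Measure.restrict_apply_univ,
        Set.inter_comm, Set.Ioi_inter_Iic, Real.volume_Ioc]
    exact ENNReal.mul_ne_top ENNReal.ofReal_ne_top ENNReal.ofReal_ne_top
  have hfle : ∫⁻ t in Set.Ioi (0:ℝ), limsup (fun m => f m t) atTop ≤
      ∫⁻ t in Set.Ioi (0 : ℝ), limsup (fun m : ℕ =>
        ((n.factorial * d m ⌈m * t⌉ : ℕ) : ℝ≥0∞) / (m : ℝ≥0∞) ^ n) atTop := by
    refine lintegral_mono fun t => ?_
    refine limsup_le_limsup ?_ (by isBoundedDefault) (by isBoundedDefault)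
    filter_upwards [eventually_ge_atTop 1] with m hm
    have hm' : (0:ℝ) < m := by exact_mod_cast hm
    rw [hfcard m hm t, aux_div n m _ hm]
    apply ENNReal.ofReal_le_ofReal
    have h1 : ((U m).filter fun u => t ≤ x m u) =
        ((U m).filter fun u => ⌈(m:ℝ) * t⌉ ≤ u a + m * κ) := by
      apply Finset.filter_congr
      intro u _
      rw [Int.ceil_le]
      push_cast
      rw [hx]
      show t ≤ ((u a : ℝ) + m * κ) / m ↔ _
      rw [le_div_iff₀ hm', mul_comm]
    rw [h1]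
    have h2 := hd m hm ⌈(m:ℝ) * t⌉
    have h3 : ((n.factorial * ((U m).filter fun u => ⌈(m:ℝ) * t⌉ ≤ u a + m * κ).card : ℕ) : ℝ) ≤
        ((n.factorial * d m ⌈(m:ℝ) * t⌉ : ℕ) : ℝ) := by
      exact_mod_cast Nat.mul_le_mul_left _ h2
    exact div_le_div_of_nonneg_right h3 (by positivity)
  have hlim : ENNReal.ofReal (κ : ℝ) * limsup V atTop + ENNReal.ofReal (n.factorial * c) ≤
      limsup (fun m => ∫⁻ t in Set.Ioi (0:ℝ), f m t) atTop := by
    rw [← ENNReal.limsup_const_mul_of_ne_top ENNReal.ofReal_ne_top, ← limsup_add_const atTop _ _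
      (by isBoundedDefault) (by isBoundedDefault)]
    refine limsup_le_limsup ?_ (by isBoundedDefault) (by isBoundedDefault)
    filter_upwards [eventually_ge_atTop 1] with m hm
    exact hint m hm
  refine lt_of_lt_of_le ?_ (hlim.trans (hfat.trans hfle))
  refine ENNReal.lt_add_right (ENNReal.mul_ne_top ENNReal.ofReal_ne_top hVtop) ?_
  exact (ENNReal.ofReal_pos.2 (by positivity)).ne'

/-- The volume is positive and finite. -/
theorem vol_pos_finite {ι : Type} [Fintype ι] (n : ℕ) (a : ι) (U : ℕ → Finset (ι → ℤ))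
    (hUa : ∀ m, ∀ u ∈ U m, u a ≤ m)
    (C : ℝ) (hC : ∀ m : ℕ, 1 ≤ m → ((U m).card : ℝ) ≤ C * (m : ℝ) ^ n)
    (c : ℝ) (hc : 0 < c)
    (hsum : ∀ m : ℕ, 1 ≤ m → c * (m : ℝ) ^ (n + 1) ≤ ∑ u ∈ U m, (u a : ℝ)) :
    limsup (fun m : ℕ => ((n.factorial * (U m).card : ℕ) : ℝ≥0∞) / (m : ℝ≥0∞) ^ n) atTop ≠ 0 ∧
    limsup (fun m : ℕ => ((n.factorial * (U m).card : ℕ) : ℝ≥0∞) / (m : ℝ≥0∞) ^ n) atTop ≠ ⊤ :=
  vol_pos_finite_aux n a U hUa C hC c hc hsum

end FanoFib.Ana
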