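import Mathlib

/-! The polytope of the iterated projective line bundles over `(P^2)^3`. -/

namespace FanoFib.Comb

/-- Lattice points of `m` times the anticanonical polytope. -/
def InP {I J : Type} [Fintype I] (ℓ : J → I → ℤ) (m : ℤ) (u : I ⊕ J × Fin 2 → ℤ) : Prop :=
  (∀ i, -m ≤ u (.inl i) ∧ u (.inl i) ≤ m) ∧
  ∀ j, -m ≤ u (.inr (j, 0)) ∧ -m ≤ u (.inr (j, 1)) ∧
    u (.inr (j, 0)) + u (.inr (j, 1)) ≤ m + ∑ i, ℓ j i * u (.inl i)

/-- The twists for `X`. -/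
def ellX (j i : Fin 3) : ℤ := (if i = j then 1 else 0) - (if i + 1 = j then 1 else 0)

/-- The twists for `Y`. -/
def ellY (j : Fin 3) (i : Fin 2) : ℤ := ellX j (Fin.castSucc i)

end FanoFib.Comb
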