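import Mathlib
import Pool.Agent.Helper419.KS.Comb

namespace FanoFib.Comb

theorem sum_ell (f : Fin 3 → ℤ) (j : Fin 3) : ∑ i, ellX j i * f i = f j - f (j + 2) := by
  rw [Fin.sum_univ_three]
  fin_cases j
  · have h0 : ellX 0 0 = 1 := by decide
    have h1 : ellX 0 1 = 0 := by decide
    have h2 : ellX 0 2 = -1 := by decide
    show ellX 0 0 * f 0 + ellX 0 1 * f 1 + ellX 0 2 * f 2 = f 0 - f 2
    rw [h0, h1, h2]; ring
  · have h0 : ellX 1 0 = -1 := by decide
    have h1 : ellX 1 1 = 1 := by decide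
    have h2 : ellX 1 2 = 0 := by decide
    show ellX 1 0 * f 0 + ellX 1 1 * f 1 + ellX 1 2 * f 2 = f 1 - f 0
    rw [h0, h1, h2]; ring
  · have h0 : ellX 2 0 = 0 := by decide
    have h1 : ellX 2 1 = -1 := by decide
    have h2 : ellX 2 2 = 1 := by decide
    show ellX 2 0 * f 0 + ellX 2 1 * f 1 + ellX 2 2 * f 2 = f 2 - f 1
    rw [h0, h1, h2]; ring

abbrev V3 := Fin 3 ⊕ Fin 3 × Fin 2 → ℤ

theorem inP_iff (m : ℤ) (u : V3) : InP ellX m u ↔ (∀ i, -m ≤ u (.inl i) ∧ u (.inl i) ≤ m) ∧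
    ∀ j, -m ≤ u (.inr (j, 0)) ∧ -m ≤ u (.inr (j, 1)) ∧
    u (.inr (j, 0)) + u (.inr (j, 1)) ≤ m + (u (.inl j) - u (.inl (j + 2))) := by
  unfold InP
  have h : ∀ j, ∑ i, ellX j i * u (.inl i) = u (.inl j) - u (.inl (j + 2)) :=
    fun j => sum_ell (fun i => u (.inl i)) j
  simp only [h]

theorem sum_inv (U : Finset V3) (f g : V3 → V3) (hf : ∀ u ∈ U, f u ∈ U) (hg : ∀ u ∈ U, g u ∈ U)
    (hgf : ∀ u, g (f u) = u) (hfg : ∀ u, f (g u) = u) (F : V3 → ℤ) :
    ∑ u ∈ U, F (f u) = ∑ u ∈ U, F u :=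
  Finset.sum_nbij' f g hf hg (fun u _ => hgf u) (fun u _ => hfg u) (fun _ _ => rfl)

/-- cyclic shift -/
def cy (u : V3) : V3 := Sum.elim (fun i => u (.inl (i + 1))) (fun p => u (.inr (p.1 + 1, p.2)))
/-- inverse shift -/
def cy' (u : V3) : V3 := Sum.elim (fun i => u (.inl (i + 2))) (fun p => u (.inr (p.1 + 2, p.2)))
/-- reflection -/
def rf (u : V3) : V3 := Sum.elim (fun i => -u (.inl (-i))) (fun p => u (.inr (1 - p.1, p.2)))
/-- swap -/
def sw (j : Fin 3) (u : V3) : V3 :=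
  Sum.elim (fun i => u (.inl i)) (fun p => if p.1 = j then u (.inr (p.1, 1 - p.2)) else u (.inr p))
/-- affine reflection -/
def af (j : Fin 3) (u : V3) : V3 :=
  Sum.elim (fun i => u (.inl i)) (fun p => if p = (j, 0) then
    -u (.inr (j, 0)) - u (.inr (j, 1)) + (u (.inl j) - u (.inl (j + 2))) else u (.inr p))

theorem sumX (m : ℤ) (U : Finset (Fin 3 ⊕ Fin 3 × Fin 2 → ℤ)) (hU : ∀ u, u ∈ U ↔ InP ellX m u) :
    ∑ u ∈ U, u = 0 := by
  have hU' : ∀ u, u ∈ U ↔ _ := fun u => (hU u).trans (inP_iff m u)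
  have a12 : ∀ i : Fin 3, i + 1 + 2 = i := by decide
  have a21 : ∀ i : Fin 3, i + 2 + 1 = i := by decide
  have a121 : ∀ i : Fin 3, i + 1 + 2 = i + 2 + 1 := by decide
  have a22 : ∀ i : Fin 3, i + 2 + 2 = i + 1 := by decide
  have b1 : ∀ j : Fin 3, (1 - j : Fin 3) + 2 = -j := by decide
  have b2 : ∀ j : Fin 3, -(j + 2) = (1 - j : Fin 3) := by decide
  -- cyclic
  have hcy : ∀ u ∈ U, cy u ∈ U := by
    intro u hu
    rw [hU'] at hu ⊢
    refine ⟨fun i => hu.1 (i + 1), fun j => ?_⟩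
    have h := hu.2 (j + 1)
    rw [a121] at h
    exact h
  have hcy' : ∀ u ∈ U, cy' u ∈ U := by
    intro u hu
    rw [hU'] at hu ⊢
    refine ⟨fun i => hu.1 (i + 2), fun j => hu.2 (j + 2)⟩
  have c1 : ∀ u, cy' (cy u) = u := by
    intro u
    funext x
    rcases x with i | ⟨j, k⟩
    · show u (.inl (i + 2 + 1)) = _
      rw [a21]
    · show u (.inr (j + 2 + 1, k)) = _
      rw [a21]
  have c2 : ∀ u, cy (cy' u) = u := by
    intro u
    funext x
    rcases x with i | ⟨j, k⟩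
    · show u (.inl (i + 1 + 2)) = _
      rw [a12]
    · show u (.inr (j + 1 + 2, k)) = _
      rw [a12]
  have hrf : ∀ u ∈ U, rf u ∈ U := by
    intro u hu
    rw [hU'] at hu ⊢
    refine ⟨fun i => ?_, fun j => ?_⟩
    · have := hu.1 (-i)
      show -m ≤ -u (.inl (-i)) ∧ -u (.inl (-i)) ≤ m
      constructor <;> linarith
    · have h := hu.2 (1 - j)
      have e1 : (1 - j : Fin 3) + 2 = -j := b1 j
      have e2 : -(j + 2) = (1 - j : Fin 3) := b2 j
      rw [e1] at h
      show -m ≤ u (.inr (1 - j, 0)) ∧ -m ≤ u (.inr (1 - j, 1)) ∧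
        u (.inr (1 - j, 0)) + u (.inr (1 - j, 1)) ≤ m + (-u (.inl (-j)) - -u (.inl (-(j + 2))))
      rw [e2]
      refine ⟨h.1, h.2.1, by linarith [h.2.2]⟩
  have rr : ∀ u, rf (rf u) = u := by
    intro u
    funext x
    rcases x with i | ⟨j, k⟩
    · show - -u (.inl (- -i)) = _
      rw [neg_neg, neg_neg]
    · show u (.inr (1 - (1 - j), k)) = _
      rw [sub_sub_cancel]
  have hsw : ∀ j, ∀ u ∈ U, sw j u ∈ U := by
    intro j u hu
    rw [hU'] at hu ⊢
    refine ⟨fun i => hu.1 i, fun j' => ?_⟩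
    have h := hu.2 j'
    by_cases hj : j' = j
    · have e0 : sw j u (.inr (j', 0)) = u (.inr (j', 1)) := by
        show (if j' = j then u (.inr (j', 1 - 0)) else u (.inr (j', 0))) = _
        rw [if_pos hj]; rfl
      have e1 : sw j u (.inr (j', 1)) = u (.inr (j', 0)) := by
        show (if j' = j then u (.inr (j', 1 - 1)) else u (.inr (j', 1))) = _
        rw [if_pos hj]; rfl
      have e2 : ∀ i, sw j u (.inl i) = u (.inl i) := fun _ => rfl
      rw [e0, e1, e2, e2]
      exact ⟨h.2.1, h.1, by linarith [h.2.2]⟩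
    · have e0 : ∀ k, sw j u (.inr (j', k)) = u (.inr (j', k)) := by
        intro k
        show (if j' = j then u (.inr (j', 1 - k)) else u (.inr (j', k))) = _
        rw [if_neg hj]
      have e2 : ∀ i, sw j u (.inl i) = u (.inl i) := fun _ => rfl
      rw [e0, e0, e2, e2]
      exact h
  have ss : ∀ j u, sw j (sw j u) = u := by
    intro j u
    funext x
    rcases x with i | ⟨j', k⟩
    · rfl
    · show (if j' = j then (if j' = j then u (.inr (j', 1 - (1 - k))) else u (.inr (j', 1 - k)))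
        else (if j' = j then u (.inr (j', 1 - k)) else u (.inr (j', k)))) = _
      by_cases hj : j' = j
      · rw [if_pos hj, if_pos hj, sub_sub_cancel]
      · rw [if_neg hj, if_neg hj]
  have haf : ∀ j, ∀ u ∈ U, af j u ∈ U := by
    intro j u hu
    rw [hU'] at hu ⊢
    refine ⟨fun i => hu.1 i, fun j' => ?_⟩
    have h := hu.2 j'
    have e2 : ∀ i, af j u (.inl i) = u (.inl i) := fun _ => rfl
    have e1 : af j u (.inr (j', 1)) = u (.inr (j', 1)) := by
      show (if (j', (1 : Fin 2)) = (j, 0) then _ else u (.inr (j', 1))) = _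
      rw [if_neg (by simp)]
    by_cases hj : j' = j
    · have e0 : af j u (.inr (j', 0)) = -u (.inr (j', 0)) - u (.inr (j', 1)) + (u (.inl j') - u (.inl (j' + 2))) := by
        show (if (j', (0 : Fin 2)) = (j, 0) then _ else u (.inr (j', 0))) = _
        rw [if_pos (by rw [hj]), hj]
      rw [e0, e1, e2, e2]
      exact ⟨by linarith [h.2.2], h.2.1, by linarith [h.1]⟩
    · have e0 : af j u (.inr (j', 0)) = u (.inr (j', 0)) := by
        show (if (j', (0 : Fin 2)) = (j, 0) then _ else u (.inr (j', 0))) = _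
        rw [if_neg (by simp [hj])]
      rw [e0, e1, e2, e2]
      exact h
  have aa : ∀ j u, af j (af j u) = u := by
    intro j u
    funext x
    rcases x with i | p
    · rfl
    · have e1 : af j u (.inr (j, 1)) = u (.inr (j, 1)) := by
        show (if (j, (1 : Fin 2)) = (j, 0) then _ else u (.inr (j, 1))) = _
        rw [if_neg (by simp)]
      have e0 : af j u (.inr (j, 0)) = -u (.inr (j, 0)) - u (.inr (j, 1)) + (u (.inl j) - u (.inl (j + 2))) := by
        show (if (j, (0 : Fin 2)) = (j, 0) then _ else u (.inr (j, 0))) = _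
        rw [if_pos rfl]
      by_cases hp : p = (j, 0)
      · show (if p = (j, 0) then -af j u (.inr (j, 0)) - af j u (.inr (j, 1)) +
          (u (.inl j) - u (.inl (j + 2))) else _) = _
        rw [if_pos hp, e0, e1, hp]
        ring
      · show (if p = (j, 0) then _ else (if p = (j, 0) then _ else u (.inr p))) = _
        rw [if_neg hp, if_neg hp]
  have s1 : ∀ i, ∑ u ∈ U, u (.inl (i + 1)) = ∑ u ∈ U, u (.inl i) := fun i =>
    sum_inv U cy cy' hcy hcy' c1 c2 (fun u => u (.inl i))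
  have s2 : ∀ i, ∑ u ∈ U, -u (.inl (-i)) = ∑ u ∈ U, u (.inl i) := fun i =>
    sum_inv U rf rf hrf hrf rr rr (fun u => u (.inl i))
  have z0 : ∑ u ∈ U, u (.inl 0) = 0 := by
    have h := s2 0
    rw [neg_zero, Finset.sum_neg_distrib] at h
    linarith
  have zi : ∀ i, ∑ u ∈ U, u (.inl i) = 0 := by
    have h1 := s1 0
    have h2 := s1 1
    rw [z0] at h1
    have e1 : (0 : Fin 3) + 1 = 1 := rfl
    have e2 : (1 : Fin 3) + 1 = 2 := rfl
    rw [e1] at h1
    rw [e2, h1] at h2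
    intro i
    fin_cases i
    · exact z0
    · exact h1
    · exact h2
  have s3 : ∀ j, ∑ u ∈ U, u (.inr (j, 1)) = ∑ u ∈ U, u (.inr (j, 0)) := by
    intro j
    have h := sum_inv U (sw j) (sw j) (hsw j) (hsw j) (ss j) (ss j) (fun u => u (.inr (j, 0)))
    rw [← h]
    apply Finset.sum_congr rfl
    intro u _
    show u (.inr (j, 1)) = (if j = j then u (.inr (j, 1 - 0)) else u (.inr (j, 0)))
    rw [if_pos rfl]
    rfl
  have s4 : ∀ j, ∑ u ∈ U, u (.inr (j, 0)) = 0 := by
    intro j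
    have h := sum_inv U (af j) (af j) (haf j) (haf j) (aa j) (aa j) (fun u => u (.inr (j, 0)))
    have h' : ∑ u ∈ U, af j u (.inr (j, 0)) = -∑ u ∈ U, u (.inr (j, 0)) - ∑ u ∈ U, u (.inr (j, 1)) +
        (∑ u ∈ U, u (.inl j) - ∑ u ∈ U, u (.inl (j + 2))) := by
      rw [← Finset.sum_neg_distrib, ← Finset.sum_sub_distrib, ← Finset.sum_sub_distrib,
        ← Finset.sum_add_distrib]
      apply Finset.sum_congr rfl
      intro u _
      show (if (j, (0 : Fin 2)) = (j, 0) then _ else u (.inr (j, 0))) = _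
      rw [if_pos rfl]
    rw [h', s3, zi, zi] at h
    linarith
  funext x
  rw [Finset.sum_apply]
  rcases x with i | ⟨j, k⟩
  · exact zi i
  · fin_cases k
    · exact s4 j
    · exact (s3 j).trans (s4 j)

end FanoFib.Comb
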