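import Mathlib
import Pool.Agent.Helper419.KS.Comb

namespace FanoFib.Comb

/-- fibres over the first coordinates -/
noncomputable def Wf_9426 (m l : ℤ) : Finset (Σ _ : ℤ, ℤ) :=
  (Finset.Icc (-m) (2 * m + l)).sigma (fun x => Finset.Icc (-m) (m + l - x))

/-- the three twists -/
def lj_9426 (v : ℤ × ℤ) : Fin 3 → ℤ := ![v.1, v.2 - v.1, -v.2]

theorem sum_ell_9426 (u : Fin 2 ⊕ Fin 3 × Fin 2 → ℤ) (j : Fin 3) :
    ∑ i, ellY j i * u (.inl i) = lj_9426 (u (.inl 0), u (.inl 1)) j := by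
  rw [Fin.sum_univ_two]
  fin_cases j
  · simp [ellY, ellX, lj_9426]
  · simp [ellY, ellX, lj_9426]
    ring
  · simp [ellY, ellX, lj_9426]

theorem mem_Wf_9426 (m l x y : ℤ) : (⟨x, y⟩ : Σ _ : ℤ, ℤ) ∈ Wf_9426 m l ↔
    -m ≤ x ∧ -m ≤ y ∧ x + y ≤ m + l := by
  unfold Wf_9426
  rw [Finset.mem_sigma, Finset.mem_Icc, Finset.mem_Icc]
  dsimp only
  constructor
  · rintro ⟨⟨h1, h2⟩, h3, h4⟩
    exact ⟨h1, h3, by linarith⟩
  · rintro ⟨h1, h2, h3⟩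
    exact ⟨⟨h1, by linarith⟩, h2, by linarith⟩

theorem inP_iff_9426 (m : ℤ) (u : Fin 2 ⊕ Fin 3 × Fin 2 → ℤ) : InP ellY m u ↔
    (u (.inl 0), u (.inl 1)) ∈ Finset.Icc (-m) m ×ˢ Finset.Icc (-m) m ∧
    (fun j => (⟨u (.inr (j, 0)), u (.inr (j, 1))⟩ : Σ _ : ℤ, ℤ)) ∈
      Fintype.piFinset (fun j => Wf_9426 m (lj_9426 (u (.inl 0), u (.inl 1)) j)) := by
  unfold InP
  rw [Finset.mem_product, Finset.mem_Icc, Finset.mem_Icc, Fintype.mem_piFinset, Fin.forall_fin_two]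
  dsimp only
  simp only [mem_Wf_9426, sum_ell_9426]

theorem sum_fiber_9426 (m : ℕ) (U : Finset (Fin 2 ⊕ Fin 3 × Fin 2 → ℤ))
    (hU : ∀ u, u ∈ U ↔ InP ellY m u) (F : ℤ × ℤ → ℝ) :
    ∑ u ∈ U, F (u (.inl 0), u (.inl 1)) =
      ∑ v ∈ Finset.Icc (-(m : ℤ)) m ×ˢ Finset.Icc (-(m : ℤ)) m,
        F v * ∏ j, ((Wf_9426 m (lj_9426 v j)).card : ℝ) := by
  have h1 : ∑ v ∈ Finset.Icc (-(m : ℤ)) m ×ˢ Finset.Icc (-(m : ℤ)) m,
        F v * ∏ j, ((Wf_9426 m (lj_9426 v j)).card : ℝ) =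
      ∑ x ∈ (Finset.Icc (-(m : ℤ)) m ×ˢ Finset.Icc (-(m : ℤ)) m).sigma
        (fun v => Fintype.piFinset (fun j => Wf_9426 m (lj_9426 v j))), F x.1 := by
    rw [Finset.sum_sigma]
    refine Finset.sum_congr rfl (fun v _ => ?_)
    dsimp only
    rw [Finset.sum_const, Fintype.card_piFinset, nsmul_eq_mul, mul_comm]
    push_cast
    rfl
  rw [h1]
  refine Finset.sum_nbij'
    (i := fun u => ⟨(u (.inl 0), u (.inl 1)), fun j => ⟨u (.inr (j, 0)), u (.inr (j, 1))⟩⟩)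
    (j := fun x => Sum.elim (fun i => if i = 0 then x.1.1 else x.1.2)
      (fun p => if p.2 = 0 then (x.2 p.1).1 else (x.2 p.1).2)) ?_ ?_ ?_ ?_ ?_
  · intro u hu
    rw [Finset.mem_sigma]
    exact (inP_iff_9426 m u).1 ((hU u).1 hu)
  · rintro ⟨⟨a, b⟩, w⟩ hx
    rw [Finset.mem_sigma] at hx
    rw [hU, inP_iff_9426]
    exact hx
  · intro u _
    funext z
    rcases z with i | ⟨j, i⟩
    · fin_cases i <;> simp
    · fin_cases i <;> simp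
  · rintro ⟨⟨a, b⟩, w⟩ _
    rfl
  · intro u _
    rfl

theorem sum_lin_9426 (k : ℕ) (c : ℤ) :
    ∑ x ∈ Finset.Icc (c - k) c, ((c - x + 1 : ℤ) : ℝ) = ((k : ℝ) + 1) * (k + 2) / 2 := by
  induction k with
  | zero => simp
  | succ k ih =>
    have h1 : Finset.Icc (c - ((k + 1 : ℕ) : ℤ)) c =
        insert (c - ((k + 1 : ℕ) : ℤ)) (Finset.Icc (c - (k : ℤ)) c) := by
      ext x
      simp only [Finset.mem_insert, Finset.mem_Icc]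
      push_cast
      omega
    rw [h1, Finset.sum_insert, ih]
    · push_cast
      ring
    · rw [Finset.mem_Icc]
      push_cast
      omega

theorem card_Wf_9426 (m l : ℤ) (h : 0 ≤ 3 * m + l) :
    ((Wf_9426 m l).card : ℝ) = ((3 * m + l : ℤ) + 1 : ℝ) * ((3 * m + l : ℤ) + 2) / 2 := by
  unfold Wf_9426
  rw [Finset.card_sigma]
  push_cast
  obtain ⟨k, hk⟩ := Int.eq_ofNat_of_zero_le h
  have h1 := sum_lin_9426 k (2 * m + l)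
  have h2 : 2 * m + l - (k : ℤ) = -m := by rw [← hk]; ring
  rw [h2] at h1
  have h3 : (3 * (m : ℝ) + (l : ℝ)) = (k : ℝ) := by
    have := congrArg (fun z : ℤ => (z : ℝ)) hk
    push_cast at this
    exact this
  rw [h3, ← h1]
  refine Finset.sum_congr rfl (fun x hx => ?_)
  rw [Finset.mem_Icc] at hx
  rw [Int.card_Icc]
  have h4 : (((m + l - x + 1 - (-m)).toNat : ℤ)) = 2 * m + l - x + 1 := by
    rw [Int.toNat_of_nonneg (by linarith)]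
    ring
  rw [← h4, Int.cast_natCast]

theorem sum_poly_9426 (m : ℕ) (c0 c1 c2 c3 c4 c5 : ℝ) :
    ∑ a ∈ Finset.Icc (-(m : ℤ)) m, (c0 + c1 * (a : ℝ) + c2 * (a : ℝ) ^ 2 + c3 * (a : ℝ) ^ 3 +
      c4 * (a : ℝ) ^ 4 + c5 * (a : ℝ) ^ 5) =
    c0 * (2 * m + 1) + c2 * (m * (m + 1) * (2 * m + 1) / 3) +
      c4 * (m * (m + 1) * (2 * m + 1) * (3 * m ^ 2 + 3 * m - 1) / 15) := by
  induction m with
  | zero => simp
  | succ m ih =>
    have h1 : Finset.Icc (-((m + 1 : ℕ) : ℤ)) ((m + 1 : ℕ) : ℤ) =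
        insert (-((m + 1 : ℕ) : ℤ)) (insert ((m + 1 : ℕ) : ℤ) (Finset.Icc (-(m : ℤ)) m)) := by
      ext x
      simp only [Finset.mem_insert, Finset.mem_Icc]
      push_cast
      omega
    rw [h1, Finset.sum_insert, Finset.sum_insert, ih]
    · push_cast
      ring
    · rw [Finset.mem_Icc]
      push_cast
      omega
    · rw [Finset.mem_insert, Finset.mem_Icc]
      push_cast
      omega

theorem prod_card_9426 (m : ℕ) (v : ℤ × ℤ)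
    (hv : v ∈ Finset.Icc (-(m : ℤ)) m ×ˢ Finset.Icc (-(m : ℤ)) m) :
    ∏ j, ((Wf_9426 m (lj_9426 v j)).card : ℝ) =
      ((3 * (m : ℝ) + v.1 + 1) * (3 * m + v.1 + 2) / 2) *
      ((3 * (m : ℝ) + (v.2 - v.1) + 1) * (3 * m + (v.2 - v.1) + 2) / 2) *
      ((3 * (m : ℝ) - v.2 + 1) * (3 * m - v.2 + 2) / 2) := by
  rw [Finset.mem_product, Finset.mem_Icc, Finset.mem_Icc] at hv
  obtain ⟨⟨h1, h2⟩, h3, h4⟩ := hv
  have e0 : lj_9426 v 0 = v.1 := rfl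
  have e1 : lj_9426 v 1 = v.2 - v.1 := rfl
  have e2 : lj_9426 v 2 = -v.2 := rfl
  rw [Fin.prod_univ_three, e0, e1, e2, card_Wf_9426 _ _ (by linarith),
    card_Wf_9426 _ _ (by linarith), card_Wf_9426 _ _ (by linarith)]
  push_cast
  ring

theorem sumY (U : ℕ → Finset (Fin 2 ⊕ Fin 3 × Fin 2 → ℤ))
    (hU : ∀ (m : ℕ) u, u ∈ U m ↔ InP ellY m u) :
    ∃ c : ℝ, 0 < c ∧ ∀ m : ℕ, 1 ≤ m → c * (m : ℝ) ^ (8 + 1) ≤ ∑ u ∈ U m, (u (.inl 1) : ℝ) := by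
  refine ⟨12 / 5, by norm_num, fun m hm => ?_⟩
  have h1 := sum_fiber_9426 m (U m) (hU m) (fun v => (v.2 : ℝ))
  dsimp only at h1
  rw [h1]
  have h2 : ∑ v ∈ Finset.Icc (-(m : ℤ)) m ×ˢ Finset.Icc (-(m : ℤ)) m,
      (v.2 : ℝ) * ∏ j, ((Wf_9426 m (lj_9426 v j)).card : ℝ) =
      ∑ v ∈ Finset.Icc (-(m : ℤ)) m ×ˢ Finset.Icc (-(m : ℤ)) m, (v.2 : ℝ) *
      (((3 * (m : ℝ) + v.1 + 1) * (3 * m + v.1 + 2) / 2) *
      ((3 * (m : ℝ) + (v.2 - v.1) + 1) * (3 * m + (v.2 - v.1) + 2) / 2) *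
      ((3 * (m : ℝ) - v.2 + 1) * (3 * m - v.2 + 2) / 2)) :=
    Finset.sum_congr rfl (fun v hv => by rw [prod_card_9426 m v hv])
  rw [h2, Finset.sum_product_right]
  dsimp only
  set A : ℝ := 3 * m + 1 with hA
  set p0 : ℝ := A * (A + 1) with hp0
  set p1 : ℝ := 2 * A + 1 with hp1
  set S0 : ℝ := 2 * m + 1 with hS0
  set S2 : ℝ := m * (m + 1) * (2 * m + 1) / 3 with hS2
  set S4 : ℝ := m * (m + 1) * (2 * m + 1) * (3 * m ^ 2 + 3 * m - 1) / 15 with hS4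
  have h3 : ∀ b : ℤ, ∑ a ∈ Finset.Icc (-(m : ℤ)) m, (b : ℝ) *
      (((3 * (m : ℝ) + a + 1) * (3 * m + a + 2) / 2) *
      ((3 * (m : ℝ) + (b - a) + 1) * (3 * m + (b - a) + 2) / 2) *
      ((3 * (m : ℝ) - b + 1) * (3 * m - b + 2) / 2)) =
      (b : ℝ) * (p0 - p1 * b + b ^ 2) / 8 * (S0 * (p0 * (p0 + p1 * b + b ^ 2)) +
        S2 * (2 * p0 - p1 ^ 2 - p1 * b + b ^ 2) + S4) := by
    intro b
    set K : ℝ := (b : ℝ) * (p0 - p1 * b + b ^ 2) / 8 with hK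
    have h4 := sum_poly_9426 m (K * (p0 * (p0 + p1 * b + b ^ 2)))
      (K * (p1 * (p0 + p1 * b + b ^ 2) - p0 * (p1 + 2 * b)))
      (K * (2 * p0 - p1 ^ 2 - p1 * b + b ^ 2)) (K * (-2 * b)) K 0
    have h5 : ∀ a : ℤ, (b : ℝ) *
      (((3 * (m : ℝ) + a + 1) * (3 * m + a + 2) / 2) *
      ((3 * (m : ℝ) + (b - a) + 1) * (3 * m + (b - a) + 2) / 2) *
      ((3 * (m : ℝ) - b + 1) * (3 * m - b + 2) / 2)) =
      K * (p0 * (p0 + p1 * b + b ^ 2)) +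
      (K * (p1 * (p0 + p1 * b + b ^ 2) - p0 * (p1 + 2 * b))) * (a : ℝ) +
      (K * (2 * p0 - p1 ^ 2 - p1 * b + b ^ 2)) * (a : ℝ) ^ 2 + (K * (-2 * b)) * (a : ℝ) ^ 3 +
      K * (a : ℝ) ^ 4 + 0 * (a : ℝ) ^ 5 := by
      intro a
      rw [hK, hp0, hp1, hA]
      ring
    rw [Finset.sum_congr rfl (fun a _ => h5 a), h4]
    ring
  rw [Finset.sum_congr rfl (fun b _ => h3 b)]
  set E0 : ℝ := S0 * p0 ^ 2 + S2 * (2 * p0 - p1 ^ 2) + S4 with hE0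
  set E1 : ℝ := S0 * p0 * p1 - S2 * p1 with hE1
  set E2 : ℝ := S0 * p0 + S2 with hE2
  have h6 := sum_poly_9426 m 0 (p0 * E0 / 8) ((p0 * E1 - p1 * E0) / 8)
    ((p0 * E2 - p1 * E1 + E0) / 8) ((E1 - p1 * E2) / 8) (E2 / 8)
  have h7 : ∀ b : ℤ, (b : ℝ) * (p0 - p1 * b + b ^ 2) / 8 * (S0 * (p0 * (p0 + p1 * b + b ^ 2)) +
        S2 * (2 * p0 - p1 ^ 2 - p1 * b + b ^ 2) + S4) =
      0 + (p0 * E0 / 8) * (b : ℝ) + ((p0 * E1 - p1 * E0) / 8) * (b : ℝ) ^ 2 +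
    ((p0 * E2 - p1 * E1 + E0) / 8) * (b : ℝ) ^ 3 + ((E1 - p1 * E2) / 8) * (b : ℝ) ^ 4 +
    (E2 / 8) * (b : ℝ) ^ 5 := by
    intro b
    rw [hE0, hE1, hE2]
    ring
  rw [Finset.sum_congr rfl (fun b _ => h7 b), h6]
  have h8 : 0 * (2 * (m : ℝ) + 1) + (p0 * E1 - p1 * E0) / 8 * (m * (m + 1) * (2 * m + 1) / 3) +
      (E1 - p1 * E2) / 8 * (m * (m + 1) * (2 * m + 1) * (3 * m ^ 2 + 3 * m - 1) / 15) =
      12 / 5 * (m : ℝ) ^ 9 + 54 / 5 * m ^ 8 + 21 * m ^ 7 + 231 / 10 * m ^ 6 + 78 / 5 * m ^ 5 +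
        129 / 20 * m ^ 4 + 3 / 2 * m ^ 3 + 3 / 20 * m ^ 2 := by
    rw [hE0, hE1, hE2, hS0, hS2, hS4, hp0, hp1, hA]
    ring
  rw [h8]
  have h9 : 0 ≤ 54 / 5 * (m : ℝ) ^ 8 + 21 * m ^ 7 + 231 / 10 * m ^ 6 + 78 / 5 * m ^ 5 +
        129 / 20 * m ^ 4 + 3 / 2 * m ^ 3 + 3 / 20 * m ^ 2 := by positivity
  have h10 : (m : ℝ) ^ (8 + 1) = (m : ℝ) ^ 9 := rfl
  rw [h10]
  linarith

theorem cardY (U : ℕ → Finset (Fin 2 ⊕ Fin 3 × Fin 2 → ℤ))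
    (hU : ∀ (m : ℕ) u, u ∈ U m ↔ InP ellY m u) :
    ∃ C : ℝ, ∀ m : ℕ, 1 ≤ m → ((U m).card : ℝ) ≤ C * (m : ℝ) ^ 8 := by
  refine ⟨9 * 21 ^ 3, fun m hm => ?_⟩
  have hm1 : (1 : ℝ) ≤ m := by exact_mod_cast hm
  have h1 := sum_fiber_9426 m (U m) (hU m) (fun _ => 1)
  simp only [Finset.sum_const, nsmul_eq_mul, mul_one, one_mul] at h1
  rw [h1]
  calc ∑ v ∈ Finset.Icc (-(m : ℤ)) m ×ˢ Finset.Icc (-(m : ℤ)) m, ∏ j, ((Wf_9426 m (lj_9426 v j)).card : ℝ)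
      ≤ ∑ v ∈ Finset.Icc (-(m : ℤ)) m ×ˢ Finset.Icc (-(m : ℤ)) m, (21 * (m : ℝ) ^ 2) ^ 3 := by
        refine Finset.sum_le_sum (fun v hv => ?_)
        rw [prod_card_9426 m v hv]
        rw [Finset.mem_product, Finset.mem_Icc, Finset.mem_Icc] at hv
        obtain ⟨⟨g1, g2⟩, g3, g4⟩ := hv
        have g1' : -(m : ℝ) ≤ v.1 := by exact_mod_cast g1
        have g2' : (v.1 : ℝ) ≤ m := by exact_mod_cast g2
        have g3' : -(m : ℝ) ≤ v.2 := by exact_mod_cast g3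
        have g4' : (v.2 : ℝ) ≤ m := by exact_mod_cast g4
        have key : ∀ x : ℝ, -(2 * m) ≤ x → x ≤ 2 * m →
            0 ≤ (3 * (m : ℝ) + x + 1) * (3 * m + x + 2) / 2 ∧
            (3 * (m : ℝ) + x + 1) * (3 * m + x + 2) / 2 ≤ 21 * (m : ℝ) ^ 2 := by
          intro x hx1 hx2
          have e1 : 0 ≤ 3 * (m : ℝ) + x + 1 := by linarith
          have e2 : 0 ≤ 3 * (m : ℝ) + x + 2 := by linarith
          have e3 : 3 * (m : ℝ) + x + 1 ≤ 6 * m := by linarith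
          have e4 : 3 * (m : ℝ) + x + 2 ≤ 7 * m := by linarith
          refine ⟨by positivity, ?_⟩
          have := mul_le_mul e3 e4 e2 (by positivity)
          nlinarith
        obtain ⟨k1, k2⟩ := key v.1 (by linarith) (by linarith)
        obtain ⟨k3, k4⟩ := key (v.2 - v.1) (by linarith) (by linarith)
        obtain ⟨k5, k6⟩ := key (-v.2) (by linarith) (by linarith)
        have e5 : (3 * (m : ℝ) - v.2 + 1) * (3 * m - v.2 + 2) / 2 =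
          (3 * (m : ℝ) + -v.2 + 1) * (3 * m + -v.2 + 2) / 2 := by ring
        rw [e5]
        calc _ ≤ (21 * (m : ℝ) ^ 2) * (21 * (m : ℝ) ^ 2) * (21 * (m : ℝ) ^ 2) :=
              mul_le_mul (mul_le_mul k2 k4 k3 (by positivity)) k6 k5 (by positivity)
          _ = _ := by ring
    _ = (2 * (m : ℝ) + 1) ^ 2 * (21 * (m : ℝ) ^ 2) ^ 3 := by
        rw [Finset.sum_const, Finset.card_product, nsmul_eq_mul, Int.card_Icc]
        have e6 : ((m : ℤ) + 1 - (-(m : ℤ))).toNat = 2 * m + 1 := by omega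
        rw [e6]
        push_cast
        ring
    _ ≤ (3 * (m : ℝ)) ^ 2 * (21 * (m : ℝ) ^ 2) ^ 3 := by
        gcongr
        linarith
    _ = 9 * 21 ^ 3 * (m : ℝ) ^ 8 := by ring

end FanoFib.Comb
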