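import Mathlib

/-! Monomials and logarithmic derivations on the rational function field. -/

namespace FanoFib.Tor

open MvPolynomial

variable {ι : Type} [Fintype ι] [DecidableEq ι]

/-- The field of rational functions in the variables `ι`. -/
abbrev KK (ι : Type) : Type := FractionRing (MvPolynomial ι ℂ)

/-- The variable `i` as an element of the function field. -/
noncomputable def xx (i : ι) : KK ι := algebraMap (MvPolynomial ι ℂ) (KK ι) (X i)

omit [Fintype ι] [DecidableEq ι] in
lemma xx_ne_zero (i : ι) : xx i ≠ 0 := by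
  unfold xx
  rw [Ne, FaithfulSMul.algebraMap_eq_zero_iff]
  exact X_ne_zero i

/-- The Laurent monomial with exponent `u`. -/
noncomputable def mon (u : ι → ℤ) : KK ι := ∏ i, xx i ^ (u i)

omit [DecidableEq ι] in
@[simp] lemma mon_zero : mon (0 : ι → ℤ) = 1 := by simp [mon]

omit [DecidableEq ι] in
lemma mon_add (u w : ι → ℤ) : mon (u + w) = mon u * mon w := by
  simp only [mon, Pi.add_apply]
  rw [← Finset.prod_mul_distrib]
  exact Finset.prod_congr rfl fun i _ => zpow_add₀ (xx_ne_zero i) _ _

omit [DecidableEq ι] in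
lemma mon_ne_zero (u : ι → ℤ) : mon u ≠ 0 :=
  Finset.prod_ne_zero_iff.2 fun i _ => zpow_ne_zero _ (xx_ne_zero i)

omit [DecidableEq ι] in
lemma mon_neg (u : ι → ℤ) : mon (-u) = (mon u)⁻¹ := by
  apply eq_inv_of_mul_eq_one_left
  rw [← mon_add, neg_add_cancel, mon_zero]

omit [DecidableEq ι] in
lemma mon_sub (u w : ι → ℤ) : mon (u - w) = mon u / mon w := by
  rw [sub_eq_add_neg, mon_add, mon_neg, div_eq_mul_inv]

omit [DecidableEq ι] in
lemma mon_nsmul (u : ι → ℤ) (k : ℕ) : mon (k • u) = mon u ^ k := by
  induction k with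
  | zero => simp
  | succ k ih => rw [add_smul, one_smul, mon_add, ih, pow_succ]

omit [DecidableEq ι] in
lemma mon_zsmul (u : ι → ℤ) (k : ℤ) : mon (k • u) = mon u ^ k := by
  obtain ⟨k, rfl | rfl⟩ := k.eq_nat_or_neg
  · rw [natCast_zsmul, mon_nsmul, zpow_natCast]
  · rw [neg_smul, natCast_zsmul, mon_neg, mon_nsmul, zpow_neg, zpow_natCast]

omit [DecidableEq ι] in
lemma mon_sum {α : Type*} (s : Finset α) (f : α → ι → ℤ) :
    mon (∑ a ∈ s, f a) = ∏ a ∈ s, mon (f a) := by
  classical
  induction s using Finset.induction_on with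
  | empty => simp
  | insert a s ha ih => rw [Finset.sum_insert ha, Finset.prod_insert ha, mon_add, ih]

lemma mon_single (i : ι) (k : ℤ) : mon (Pi.single i k) = xx i ^ k := by
  unfold mon
  rw [Finset.prod_eq_single i]
  · simp
  · intro j _ hj
    simp [Pi.single_eq_of_ne hj]
  · simp

omit [DecidableEq ι] in
/-- Monomials with nonnegative exponents come from polynomials. -/
lemma mon_natCast (u : ι → ℕ) :
    mon (fun i => (u i : ℤ)) =
      algebraMap (MvPolynomial ι ℂ) (KK ι) (monomial (Finsupp.equivFunOnFinite.symm u) 1) := by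
  simp only [mon, xx, zpow_natCast]
  rw [monomial_eq]
  simp [Finsupp.prod_fintype]

omit [DecidableEq ι] in
lemma linearIndependent_mon : LinearIndependent ℂ (mon : (ι → ℤ) → KK ι) := by
  classical
  rw [linearIndependent_iff']
  intro s g hg
  -- shift so that all exponents are nonnegative
  obtain ⟨N, hN⟩ : ∃ N : ℕ, ∀ u ∈ s, ∀ i, 0 ≤ u i + N := by
    refine ⟨∑ u ∈ s, ∑ i, (u i).natAbs, fun u hu i => ?_⟩
    have h1 : (u i).natAbs ≤ ∑ i, (u i).natAbs :=
      Finset.single_le_sum (f := fun i => (u i).natAbs) (fun _ _ => Nat.zero_le _)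
        (Finset.mem_univ i)
    have h2 : ∑ i, (u i).natAbs ≤ ∑ u ∈ s, ∑ i, (u i).natAbs :=
      Finset.single_le_sum (f := fun u : ι → ℤ => ∑ i, (u i).natAbs) (fun _ _ => Nat.zero_le _) hu
    have h3 : ((u i).natAbs : ℤ) ≤ ((∑ u ∈ s, ∑ i, (u i).natAbs : ℕ) : ℤ) := by
      exact_mod_cast h1.trans h2
    have h4 := abs_le.1 (le_of_eq (Int.abs_eq_natAbs (u i)))
    linarith [h4.1]
  have key : ∑ u ∈ s, monomial (Finsupp.equivFunOnFinite.symm fun i => (u i + N).toNat) (g u) =
      (0 : MvPolynomial ι ℂ) := by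
    apply IsFractionRing.injective (MvPolynomial ι ℂ) (KK ι)
    rw [map_zero, map_sum]
    have h5 : ∀ u ∈ s, algebraMap (MvPolynomial ι ℂ) (KK ι)
        (monomial (Finsupp.equivFunOnFinite.symm fun i => (u i + N).toNat) (g u)) =
        (g u • mon u) * mon (fun _ => (N : ℤ)) := by
      intro u hu
      have h6 : monomial (Finsupp.equivFunOnFinite.symm fun i => (u i + N).toNat) (g u) =
        g u • monomial (Finsupp.equivFunOnFinite.symm fun i => (u i + N).toNat) (1 : ℂ) := by
        rw [smul_monomial, smul_eq_mul, mul_one]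
      rw [h6, Algebra.smul_def, map_mul, ← IsScalarTower.algebraMap_apply, ← Algebra.smul_def,
        ← mon_natCast, smul_mul_assoc, ← mon_add]
      congr 2
      funext i
      simp only [Pi.add_apply]
      rw [Int.toNat_of_nonneg (hN u hu i)]
    rw [Finset.sum_congr rfl h5, ← Finset.sum_mul, hg, zero_mul]
  intro u hu
  have h7 := congrArg (coeff (Finsupp.equivFunOnFinite.symm fun i => (u i + N).toNat)) key
  rw [coeff_sum, coeff_zero] at h7
  rw [Finset.sum_eq_single u] at h7
  · rwa [coeff_monomial, if_pos rfl] at h7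
  · intro w hw hwu
    rw [coeff_monomial, if_neg]
    intro h8
    apply hwu
    funext i
    have h9 := DFunLike.congr_fun h8 i
    simp only [Finsupp.equivFunOnFinite_symm_apply_apply] at h9
    have := hN w hw i
    have := hN u hu i
    omega
  · intro h; exact absurd hu h


/-- The differentials of the variables form a basis. -/
noncomputable def kaehlerBasis : Module.Basis ι (KK ι) (Ω[KK ι⁄ℂ]) :=
  (KaehlerDifferential.mvPolynomialBasis ℂ ι).ofIsLocalizedModule (KK ι)
    (nonZeroDivisors (MvPolynomial ι ℂ))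
    (KaehlerDifferential.map ℂ ℂ (MvPolynomial ι ℂ) (KK ι))

lemma kaehlerBasis_apply (i : ι) :
    kaehlerBasis i = KaehlerDifferential.D ℂ (KK ι) (xx i) := by
  rw [kaehlerBasis, Module.Basis.ofIsLocalizedModule_apply]
  simp [xx]

/-- The coordinate vector fields. -/
noncomputable def frame0 : Module.Basis ι (KK ι) (Derivation ℂ (KK ι) (KK ι)) :=
  (kaehlerBasis (ι := ι)).dualBasis.map (KaehlerDifferential.linearMapEquivDerivation ℂ (KK ι))

lemma frame0_xx (i j : ι) : frame0 i (xx j) = if j = i then 1 else 0 := by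
  rw [frame0, Module.Basis.map_apply, KaehlerDifferential.linearMapEquivDerivation_apply_apply,
    ← kaehlerBasis_apply, Module.Basis.dualBasis_apply_self]

/-- The logarithmic vector fields `x_i ∂/∂x_i`. -/
noncomputable def frame : Module.Basis ι (KK ι) (Derivation ℂ (KK ι) (KK ι)) :=
  (frame0 (ι := ι)).unitsSMul fun i => Units.mk0 (xx i) (xx_ne_zero i)

lemma frame_xx (i j : ι) : frame i (xx j) = if j = i then xx i else 0 := by
  rw [frame, Module.Basis.unitsSMul_apply, Units.smul_def, Derivation.smul_apply, frame0_xx]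
  simp

lemma frame_mon (i : ι) (u : ι → ℤ) : frame i (mon u) = (u i : KK ι) * mon u := by
  have key : ∀ s : Finset ι, frame i (∏ j ∈ s, xx j ^ (u j)) =
      (if i ∈ s then (u i : KK ι) else 0) * ∏ j ∈ s, xx j ^ (u j) := by
    intro s
    induction s using Finset.induction_on with
    | empty => simp
    | insert a s ha ih =>
      rw [Finset.prod_insert ha, Derivation.leibniz, ih, Derivation.leibniz_zpow, frame_xx]
      by_cases h : a = i
      · subst h
        simp only [ha, if_false, if_true, Finset.mem_insert, true_or, zero_mul, smul_zero,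
          zero_add, smul_eq_mul, zsmul_eq_mul]
        have h1 : xx a ^ (u a - 1) * xx a = xx a ^ (u a) := by
          rw [← zpow_add_one₀ (xx_ne_zero a)]; simp
        rw [h1]; ring
      · have h' : ¬ (i = a) := fun h' => h h'.symm
        simp only [h, h', if_false, Finset.mem_insert, false_or, smul_zero, add_zero,
          smul_eq_mul]
        ring
  have := key Finset.univ
  simpa [mon] using this

end FanoFib.Tor
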