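import Mathlib
import Pool.Agent.Helper419.KS.Tor

namespace FanoFib.Tor

open MvPolynomial

variable {ι : Type} [Fintype ι] [DecidableEq ι]


/-- the map on values -/
noncomputable def fZ9735 : ℕ∞ →+ WithTop ℤ :=
  (AddMonoidHom.withTopMap (Nat.castAddMonoidHom ℤ) : WithTop ℕ →+ WithTop ℤ)

theorem fZ9735_top : fZ9735 ⊤ = ⊤ := rfl

theorem fZ9735_coe (n : ℕ) : fZ9735 (n : ℕ∞) = ((n : ℤ) : WithTop ℤ) := rfl

theorem fZ9735_mono : Monotone fZ9735 := by
  intro a b h
  induction b using ENat.recTopCoe with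
  | top => exact le_top
  | coe b =>
    induction a using ENat.recTopCoe with
    | top => simp at h
    | coe a =>
      rw [fZ9735_coe, fZ9735_coe]
      have : a ≤ b := by exact_mod_cast h
      exact_mod_cast this

theorem fZ9735_nonneg (a : ℕ∞) : 0 ≤ fZ9735 a := by
  have : fZ9735 0 ≤ fZ9735 a := fZ9735_mono (by simp)
  rwa [_root_.map_zero] at this

theorem exists_adic9735 (a : ι) : ∃ v : AddValuation (KK ι) (WithTop ℤ),
    ∀ p : MvPolynomial ι ℂ, v (algebraMap (MvPolynomial ι ℂ) (KK ι) p) =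
      fZ9735 (emultiplicity (X a) p) := by
  have hp : Prime (X a : MvPolynomial ι ℂ) := MvPolynomial.X_prime
  set v0 : AddValuation (MvPolynomial ι ℂ) (WithTop ℤ) :=
    (multiplicity_addValuation hp).map fZ9735 fZ9735_top fZ9735_mono with hv0
  have hv0' : ∀ p, v0 p = fZ9735 (emultiplicity (X a) p) := fun p => rfl
  set w0 : Valuation (MvPolynomial ι ℂ) (Multiplicative (WithTop ℤ)ᵒᵈ) :=
    AddValuation.toValuation v0 with hw0
  have hS : nonZeroDivisors (MvPolynomial ι ℂ) ≤ w0.supp.primeCompl := by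
    intro q hq hmem
    have hq0 : q ≠ 0 := nonZeroDivisors.ne_zero hq
    have h1 : w0 q = 0 := (Valuation.mem_supp_iff w0 q).mp hmem
    have h2 : v0 q = ⊤ := h1
    rw [hv0'] at h2
    have h3 := FiniteMultiplicity.of_prime_left hp hq0
    rw [h3.emultiplicity_eq_multiplicity, fZ9735_coe] at h2
    exact WithTop.coe_ne_top h2
  refine ⟨AddValuation.ofValuation (w0.extendToLocalization hS (KK ι)), fun p => ?_⟩
  rw [AddValuation.ofValuation_apply, Valuation.extendToLocalization_apply_map_apply]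
  rfl

/-- The `x_a`-adic valuation of the rational function field. -/
theorem exists_adic (a : ι) : ∃ v : AddValuation (KK ι) (WithTop ℤ),
    (∀ z : ℂ, z ≠ 0 → v (algebraMap ℂ (KK ι) z) = 0) ∧
    (∀ i, v (xx i) = if i = a then 1 else 0) ∧
    (∀ p : MvPolynomial ι ℂ, 0 ≤ v (algebraMap (MvPolynomial ι ℂ) (KK ι) p)) ∧
    (∀ f : KK ι, 0 ≤ v f → ∃ p s : MvPolynomial ι ℂ,
      v (algebraMap (MvPolynomial ι ℂ) (KK ι) s) = 0 ∧
      f = algebraMap (MvPolynomial ι ℂ) (KK ι) p / algebraMap (MvPolynomial ι ℂ) (KK ι) s) := by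
  have hp : Prime (X a : MvPolynomial ι ℂ) := MvPolynomial.X_prime
  obtain ⟨v, hv⟩ := exists_adic9735 a
  refine ⟨v, ?_, ?_, ?_, ?_⟩
  · intro z hz
    have h1 : algebraMap ℂ (KK ι) z = algebraMap (MvPolynomial ι ℂ) (KK ι) (C z) := by
      rw [IsScalarTower.algebraMap_apply ℂ (MvPolynomial ι ℂ) (KK ι)]
      rfl
    rw [h1, hv]
    have h2 : ¬ (X a : MvPolynomial ι ℂ) ∣ C z := by
      intro h
      exact hp.not_unit (isUnit_of_dvd_unit h ((isUnit_iff_ne_zero.mpr hz).map C))
    rw [emultiplicity_eq_zero.mpr h2, _root_.map_zero]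
  · intro i
    unfold xx
    rw [hv]
    by_cases h : i = a
    · subst h
      rw [if_pos rfl, (FiniteMultiplicity.of_prime_left hp hp.ne_zero).emultiplicity_self]
      rfl
    · rw [if_neg h]
      have h2 : ¬ (X a : MvPolynomial ι ℂ) ∣ X i := by
        rw [MvPolynomial.X_dvd_X]
        exact fun h' => h h'.symm
      rw [emultiplicity_eq_zero.mpr h2, _root_.map_zero]
  · intro p
    rw [hv]
    exact fZ9735_nonneg _
  · intro f hf
    obtain ⟨p, q, hq, rfl⟩ := IsFractionRing.div_surjective (A := MvPolynomial ι ℂ) f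
    have hq0 : q ≠ 0 := nonZeroDivisors.ne_zero hq
    obtain ⟨s, hs1, hs2⟩ :=
      (FiniteMultiplicity.of_prime_left hp hq0).exists_eq_pow_mul_and_not_dvd
    have hs0 : v (algebraMap (MvPolynomial ι ℂ) (KK ι) s) = 0 := by
      rw [hv, emultiplicity_eq_zero.mpr hs2, _root_.map_zero]
    set l := multiplicity (X a) q with hl
    have hqK : algebraMap (MvPolynomial ι ℂ) (KK ι) q ≠ 0 := by
      intro h
      exact hq0 ((IsFractionRing.injective (MvPolynomial ι ℂ) (KK ι)) (by rw [h, _root_.map_zero]))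
    have hvq : v (algebraMap (MvPolynomial ι ℂ) (KK ι) q) = ((l : ℤ) : WithTop ℤ) := by
      rw [hv, (FiniteMultiplicity.of_prime_left hp hq0).emultiplicity_eq_multiplicity, fZ9735_coe]
    have hvp : ((l : ℤ) : WithTop ℤ) ≤ v (algebraMap (MvPolynomial ι ℂ) (KK ι) p) := by
      have h1 : algebraMap (MvPolynomial ι ℂ) (KK ι) p =
          (algebraMap (MvPolynomial ι ℂ) (KK ι) p / algebraMap (MvPolynomial ι ℂ) (KK ι) q) *
            algebraMap (MvPolynomial ι ℂ) (KK ι) q := by
        rw [div_mul_cancel₀ _ hqK]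
      rw [h1, AddValuation.map_mul, hvq]
      exact le_add_of_nonneg_left hf
    have hdvd : (X a : MvPolynomial ι ℂ) ^ l ∣ p := by
      apply pow_dvd_of_le_emultiplicity
      rw [hv] at hvp
      by_contra hcon
      push Not at hcon
      obtain ⟨m, hm⟩ := ENat.ne_top_iff_exists.mp (ne_top_of_lt hcon)
      rw [← hm] at hcon hvp
      rw [fZ9735_coe] at hvp
      have h3 : (l : ℤ) ≤ m := by exact_mod_cast hvp
      have h4 : m < l := by exact_mod_cast hcon
      omega
    obtain ⟨p', hp'⟩ := hdvd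
    refine ⟨p', s, hs0, ?_⟩
    have hXl : algebraMap (MvPolynomial ι ℂ) (KK ι) (X a ^ l) ≠ 0 := by
      intro h
      have := (IsFractionRing.injective (MvPolynomial ι ℂ) (KK ι)) (h.trans (_root_.map_zero _).symm)
      exact pow_ne_zero l hp.ne_zero this
    rw [hs1, hp', _root_.map_mul, _root_.map_mul, mul_div_mul_left _ _ hXl]

end FanoFib.Tor
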