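import Mathlib

/-!
# Smooth Fano varieties and K-semistability, in the classical language of function fields

Smooth proper varieties over the complex numbers are given, in the style of Zariski and Weil, by
a function field `K` together with a finite atlas of affine coordinate rings inside `K`.
Fano varieties, prime divisors over a variety, log discrepancies, volumes, the invariant `S`,
and K-semistability (in its valuative form) are defined in this language.
-/

open MeasureTheory Filter
open scoped ENNReal

namespace FanoFib

/-- The local ring at the centre of the valuation ring `O` on the affine variety with coordinate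
ring `A`, when `A ⊆ O`: all fractions `a / s` with `a, s` in `A` and `s` a unit of `O`. -/
def localRingAt {K : Type} [Field K] [Algebra ℂ K] (A : Subalgebra ℂ K)
    (O : ValuationSubring K) : Set K :=
  {f | ∃ a ∈ A, ∃ s ∈ A, s ≠ 0 ∧ s⁻¹ ∈ O ∧ f = a / s}

/-- The local ring of the affine variety with coordinate ring `A` at the point given by the
prime ideal `p` of `A`. -/
def localRing {K : Type} [Field K] [Algebra ℂ K] (A : Subalgebra ℂ K) (p : Ideal A) : Set K :=
  {f | ∃ a s : A, s ∉ p ∧ f = (a : K) / (s : K)}

/-- A smooth proper (complete) algebraic variety over `ℂ`, in the language of Zariski and Weil.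
It is given by its function field `K` and a finite atlas of affine open subvarieties
`Spec (ring c)`, each of them smooth over `ℂ` with function field `K`.
`separated`: a valuation ring of `K` has at most one centre, so the affine pieces glue to a
separated scheme.  `complete`: every valuation ring of `K` over `ℂ` has a centre (the valuative
criterion of properness).
`frame` is a rational frame of the tangent bundle, that is a `K`-basis `D_1, …, D_n` of the
derivations of `K` over `ℂ`; its size `n` is the dimension of the variety.  Let `ω` be the rational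
`n`-form dual to `D_1 ∧ … ∧ D_n`.  The frame is auxiliary data: it is only used to write a rational
`n`-form as `f ω` with `f` in `K`. -/
structure SmoothProperVariety where
  K : Type
  [fieldK : Field K]
  [algebraK : Algebra ℂ K]
  Idx : Type
  [fintypeIdx : Fintype Idx]
  [decEqIdx : DecidableEq Idx]
  frame : Module.Basis Idx K (Derivation ℂ K K)
  Chart : Type
  [finiteChart : Finite Chart]
  ring : Chart → Subalgebra ℂ K
  fg : ∀ c, (ring c).FG
  frac : ∀ (c : Chart) (f : K), ∃ a ∈ ring c, ∃ b ∈ ring c, b ≠ 0 ∧ f = a / b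
  smooth : ∀ c, Algebra.Smooth ℂ (ring c)
  separated : ∀ (O : ValuationSubring K) (c d : Chart), (∀ a ∈ ring c, a ∈ O) →
    (∀ a ∈ ring d, a ∈ O) → localRingAt (ring c) O = localRingAt (ring d) O
  complete : ∀ O : ValuationSubring K, (∀ z : ℂ, algebraMap ℂ K z ∈ O) →
    ∃ c, ∀ a ∈ ring c, a ∈ O

attribute [instance] SmoothProperVariety.fieldK SmoothProperVariety.algebraK
  SmoothProperVariety.fintypeIdx SmoothProperVariety.decEqIdx SmoothProperVariety.finiteChart

namespace SmoothProperVariety

variable (X : SmoothProperVariety)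

/-- The dimension of `X`. -/
def dim : ℕ := Fintype.card X.Idx

/-- `dt_1 ∧ … ∧ dt_n = jac t · ω`: the coefficient of the `n`-form `dt_1 ∧ … ∧ dt_n`. -/
noncomputable def jac (t : X.Idx → X.K) : X.K := Matrix.det (Matrix.of fun i j => X.frame j (t i))

/-- Global sections of `-m K_X`.  The rational section `f ω^(-m)` is regular on the chart `c` if
and only if `f · ∏ jac (t k)` is in `ring c` for all `m` generators
`jac (t k) ω = dt_{k,1} ∧ … ∧ dt_{k,n}` (with `t_{k,i}` in `ring c`) of the canonical module of
that chart. -/
def antican (m : ℕ) : Submodule ℂ X.K where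
  carrier := {f | ∀ (c : X.Chart) (t : Fin m → X.Idx → X.K), (∀ k i, t k i ∈ X.ring c) →
    f * ∏ k, X.jac (t k) ∈ X.ring c}
  add_mem' := by
    intro f g hf hg c t ht
    rw [add_mul]
    exact add_mem (hf c t ht) (hg c t ht)
  zero_mem' := by
    intro c t ht
    rw [zero_mul]
    exact zero_mem _
  smul_mem' := by
    intro z f hf c t ht
    rw [smul_mul_assoc]
    exact (X.ring c).smul_mem (hf c t ht) z

/-- `-m K_X` is very ample, `m ≥ 1`: there are finitely many nonzero global sections `S` of
`-m K_X` such that around every point `p` of `X` some `s` in `S` does not vanish, and the local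
ring of `X` at `p` is the local ring, at the corresponding point, of the affine variety with
coordinate ring `ℂ[t / s : t ∈ S]`, which is a standard affine piece of the closure of the image
of the map to projective space given by `S`. -/
def VeryAmple (m : ℕ) : Prop :=
  ∃ S : Finset X.K, (∀ s ∈ S, s ≠ 0 ∧ s ∈ X.antican m) ∧
    ∀ (c : X.Chart) (p : Ideal (X.ring c)), p.IsPrime → ∃ s ∈ S,
      (∃ (t : Fin m → X.Idx → X.K) (a : X.ring c), (∀ k i, t k i ∈ X.ring c) ∧ a ∉ p ∧
        s * ∏ k, X.jac (t k) = a) ∧
      (∀ f ∈ Algebra.adjoin ℂ {r : X.K | ∃ t ∈ S, r = t / s}, f ∈ localRing (X.ring c) p) ∧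
      (∀ f ∈ localRing (X.ring c) p, ∃ a ∈ Algebra.adjoin ℂ {r : X.K | ∃ t ∈ S, r = t / s},
        ∃ b ∈ Algebra.adjoin ℂ {r : X.K | ∃ t ∈ S, r = t / s},
          b ≠ 0 ∧ b⁻¹ ∈ localRing (X.ring c) p ∧ f = a / b)

/-- `X` is a Fano variety: the anticanonical bundle is ample (some positive multiple of it is
very ample); in particular `X` is projective. -/
def IsFano : Prop := ∃ m : ℕ, 1 ≤ m ∧ X.VeryAmple m

/-- A prime divisor over `X`, given by its order function `v = ord_E` on the function field: a
discrete valuation of `K`, normalised and trivial on `ℂ`, whose valuation ring is the local ring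
of a point (necessarily of codimension one) of some affine variety with function field `K`. -/
structure DivisorOver where
  v : AddValuation X.K (WithTop ℤ)
  const : ∀ z : ℂ, z ≠ 0 → v (algebraMap ℂ X.K z) = 0
  uniformizer : ∃ π : X.K, v π = 1
  geometric : ∃ B : Subalgebra ℂ X.K, B.FG ∧ (∀ b ∈ B, 0 ≤ v b) ∧
    ∀ f : X.K, 0 ≤ v f → ∃ a ∈ B, ∃ s ∈ B, v s = 0 ∧ f = a / s

variable {X}

namespace DivisorOver

variable (E : X.DivisorOver)

/-- The order along `E` of a local generator of the canonical bundle `K_X` at the centre of `E` on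
`X`, measured with respect to `ω`. -/
noncomputable def ordX : ℤ :=
  sInf {z : ℤ | ∃ (c : X.Chart) (t : X.Idx → X.K), (∀ a ∈ X.ring c, 0 ≤ E.v a) ∧
    (∀ i, t i ∈ X.ring c) ∧ E.v (X.jac t) = (z : WithTop ℤ)}

/-- The order along `E` of a local generator of the canonical bundle of a smooth model on which `E`
is a prime divisor, measured with respect to `ω`. -/
noncomputable def ordE : ℤ :=
  sInf {z : ℤ | ∃ t : X.Idx → X.K, (∀ i, 0 ≤ E.v (t i)) ∧ E.v (X.jac t) = (z : WithTop ℤ)}

/-- The log discrepancy `A_X(E) = 1 + ord_E (K_{X'/X})`. -/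
noncomputable def logDiscrepancy : ℤ := 1 + (E.ordX - E.ordE)

/-- The global sections of `-m K_X` that vanish along `E` to order at least `j`: the section
`f ω^(-m)` has order `v f + m · ordX` along `E`. -/
noncomputable def vanishing (m : ℕ) (j : ℤ) : Submodule ℂ X.K where
  carrier := {f | f ∈ X.antican m ∧ (j : WithTop ℤ) ≤ E.v f + ((m * E.ordX : ℤ) : WithTop ℤ)}
  add_mem' := by
    rintro f g ⟨hf, hf'⟩ ⟨hg, hg'⟩
    refine ⟨add_mem hf hg, ?_⟩
    rcases min_le_iff.1 (E.v.map_add f g) with h | h
    · exact hf'.trans (by gcongr)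
    · exact hg'.trans (by gcongr)
  zero_mem' := ⟨zero_mem _, by simp⟩
  smul_mem' := by
    rintro z f ⟨hf, hf'⟩
    refine ⟨(X.antican m).smul_mem z hf, ?_⟩
    rcases eq_or_ne z 0 with rfl | hz
    · simp
    · rw [Algebra.smul_def, E.v.map_mul, E.const z hz, zero_add]
      exact hf'

/-- The volume `vol (-K_X - t E)`. -/
noncomputable def vol (t : ℝ) : ℝ≥0∞ :=
  limsup (fun m : ℕ => ((Nat.factorial X.dim * Module.finrank ℂ (E.vanishing m ⌈m * t⌉) : ℕ) : ℝ≥0∞)
    / (m : ℝ≥0∞) ^ X.dim) atTop

end DivisorOver

variable (X)

/-- The volume `vol (-K_X)`. -/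
noncomputable def antiVol : ℝ≥0∞ :=
  limsup (fun m : ℕ => ((Nat.factorial X.dim * Module.finrank ℂ (X.antican m) : ℕ) : ℝ≥0∞)
    / (m : ℝ≥0∞) ^ X.dim) atTop

variable {X}

/-- `S_X(E) = vol(-K_X)⁻¹ ∫_0^∞ vol(-K_X - tE) dt`. -/
noncomputable def DivisorOver.S (E : X.DivisorOver) : ℝ≥0∞ :=
  (∫⁻ t in Set.Ioi (0 : ℝ), E.vol t) / X.antiVol

variable (X)

/-- K-semistability in valuative form: `A_X(E) - S_X(E) ≥ 0` for every prime divisor `E` over
`X`. -/
def KSemistable : Prop := ∀ E : X.DivisorOver, E.S ≤ ENNReal.ofReal (E.logDiscrepancy : ℝ)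

end SmoothProperVariety

/-- A smooth morphism `X → Y`, given by the inclusion `pullback` of function fields: every affine
piece of `X` is mapped into an affine piece of `Y` by a smooth homomorphism of coordinate rings. -/
structure SmoothMorphism (X Y : SmoothProperVariety) where
  pullback : Y.K →ₐ[ℂ] X.K
  smooth : ∀ c : X.Chart, ∃ (d : Y.Chart) (h : ∀ b : Y.ring d, pullback b ∈ X.ring c),
    RingHom.Smooth ((pullback.comp (Y.ring d).val).codRestrict (X.ring c) h).toRingHom

end FanoFib
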