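import Mathlib
import Pool.Agent.Helper419.KS.Defs
import Pool.Agent.Helper419.KS.Tor

/-! Affine toric charts given by a unimodular cone. -/

namespace FanoFib.Tor

open MvPolynomial

variable {ι : Type} [Fintype ι] [DecidableEq ι]

/-- A unimodular cone: `r a` are the primitive generators, `b a` the dual basis of exponents. -/
structure Cone (ι : Type) [Fintype ι] [DecidableEq ι] where
  b : ι → ι → ℤ
  r : ι → ι → ℤ
  dual : ∀ a a', ∑ i, r a i * b a' i = if a = a' then 1 else 0

namespace Cone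

variable (σ : Cone ι)

/-- The pairing of a generator with an exponent. -/
def pr (a : ι) (u : ι → ℤ) : ℤ := ∑ i, σ.r a i * u i

lemma pr_add (a : ι) (u w : ι → ℤ) : σ.pr a (u + w) = σ.pr a u + σ.pr a w := by
  simp only [pr, Pi.add_apply, mul_add, Finset.sum_add_distrib]

lemma pr_zero (a : ι) : σ.pr a 0 = 0 := by simp [pr]

lemma pr_neg (a : ι) (u : ι → ℤ) : σ.pr a (-u) = - σ.pr a u := by
  simp [pr]

lemma pr_smul (a : ι) (k : ℤ) (u : ι → ℤ) : σ.pr a (k • u) = k * σ.pr a u := by
  simp only [pr, Pi.smul_apply, smul_eq_mul, Finset.mul_sum]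
  exact Finset.sum_congr rfl fun i _ => by ring

lemma pr_sum {α : Type*} (s : Finset α) (f : α → ι → ℤ) (a : ι) :
    σ.pr a (∑ x ∈ s, f x) = ∑ x ∈ s, σ.pr a (f x) := by
  classical
  induction s using Finset.induction_on with
  | empty => simp [pr_zero]
  | insert x s hx ih => rw [Finset.sum_insert hx, Finset.sum_insert hx, pr_add, ih]

lemma pr_b (a a' : ι) : σ.pr a (σ.b a') = if a = a' then 1 else 0 := σ.dual a a'

/-- The matrices of `r` and of `b` are inverse to each other. -/
lemma mat_mul : (Matrix.of σ.r) * (Matrix.of σ.b).transpose = 1 := by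
  ext a a'
  simp only [Matrix.mul_apply, Matrix.of_apply, Matrix.transpose_apply, Matrix.one_apply]
  exact σ.dual a a'

lemma mat_mul' : (Matrix.of σ.b).transpose * (Matrix.of σ.r) = 1 :=
  mul_eq_one_comm.1 σ.mat_mul

lemma dual' (i j : ι) : ∑ a, σ.b a i * σ.r a j = if i = j then 1 else 0 := by
  have := congrFun (congrFun σ.mat_mul' i) j
  simpa [Matrix.mul_apply, Matrix.one_apply] using this

/-- Expansion of an exponent in the dual basis. -/
lemma expand (u : ι → ℤ) : u = ∑ a, σ.pr a u • σ.b a := by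
  funext i
  simp only [Finset.sum_apply, Pi.smul_apply, smul_eq_mul, pr]
  have h1 : ∀ a, (∑ j, σ.r a j * u j) * σ.b a i = ∑ j, (σ.b a i * σ.r a j) * u j := by
    intro a
    rw [Finset.sum_mul]
    exact Finset.sum_congr rfl fun j _ => by ring
  simp_rw [h1]
  rw [Finset.sum_comm]
  simp_rw [← Finset.sum_mul, σ.dual']
  simp

/-- The sum of the dual basis. -/
def κ : ι → ℤ := ∑ a, σ.b a

lemma pr_κ (a : ι) : σ.pr a σ.κ = 1 := by
  rw [κ, pr_sum]
  simp [pr_b]

lemma det_isUnit : IsUnit (Matrix.det (Matrix.of σ.b)) := by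
  have h := congrArg Matrix.det σ.mat_mul
  rw [Matrix.det_mul, Matrix.det_transpose, Matrix.det_one] at h
  exact IsUnit.of_mul_eq_one_right _ h

/-- The coordinate ring of the chart. -/
noncomputable def ring : Subalgebra ℂ (KK ι) :=
  Algebra.adjoin ℂ (Set.range fun a => mon (σ.b a))

lemma mon_b_mem (a : ι) : mon (σ.b a) ∈ σ.ring := Algebra.subset_adjoin ⟨a, rfl⟩

lemma mon_mem {u : ι → ℤ} (hu : ∀ a, 0 ≤ σ.pr a u) : mon u ∈ σ.ring := by
  rw [σ.expand u, mon_sum]
  refine prod_mem fun a _ => ?_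
  obtain ⟨k, hk⟩ := Int.eq_ofNat_of_zero_le (hu a)
  rw [hk, natCast_zsmul, mon_nsmul]
  exact pow_mem (σ.mon_b_mem a) k

lemma mem_iff (f : KK ι) :
    f ∈ σ.ring ↔ f ∈ Submodule.span ℂ (mon '' {u : ι → ℤ | ∀ a, 0 ≤ σ.pr a u}) := by
  constructor
  · intro hf
    induction hf using Algebra.adjoin_induction with
    | mem x hx =>
      obtain ⟨a, rfl⟩ := hx
      refine Submodule.subset_span ⟨_, fun a' => ?_, rfl⟩
      rw [pr_b]; split_ifs <;> norm_num
    | algebraMap z =>
      rw [Algebra.algebraMap_eq_smul_one]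
      refine Submodule.smul_mem _ _ (Submodule.subset_span ⟨0, fun a' => ?_, mon_zero⟩)
      rw [pr_zero]
    | add x y _ _ hx hy => exact add_mem hx hy
    | mul x y _ _ hx hy =>
      have h := Submodule.mul_mem_mul hx hy
      rw [Submodule.span_mul_span] at h
      refine Submodule.span_mono ?_ h
      rintro _ ⟨_, ⟨u, hu, rfl⟩, _, ⟨w, hw, rfl⟩, rfl⟩
      refine ⟨u + w, fun a => ?_, mon_add u w⟩
      rw [pr_add]; exact add_nonneg (hu a) (hw a)
  · intro hf
    have : Submodule.span ℂ (mon '' {u : ι → ℤ | ∀ a, 0 ≤ σ.pr a u}) ≤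
        Subalgebra.toSubmodule σ.ring := by
      rw [Submodule.span_le]
      rintro _ ⟨u, hu, rfl⟩
      exact σ.mon_mem hu
    exact this hf

lemma ring_fg : σ.ring.FG :=
  ⟨Finset.univ.image fun a => mon (σ.b a), by simp [ring]⟩

/-- Each polynomial becomes regular on the chart after multiplication with a monomial. -/
lemma exists_shift (p : MvPolynomial ι ℂ) :
    ∃ N : ℕ, ∀ M : ℕ, N ≤ M → algebraMap (MvPolynomial ι ℂ) (KK ι) p * mon ((M : ℤ) • σ.κ) ∈ σ.ring := by
  induction p using MvPolynomial.induction_on' with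
  | monomial u c =>
    refine ⟨∑ a, (σ.pr a (fun i => (u i : ℤ))).natAbs, fun M hM => ?_⟩
    have h1 : algebraMap (MvPolynomial ι ℂ) (KK ι) (monomial u c) =
        c • mon (fun i => (u i : ℤ)) := by
      have h2 : monomial u c = c • monomial u (1 : ℂ) := by
        rw [smul_monomial, smul_eq_mul, mul_one]
      rw [h2, Algebra.smul_def, map_mul, ← IsScalarTower.algebraMap_apply, ← Algebra.smul_def,
        mon_natCast (fun i => u i), Finsupp.equivFunOnFinite_symm_coe]
    rw [h1, smul_mul_assoc, ← mon_add]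
    refine σ.ring.smul_mem (σ.mon_mem fun a => ?_) c
    rw [pr_add, pr_smul, pr_κ, mul_one]
    have h3 : (σ.pr a (fun i => (u i : ℤ))).natAbs ≤
        ∑ a, (σ.pr a (fun i => (u i : ℤ))).natAbs :=
      Finset.single_le_sum (f := fun a => (σ.pr a (fun i => (u i : ℤ))).natAbs)
        (fun _ _ => Nat.zero_le _) (Finset.mem_univ a)
    omega
  | add p q hp hq =>
    obtain ⟨N, hN⟩ := hp
    obtain ⟨N', hN'⟩ := hq
    refine ⟨max N N', fun M hM => ?_⟩
    rw [map_add, add_mul]
    exact add_mem (hN M ((le_max_left _ _).trans hM)) (hN' M ((le_max_right _ _).trans hM))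

lemma frac (f : KK ι) : ∃ a ∈ σ.ring, ∃ b ∈ σ.ring, b ≠ 0 ∧ f = a / b := by
  obtain ⟨p, q, hq, rfl⟩ := IsFractionRing.div_surjective (A := MvPolynomial ι ℂ) f
  obtain ⟨N, hN⟩ := σ.exists_shift p
  obtain ⟨N', hN'⟩ := σ.exists_shift q
  refine ⟨_, hN (max N N') (le_max_left _ _), _, hN' (max N N') (le_max_right _ _), ?_, ?_⟩
  · refine mul_ne_zero ?_ (mon_ne_zero _)
    rw [Ne, FaithfulSMul.algebraMap_eq_zero_iff]
    exact nonZeroDivisors.ne_zero hq
  · rw [mul_div_mul_right _ _ (mon_ne_zero _)]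

/-- The chart is an affine space. -/
noncomputable def toRing : MvPolynomial ι ℂ →ₐ[ℂ] KK ι := aeval fun a => mon (σ.b a)

lemma toRing_monomial (u : ι →₀ ℕ) (c : ℂ) :
    σ.toRing (monomial u c) = c • mon (∑ a, (u a : ℤ) • σ.b a) := by
  rw [toRing, aeval_monomial, mon_sum, Algebra.smul_def, Finsupp.prod_fintype _ _ (by simp)]
  congr 1
  exact Finset.prod_congr rfl fun a _ => by rw [natCast_zsmul, mon_nsmul]

lemma toRing_injective : Function.Injective σ.toRing := by
  rw [injective_iff_map_eq_zero]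
  intro p hp
  have hinj : Function.Injective fun u : ι →₀ ℕ => ∑ a, (u a : ℤ) • σ.b a := by
    intro u w h
    ext a
    have := congrArg (σ.pr a) h
    simp only [pr_sum, pr_smul, pr_b, mul_ite, mul_one, mul_zero, Finset.sum_ite_eq,
      Finset.mem_univ, if_true] at this
    exact_mod_cast this
  have hli := linearIndependent_mon (ι := ι).comp _ hinj
  rw [linearIndependent_iff'] at hli
  have h1 : σ.toRing p = ∑ u ∈ p.support, coeff u p • mon (∑ a, (u a : ℤ) • σ.b a) := by
    conv_lhs => rw [p.as_sum]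
    rw [map_sum]
    exact Finset.sum_congr rfl fun u _ => σ.toRing_monomial u _
  rw [h1] at hp
  have h2 := hli p.support (fun u => coeff u p) hp
  ext u
  by_cases hu : u ∈ p.support
  · rw [h2 u hu, coeff_zero]
  · rw [notMem_support_iff.1 hu, coeff_zero]

lemma range_toRing : σ.toRing.range = σ.ring := by
  rw [toRing, ring, ← Algebra.adjoin_range_eq_range_aeval]

/-- The chart ring is a polynomial ring. -/
noncomputable def equivRing : MvPolynomial ι ℂ ≃ₐ[ℂ] σ.ring :=
  (AlgEquiv.ofInjective σ.toRing σ.toRing_injective).trans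
    (Subalgebra.equivOfEq _ _ σ.range_toRing)

lemma smooth : Algebra.Smooth ℂ σ.ring :=
  haveI : Algebra.Smooth ℂ (MvPolynomial ι ℂ) := ⟨inferInstance, inferInstance⟩
  Algebra.Smooth.of_equiv σ.equivRing

end Cone

end FanoFib.Tor
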