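import Mathlib

/-! The cones of the fan of an iterated `P^1`-bundle over a product of projective planes. -/

namespace FanoFib.Tower

variable {I J : Type} [Fintype I] [DecidableEq I] [Fintype J] [DecidableEq J]

/-- The exponent of the homogeneous coordinate ratio `T_{j,k} / T_{j,0}`. -/
def tt (j : J) (k : Fin 3) : I ⊕ J × Fin 2 → ℤ
  | .inl _ => 0
  | .inr p => if p.1 = j ∧ k = p.2.succ then 1 else 0

/-- The primitive generator `ρ_{j,k}` (`k = 0, 1, 2`). -/
def rho (ℓ : J → I → ℤ) (j : J) (k : Fin 3) : I ⊕ J × Fin 2 → ℤ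
  | .inl i => if k = 0 then ℓ j i else 0
  | .inr p => if p.1 = j then (if k = 0 then -1 else if k = p.2.succ then 1 else 0) else 0

/-- The sign of a Boolean. -/
def sg (e : Bool) : ℤ := if e then 1 else -1

/-- The dual basis (exponents of the coordinates) of the cone with signs `ε` and omitted
generators `o`. -/
def bb (ℓ : J → I → ℤ) (ε : I → Bool) (o : J → Fin 3) :
    I ⊕ J × Fin 2 → I ⊕ J × Fin 2 → ℤ
  | .inl i => sg (ε i) • (Pi.single (.inl i) 1 + ∑ j, ℓ j i • tt j (o j))
  | .inr p => tt p.1 ((o p.1).succAbove p.2) - tt p.1 (o p.1)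

/-- The generators of the cone with signs `ε` and omitted generators `o`. -/
def rr (ℓ : J → I → ℤ) (ε : I → Bool) (o : J → Fin 3) :
    I ⊕ J × Fin 2 → I ⊕ J × Fin 2 → ℤ
  | .inl i => sg (ε i) • Pi.single (.inl i) 1
  | .inr p => rho ℓ p.1 ((o p.1).succAbove p.2)

end FanoFib.Tower
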