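import Mathlib
import Pool.Agent.Helper419.KS.Defs
import Pool.Agent.Helper419.KS.Tor
import Pool.Agent.Helper419.KS.TowerDefs

namespace FanoFib.Tower

variable {I J : Type} [Fintype I] [DecidableEq I] [Fintype J] [DecidableEq J]

open FanoFib.Tor

theorem aux_zsmul_mem {V : Type} [AddCommGroup V] {S : AddSubmonoid V} {u : V} (h : u ∈ S)
    (h' : -u ∈ S) (c : ℤ) : c • u ∈ S := by
  obtain ⟨n, rfl | rfl⟩ := c.eq_nat_or_neg
  · rw [natCast_zsmul]; exact nsmul_mem h n
  · rw [neg_smul, natCast_zsmul, ← smul_neg]; exact nsmul_mem h' n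

/-- Every valuation ring has a centre. -/
theorem complete (ℓ : J → I → ℤ) (O : ValuationSubring (KK (I ⊕ J × Fin 2))) :
    ∃ (ε : I → Bool) (o : J → Fin 3), ∀ a, mon (bb ℓ ε o a) ∈ O := by
  classical
  have h1 : ∀ j : J, ∃ o : Fin 3, ∀ k : Fin 3,
      mon (tt (I := I) j k - tt j o) ∈ O := by
    intro j
    obtain ⟨o, ho⟩ := Finite.exists_max (fun k : Fin 3 => O.valuation (mon (tt (I := I) j k)))
    refine ⟨o, fun k => ?_⟩
    rw [← O.valuation_le_one_iff, sub_eq_add_neg, mon_add, mon_neg, map_mul, map_inv₀]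
    have hne : O.valuation (mon (tt (I := I) j o)) ≠ 0 := by
      rw [Valuation.ne_zero_iff]
      exact mon_ne_zero _
    rw [← div_eq_mul_inv]
    exact div_le_one_of_le₀ (ho k) zero_le
  choose o ho using h1
  refine ⟨fun i => decide (mon (Pi.single (Sum.inl i) 1 + ∑ j, ℓ j i • tt j (o j)) ∈ O), o, ?_⟩
  rintro (i | ⟨j, k⟩)
  · show mon (sg (decide (mon (Pi.single (Sum.inl i) 1 + ∑ j, ℓ j i • tt j (o j)) ∈ O)) •
      (Pi.single (Sum.inl i) 1 + ∑ j, ℓ j i • tt j (o j))) ∈ O
    by_cases h : mon (Pi.single (Sum.inl i) 1 + ∑ j, ℓ j i • tt j (o j)) ∈ O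
    · rw [decide_eq_true h]
      have hs : sg true = 1 := rfl
      rw [hs, one_smul]
      exact h
    · rw [decide_eq_false h]
      have h2 := (O.mem_or_inv_mem (mon (Pi.single (Sum.inl i) 1 + ∑ j, ℓ j i • tt j (o j)))).resolve_left h
      rw [← mon_neg] at h2
      have hs : sg false = -1 := rfl
      rw [hs, neg_smul, one_smul]
      exact h2
  · exact ho j _

/-- A valuation ring has only one centre. -/
theorem separated (ℓ : J → I → ℤ) (O : ValuationSubring (KK (I ⊕ J × Fin 2)))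
    (ε ε' : I → Bool) (o o' : J → Fin 3)
    (hc : ∀ a, mon (bb ℓ ε o a) ∈ O) (hd : ∀ a, mon (bb ℓ ε' o' a) ∈ O) (a : I ⊕ J × Fin 2) :
    mon (bb ℓ ε' o' a) ∈
      localRingAt (Algebra.adjoin ℂ (Set.range fun a => mon (bb ℓ ε o a))) O := by
  classical
  set A := Algebra.adjoin ℂ (Set.range fun a => mon (bb ℓ ε o a)) with hA
  have hgen : ∀ a, mon (bb ℓ ε o a) ∈ A := fun a => Algebra.subset_adjoin ⟨a, rfl⟩
  have hAL : ∀ x ∈ A, x ∈ localRingAt A O := fun x hx =>
    ⟨x, hx, 1, one_mem _, one_ne_zero, by rw [inv_one]; exact one_mem _, by rw [div_one]⟩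
  let M : AddSubmonoid (I ⊕ J × Fin 2 → ℤ) :=
    { carrier := {u | mon u ∈ localRingAt A O}
      zero_mem' := by
        show mon 0 ∈ localRingAt A O
        rw [mon_zero]
        exact hAL 1 (one_mem _)
      add_mem' := by
        rintro u w ⟨a, ha, s, hs, hs0, hsO, e⟩ ⟨a', ha', s', hs', hs0', hsO', e'⟩
        refine ⟨a * a', mul_mem ha ha', s * s', mul_mem hs hs', mul_ne_zero hs0 hs0', ?_, ?_⟩
        · rw [mul_inv]
          exact mul_mem hsO hsO'
        · rw [mon_add, e, e', div_mul_div_comm] }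
  let N : AddSubmonoid (I ⊕ J × Fin 2 → ℤ) :=
    { carrier := {u | mon u ∈ O}
      zero_mem' := by
        show mon 0 ∈ O
        rw [mon_zero]
        exact one_mem _
      add_mem' := by
        intro u w hu hw
        show mon (u + w) ∈ O
        rw [mon_add]
        exact mul_mem hu hw }
  have hgM : ∀ a, bb ℓ ε o a ∈ M := fun a => hAL _ (hgen a)
  have hinv : ∀ u, mon u ∈ A → -u ∈ N → -u ∈ M := by
    intro u hu hu'
    have hu'' : mon (-u) ∈ O := hu'
    rw [mon_neg] at hu''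
    refine ⟨1, one_mem _, mon u, hu, mon_ne_zero u, hu'', ?_⟩
    rw [mon_neg, one_div]
  have hcN : ∀ a, bb ℓ ε o a ∈ N := hc
  have hdN : ∀ a, bb ℓ ε' o' a ∈ N := hd
  -- the units
  have hu : ∀ j : J, (tt (I := I) j (o' j) - tt j (o j) ∈ M ∧ -(tt (I := I) j (o' j) - tt j (o j)) ∈ M) ∧
      (tt (I := I) j (o' j) - tt j (o j) ∈ N ∧ -(tt (I := I) j (o' j) - tt j (o j)) ∈ N) := by
    intro j
    by_cases h : o' j = o j
    · rw [h, sub_self, neg_zero]
      exact ⟨⟨zero_mem _, zero_mem _⟩, ⟨zero_mem _, zero_mem _⟩⟩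
    · obtain ⟨k1, hk1⟩ := Fin.exists_succAbove_eq h
      obtain ⟨k2, hk2⟩ := Fin.exists_succAbove_eq (Ne.symm h)
      have e1 : tt (I := I) j (o' j) - tt j (o j) = bb ℓ ε o (Sum.inr (j, k1)) := by
        show _ = tt j ((o j).succAbove k1) - tt j (o j)
        rw [hk1]
      have e2 : -(tt (I := I) j (o' j) - tt j (o j)) = bb ℓ ε' o' (Sum.inr (j, k2)) := by
        show _ = tt j ((o' j).succAbove k2) - tt j (o' j)
        rw [hk2, neg_sub]
      have n2 : -(tt (I := I) j (o' j) - tt j (o j)) ∈ N := by rw [e2]; exact hdN _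
      refine ⟨⟨by rw [e1]; exact hgM _, hinv _ ?_ n2⟩, by rw [e1]; exact hcN _, n2⟩
      rw [e1]
      exact hgen _
  show bb ℓ ε' o' a ∈ M
  rcases a with i | ⟨j, k⟩
  · set Y : I ⊕ J × Fin 2 → ℤ := Pi.single (Sum.inl i) 1 + ∑ j, ℓ j i • tt j (o j) with hY
    set w : I ⊕ J × Fin 2 → ℤ := ∑ j, ℓ j i • (tt (I := I) j (o' j) - tt j (o j)) with hw
    have hY' : (Pi.single (Sum.inl i) 1 + ∑ j, ℓ j i • tt j (o' j) : I ⊕ J × Fin 2 → ℤ) = Y + w := by
      rw [hY, hw, add_assoc, ← Finset.sum_add_distrib]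
      congr 1
      apply Finset.sum_congr rfl
      intro j _
      rw [smul_sub]
      abel
    have hwM : ∀ c : ℤ, c • w ∈ M := by
      intro c
      rw [hw, Finset.smul_sum]
      apply sum_mem
      intro j _
      rw [smul_smul]
      exact aux_zsmul_mem (hu j).1.1 (hu j).1.2 _
    have hwN : ∀ c : ℤ, c • w ∈ N := by
      intro c
      rw [hw, Finset.smul_sum]
      apply sum_mem
      intro j _
      rw [smul_smul]
      exact aux_zsmul_mem (hu j).2.1 (hu j).2.2 _
    have hbY : bb ℓ ε o (Sum.inl i) = sg (ε i) • Y := rfl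
    have hbY' : bb ℓ ε' o' (Sum.inl i) = sg (ε' i) • (Y + w) := by
      rw [← hY']
      rfl
    have key : sg (ε' i) • Y ∈ M := by
      by_cases he : ε' i = ε i
      · rw [he, ← hbY]
        exact hgM _
      · have hs : sg (ε' i) = - sg (ε i) := by
          cases h1 : ε' i <;> cases h2 : ε i <;> simp_all [sg]
        rw [hs, neg_smul]
        apply hinv
        · rw [← hbY]
          exact hgen _
        · have h3 : bb ℓ ε' o' (Sum.inl i) + (-(sg (ε' i))) • w ∈ N := add_mem (hdN _) (hwN _)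
          have h4 : bb ℓ ε' o' (Sum.inl i) + (-(sg (ε' i))) • w = -(sg (ε i) • Y) := by
            rw [hbY', hs, smul_add, neg_neg, neg_smul, neg_smul]
            abel
          rwa [h4] at h3
    rw [hbY', smul_add]
    exact add_mem key (hwM _)
  · have e : bb ℓ ε' o' (Sum.inr (j, k)) =
        (tt j ((o' j).succAbove k) - tt j (o j)) + -(tt (I := I) j (o' j) - tt j (o j)) := by
      show tt j ((o' j).succAbove k) - tt j (o' j) = _
      abel
    rw [e]
    apply add_mem _ (hu j).1.2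
    by_cases h : (o' j).succAbove k = o j
    · rw [h, sub_self]
      exact zero_mem _
    · obtain ⟨k3, hk3⟩ := Fin.exists_succAbove_eq h
      have e1 : tt (I := I) j ((o' j).succAbove k) - tt j (o j) = bb ℓ ε o (Sum.inr (j, k3)) := by
        show _ = tt j ((o j).succAbove k3) - tt j (o j)
        rw [hk3]
      rw [e1]
      exact hgM _

end FanoFib.Tower
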