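import Mathlib
import Pool.Agent.Helper419.KS.Comb
import Pool.Agent.Helper419.KS.TowerDefs

namespace FanoFib.Tower

variable {I J : Type} [Fintype I] [DecidableEq I] [Fintype J] [DecidableEq J]

theorem j9820_fin (k k2 : Fin 3) :
    (∑ m : Fin 2, (if k = 0 then (-1 : ℤ) else if k = m.succ then 1 else 0) *
      (if k2 = m.succ then 1 else 0)) = (if k = k2 then 1 else 0) - (if k = 0 then 1 else 0) := by
  revert k k2
  decide

theorem j9820_K1 (ℓ : J → I → ℤ) (j j2 : J) (k k2 : Fin 3) :
    ∑ p, rho ℓ j k p * tt j2 k2 p =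
      if j = j2 then ((if k = k2 then 1 else 0) - (if k = 0 then 1 else 0)) else 0 := by
  rw [Fintype.sum_sum_type, Fintype.sum_prod_type]
  have h1 : ∑ i : I, rho ℓ j k (Sum.inl i) * tt j2 k2 (Sum.inl i) = 0 :=
    Finset.sum_eq_zero (fun i _ => by simp [tt])
  rw [h1, zero_add, Finset.sum_eq_single j]
  · by_cases hj : j = j2
    · subst hj
      rw [if_pos rfl, ← j9820_fin k k2]
      apply Finset.sum_congr rfl
      intro m _
      simp [rho, tt]
    · rw [if_neg hj]
      apply Finset.sum_eq_zero
      intro m _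
      simp [tt, hj]
  · intro b _ hb
    apply Finset.sum_eq_zero
    intro m _
    simp [rho, hb]
  · intro h
    exact absurd (Finset.mem_univ _) h

theorem j9820_K2 (ℓ : J → I → ℤ) (j : J) (k : Fin 3) (i : I) :
    ∑ p, rho ℓ j k p * (Pi.single (Sum.inl i) 1 : I ⊕ J × Fin 2 → ℤ) p = if k = 0 then ℓ j i else 0 := by
  rw [Finset.sum_eq_single (Sum.inl i)]
  · simp [rho]
  · intro b _ hb
    simp [hb]
  · intro h
    exact absurd (Finset.mem_univ _) h

theorem j9820_sg (e : Bool) : sg e * sg e = 1 := by
  cases e <;> simp [sg]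

/-- The two systems are dual to each other. -/
theorem dual (ℓ : J → I → ℤ) (ε : I → Bool) (o : J → Fin 3) (a a' : I ⊕ J × Fin 2) :
    ∑ p, rr ℓ ε o a p * bb ℓ ε o a' p = if a = a' then 1 else 0 := by
  rcases a with i | ⟨j, m⟩
  · -- the generator `sg (ε i) • single (inl i)`
    have h1 : ∑ p, rr ℓ ε o (Sum.inl i) p * bb ℓ ε o a' p = sg (ε i) * bb ℓ ε o a' (Sum.inl i) := by
      rw [Finset.sum_eq_single (Sum.inl i)]
      · simp [rr]
      · intro b _ hb
        simp [rr, hb]
      · intro h
        exact absurd (Finset.mem_univ _) h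
    rw [h1]
    rcases a' with i' | p
    · have h2 : bb ℓ ε o (Sum.inl i') (Sum.inl i) = sg (ε i') * (if i = i' then 1 else 0) := by
        simp only [bb, Pi.smul_apply, Pi.add_apply, Finset.sum_apply, smul_eq_mul]
        congr 1
        have h3 : ∑ c : J, ℓ c i' * (tt c (o c) : I ⊕ J × Fin 2 → ℤ) (Sum.inl i) = 0 :=
          Finset.sum_eq_zero (fun c _ => by simp [tt])
        rw [h3, add_zero, Pi.single_apply]
        simp
      rw [h2]
      by_cases h : i = i'
      · subst h
        simp [j9820_sg]
      · simp [h]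
    · simp [bb, tt]
  · rcases a' with i' | ⟨j', m'⟩
    · have h1 : ∑ p, rr ℓ ε o (Sum.inr (j, m)) p * bb ℓ ε o (Sum.inl i') p =
          sg (ε i') * (∑ p, rho ℓ j ((o j).succAbove m) p * (Pi.single (Sum.inl i') 1 : I ⊕ J × Fin 2 → ℤ) p +
            ∑ c, ℓ c i' * ∑ p, rho ℓ j ((o j).succAbove m) p * tt c (o c) p) := by
        simp only [rr, bb, Pi.smul_apply, Pi.add_apply, Finset.sum_apply, smul_eq_mul]
        rw [mul_add, Finset.mul_sum, Finset.mul_sum]
        simp only [Finset.mul_sum]
        rw [Finset.sum_comm (s := (Finset.univ : Finset J)), ← Finset.sum_add_distrib]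
        apply Finset.sum_congr rfl
        intro p _
        rw [mul_add, mul_add, Finset.mul_sum, Finset.mul_sum]
        congr 1
        · ring
        · apply Finset.sum_congr rfl
          intro c _
          ring
      rw [h1, j9820_K2]
      have h2 : ∑ c, ℓ c i' * ∑ p, rho ℓ j ((o j).succAbove m) p * (tt c (o c) : I ⊕ J × Fin 2 → ℤ) p =
          ℓ j i' * (- (if (o j).succAbove m = 0 then 1 else 0)) := by
        rw [Finset.sum_eq_single j]
        · rw [j9820_K1, if_pos rfl, if_neg (Fin.succAbove_ne _ _), zero_sub]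
        · intro c _ hc
          rw [j9820_K1, if_neg (Ne.symm hc), mul_zero]
        · intro h
          exact absurd (Finset.mem_univ _) h
      rw [h2]
      by_cases h : (o j).succAbove m = 0
      · simp [h]
      · simp [h]
    · have h1 : ∑ p, rr ℓ ε o (Sum.inr (j, m)) p * bb ℓ ε o (Sum.inr (j', m')) p =
          ∑ p, rho ℓ j ((o j).succAbove m) p * tt j' ((o j').succAbove m') p -
          ∑ p, rho ℓ j ((o j).succAbove m) p * tt j' (o j') p := by
        rw [← Finset.sum_sub_distrib]
        apply Finset.sum_congr rfl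
        intro p _
        simp only [rr, bb, Pi.sub_apply]
        ring
      rw [h1, j9820_K1, j9820_K1]
      by_cases hj : j = j'
      · subst hj
        rw [if_pos rfl, if_pos rfl, if_neg (Fin.succAbove_ne (o j) m)]
        have h3 : ((o j).succAbove m = (o j).succAbove m') ↔ m = m' := Fin.succAbove_right_inj
        simp [h3]
      · rw [if_neg hj, if_neg hj]
        simp [hj]

end FanoFib.Tower
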