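import Mathlib
import Pool.Agent.Helper419.KS.Defs
import Pool.Agent.Helper419.KS.Tor
import Pool.Agent.Helper419.KS.Chart

/-! Jacobians on toric charts, and the variety of a fan. -/

namespace FanoFib.Tor

open MvPolynomial

variable {ι : Type} [Fintype ι] [DecidableEq ι]

/-- The Jacobian with respect to the logarithmic frame. -/
noncomputable def tjac (t : ι → KK ι) : KK ι := Matrix.det (Matrix.of fun i j => frame j (t i))

namespace Cone

variable (σ : Cone ι)

/-- The logarithmic vector field of the generator `a`. -/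
noncomputable def θ (a : ι) : Derivation ℂ (KK ι) (KK ι) := ∑ j, ((σ.r a j : ℤ) : KK ι) • frame j

lemma θ_apply (a : ι) (f : KK ι) : σ.θ a f = ∑ j, ((σ.r a j : ℤ) : KK ι) * frame j f := by
  rw [θ]
  have : ∀ s : Finset ι, (∑ j ∈ s, ((σ.r a j : ℤ) : KK ι) • frame j :
      Derivation ℂ (KK ι) (KK ι)) f = ∑ j ∈ s, ((σ.r a j : ℤ) : KK ι) * frame j f := by
    intro s
    induction s using Finset.induction_on with
    | empty => simp
    | insert x s hx ih =>
      rw [Finset.sum_insert hx, Finset.sum_insert hx, Derivation.add_apply, ih,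
        Derivation.smul_apply, smul_eq_mul]
  exact this _

lemma θ_mon (a : ι) (u : ι → ℤ) : σ.θ a (mon u) = ((σ.pr a u : ℤ) : KK ι) * mon u := by
  rw [θ_apply]
  simp_rw [frame_mon, ← mul_assoc]
  rw [← Finset.sum_mul, pr]
  push_cast
  rfl

lemma frame_eq (j : ι) (f : KK ι) :
    frame j f = ∑ a, ((σ.b a j : ℤ) : KK ι) * σ.θ a f := by
  simp_rw [θ_apply, Finset.mul_sum]
  rw [Finset.sum_comm]
  simp_rw [← mul_assoc, ← Finset.sum_mul]
  have : ∀ j', ∑ a, ((σ.b a j : ℤ) : KK ι) * ((σ.r a j' : ℤ) : KK ι) = if j = j' then 1 else 0 := by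
    intro j'
    have := congrArg (Int.cast : ℤ → KK ι) (σ.dual' j j')
    push_cast at this
    exact this
  simp_rw [this]
  simp

lemma θ_mem (a : ι) {f : KK ι} (hf : f ∈ σ.ring) :
    ∃ q ∈ σ.ring, σ.θ a f = mon (σ.b a) * q := by
  rw [mem_iff] at hf
  induction hf using Submodule.span_induction with
  | mem x hx =>
    obtain ⟨u, hu, rfl⟩ := hx
    rw [θ_mon]
    rcases eq_or_lt_of_le (hu a) with h | h
    · refine ⟨0, zero_mem _, ?_⟩
      rw [← h]; simp
    · refine ⟨((σ.pr a u : ℤ) : KK ι) * mon (u - σ.b a), ?_, ?_⟩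
      · refine mul_mem (intCast_mem _ _) (σ.mon_mem fun a' => ?_)
        rw [sub_eq_add_neg, pr_add, pr_neg, pr_b]
        split_ifs with h'
        · subst h'; omega
        · have := hu a'; omega
      · rw [mon_sub]
        field_simp [mon_ne_zero]
  | zero => exact ⟨0, zero_mem _, by simp⟩
  | add x y _ _ hx hy =>
    obtain ⟨q, hq, h1⟩ := hx
    obtain ⟨q', hq', h2⟩ := hy
    exact ⟨q + q', add_mem hq hq', by rw [map_add, h1, h2, mul_add]⟩
  | smul z x _ hx =>
    obtain ⟨q, hq, h1⟩ := hx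
    exact ⟨z • q, σ.ring.smul_mem hq z, by rw [Derivation.map_smul, h1, mul_smul_comm]⟩

lemma det_mem {A : Subalgebra ℂ (KK ι)} (M : Matrix ι ι (KK ι)) (hM : ∀ i j, M i j ∈ A) :
    M.det ∈ A := by
  rw [Matrix.det_apply]
  refine sum_mem fun s _ => ?_
  have h : ∏ i, M (s i) i ∈ A := prod_mem fun i _ => hM _ _
  rcases Int.units_eq_one_or (Equiv.Perm.sign s) with h' | h' <;> rw [h'] <;> simpa using h

/-- Jacobians of regular functions are multiples of the product of the coordinates. -/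
lemma tjac_mem (t : ι → KK ι) (ht : ∀ i, t i ∈ σ.ring) :
    ∃ q ∈ σ.ring, tjac t = mon σ.κ * q := by
  choose q hq hθ using fun i a => σ.θ_mem a (ht i)
  have h1 : (Matrix.of fun i j => frame j (t i)) =
      (Matrix.of fun i a => mon (σ.b a) * q i a) *
        (Matrix.of σ.b).map (Int.cast : ℤ → KK ι) := by
    ext i j
    rw [Matrix.mul_apply, Matrix.of_apply, σ.frame_eq]
    refine Finset.sum_congr rfl fun a _ => ?_
    rw [Matrix.of_apply, Matrix.map_apply, Matrix.of_apply, hθ, mul_comm]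
  refine ⟨(Matrix.of q).det * ((Matrix.of σ.b).map (Int.cast : ℤ → KK ι)).det, ?_, ?_⟩
  · refine mul_mem (det_mem _ fun i j => hq i j) (det_mem _ fun i j => ?_)
    rw [Matrix.map_apply]
    exact intCast_mem _ _
  · rw [tjac, h1, Matrix.det_mul, ← mul_assoc, κ, mon_sum]
    congr 1
    have := Matrix.det_mul_row (fun a => mon (σ.b a)) (Matrix.of q)
    simpa using this

lemma tjac_b : tjac (fun a => mon (σ.b a)) =
    ((Matrix.det (Matrix.of σ.b) : ℤ) : KK ι) * mon σ.κ := by
  have h1 : (Matrix.of fun i j => frame j (mon (σ.b i))) =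
      Matrix.of fun i j => mon (σ.b i) * (Matrix.of σ.b).map (Int.cast : ℤ → KK ι) i j := by
    ext i j
    rw [Matrix.of_apply, Matrix.of_apply, Matrix.map_apply, Matrix.of_apply, frame_mon, mul_comm]
  rw [tjac, h1, Matrix.det_mul_column, κ, mon_sum, mul_comm]
  congr 1
  exact (RingHom.map_det (Int.castRingHom (KK ι)) (Matrix.of σ.b)).symm

end Cone

variable (ι) in
/-- A complete unimodular fan, given by its maximal cones. -/
structure Fan where
  C : Type
  [fin : Finite C]
  cone : C → Cone ι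
  separated : ∀ (O : ValuationSubring (KK ι)) (c d : C), (∀ a ∈ (cone c).ring, a ∈ O) →
    (∀ a ∈ (cone d).ring, a ∈ O) → ∀ a, mon ((cone d).b a) ∈ localRingAt (cone c).ring O
  complete : ∀ O : ValuationSubring (KK ι), (∀ z : ℂ, algebraMap ℂ (KK ι) z ∈ O) →
    ∃ c, ∀ a, mon ((cone c).b a) ∈ O

attribute [instance] Fan.fin

/-- The local ring as a subalgebra. -/
noncomputable def localSub {K : Type} [Field K] [Algebra ℂ K] (A : Subalgebra ℂ K)
    (O : ValuationSubring K) : Subalgebra ℂ K where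
  carrier := localRingAt A O
  mul_mem' := by
    rintro _ _ ⟨a, ha, s, hs, hs0, hsO, rfl⟩ ⟨b, hb, r, hr, hr0, hrO, rfl⟩
    refine ⟨a * b, mul_mem ha hb, s * r, mul_mem hs hr, mul_ne_zero hs0 hr0, ?_, ?_⟩
    · rw [mul_inv]; exact mul_mem hsO hrO
    · rw [div_mul_div_comm]
  add_mem' := by
    rintro _ _ ⟨a, ha, s, hs, hs0, hsO, rfl⟩ ⟨b, hb, r, hr, hr0, hrO, rfl⟩
    refine ⟨a * r + s * b, add_mem (mul_mem ha hr) (mul_mem hs hb), s * r, mul_mem hs hr,
      mul_ne_zero hs0 hr0, ?_, ?_⟩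
    · rw [mul_inv]; exact mul_mem hsO hrO
    · rw [div_add_div _ _ hs0 hr0]
  algebraMap_mem' z := ⟨algebraMap ℂ K z, A.algebraMap_mem z, 1, one_mem _, one_ne_zero,
    by rw [inv_one]; exact one_mem _, by rw [div_one]⟩

lemma mem_localSub {K : Type} [Field K] [Algebra ℂ K] (A : Subalgebra ℂ K)
    (O : ValuationSubring K) (f : K) : f ∈ localSub A O ↔ f ∈ localRingAt A O := Iff.rfl

namespace Fan

variable (F : Fan ι)

lemma localRing_le (O : ValuationSubring (KK ι)) (c d : F.C)
    (hc : ∀ a ∈ (F.cone c).ring, a ∈ O) (hd : ∀ a ∈ (F.cone d).ring, a ∈ O) :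
    localRingAt (F.cone d).ring O ⊆ localRingAt (F.cone c).ring O := by
  have h1 : (F.cone d).ring ≤ localSub (F.cone c).ring O := by
    rw [Cone.ring, Algebra.adjoin_le_iff]
    rintro _ ⟨a, rfl⟩
    exact F.separated O c d hc hd a
  rintro _ ⟨a, ha, s, hs, hs0, hsO, rfl⟩
  rw [div_eq_mul_inv]
  refine (localSub (F.cone c).ring O).mul_mem (h1 ha) ?_
  obtain ⟨b, hb, r, hr, hr0, hrO, hbr⟩ := h1 hs
  have hb0 : b ≠ 0 := by
    rintro rfl
    rw [zero_div] at hbr
    exact hs0 hbr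
  refine ⟨r, hr, b, hb, hb0, ?_, ?_⟩
  · have : b⁻¹ = s⁻¹ * r⁻¹ := by
      rw [hbr]; field_simp
    rw [this]
    exact mul_mem hsO hrO
  · rw [hbr, inv_div]

/-- The smooth proper variety of a fan. -/
noncomputable abbrev variety : SmoothProperVariety where
  K := KK ι
  Idx := ι
  frame := frame
  Chart := F.C
  ring c := (F.cone c).ring
  fg c := (F.cone c).ring_fg
  frac c := (F.cone c).frac
  smooth c := (F.cone c).smooth
  separated O c d hc hd := Set.Subset.antisymm (F.localRing_le O d c hd hc)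
    (F.localRing_le O c d hc hd)
  complete O hO := by
    obtain ⟨c, hc⟩ := F.complete O hO
    refine ⟨c, fun a ha => ?_⟩
    let A : Subalgebra ℂ (KK ι) :=
      { O.toSubring with
        algebraMap_mem' := hO }
    have h1 : (F.cone c).ring ≤ A := by
      rw [Cone.ring, Algebra.adjoin_le_iff]
      rintro _ ⟨a, rfl⟩
      exact hc a
    exact h1 ha

lemma mem_antican_iff (m : ℕ) (f : KK ι) : f ∈ F.variety.antican m ↔
    ∀ (c : F.C) (t : Fin m → ι → KK ι), (∀ k i, t k i ∈ (F.cone c).ring) →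
      f * ∏ k, tjac (t k) ∈ (F.cone c).ring := Iff.rfl

/-- The exponents of the global sections of `-m K`. -/
def pts (m : ℕ) : Set (ι → ℤ) := {u | ∀ c a, -(m : ℤ) ≤ (F.cone c).pr a u}

lemma mon_mem_antican {m : ℕ} {u : ι → ℤ} (hu : u ∈ F.pts m) : mon u ∈ F.variety.antican m := by
  rw [mem_antican_iff]
  intro c t ht
  choose q hq hjac using fun k => (F.cone c).tjac_mem (t k) (ht k)
  have h1 : ∏ k, tjac (t k) = mon ((m : ℤ) • (F.cone c).κ) * ∏ k, q k := by
    rw [natCast_zsmul, mon_nsmul]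
    rw [Finset.prod_congr rfl fun k _ => hjac k]
    rw [Finset.prod_mul_distrib, Finset.prod_const, Finset.card_univ, Fintype.card_fin]
  rw [h1, ← mul_assoc, ← mon_add]
  refine mul_mem ((F.cone c).mon_mem fun a => ?_) (prod_mem fun k _ => hq k)
  rw [Cone.pr_add, Cone.pr_smul, Cone.pr_κ, mul_one]
  have := hu c a
  omega

lemma antican_chart {m : ℕ} {f : KK ι} (hf : f ∈ F.variety.antican m) (c : F.C) :
    f ∈ Submodule.span ℂ (mon '' {u : ι → ℤ | ∀ a, -(m : ℤ) ≤ (F.cone c).pr a u}) := by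
  rw [mem_antican_iff] at hf
  have h1 := hf c (fun _ a => mon ((F.cone c).b a)) fun _ a => (F.cone c).mon_b_mem a
  rw [Finset.prod_const, Finset.card_univ, Fintype.card_fin, Cone.tjac_b, mul_pow] at h1
  obtain ⟨z, hz, hz'⟩ : ∃ z : ℤ, z ≠ 0 ∧ z = Matrix.det (Matrix.of (F.cone c).b) :=
    ⟨_, (F.cone c).det_isUnit.ne_zero, rfl⟩
  rw [← hz', ← mon_nsmul] at h1
  have h2 : f * mon (m • (F.cone c).κ) ∈ (F.cone c).ring := by
    have h3 := (F.cone c).ring.smul_mem h1 (((z : ℂ) ^ m)⁻¹)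
    have hz2 : ((z : ℂ) ^ m) ≠ 0 := pow_ne_zero _ (Int.cast_ne_zero.2 hz)
    have h4 : ((z : ℂ) ^ m)⁻¹ • (f * (((z : ℤ) : KK ι) ^ m * mon (m • (F.cone c).κ))) =
        f * mon (m • (F.cone c).κ) := by
      have h5 : (((z : ℤ) : KK ι) ^ m) = algebraMap ℂ (KK ι) ((z : ℂ) ^ m) := by simp
      rw [h5, ← Algebra.smul_def, mul_smul_comm, smul_smul, inv_mul_cancel₀ hz2, one_smul]
    rwa [← h4]
  rw [Cone.mem_iff] at h2
  have h6 : f = (f * mon (m • (F.cone c).κ)) * mon (-(m • (F.cone c).κ)) := by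
    rw [mul_assoc, ← mon_add, add_neg_cancel, mon_zero, mul_one]
  rw [h6]
  have h7 : ∀ g ∈ Submodule.span ℂ (mon '' {u : ι → ℤ | ∀ a, 0 ≤ (F.cone c).pr a u}),
      g * mon (-(m • (F.cone c).κ)) ∈
        Submodule.span ℂ (mon '' {u : ι → ℤ | ∀ a, -(m : ℤ) ≤ (F.cone c).pr a u}) := by
    intro g hg
    induction hg using Submodule.span_induction with
    | mem x hx =>
      obtain ⟨u, hu, rfl⟩ := hx
      rw [← mon_add]
      refine Submodule.subset_span ⟨_, fun a => ?_, rfl⟩
      rw [← natCast_zsmul, Cone.pr_add, Cone.pr_neg, Cone.pr_smul, Cone.pr_κ, mul_one]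
      have := hu a
      omega
    | zero => rw [zero_mul]; exact zero_mem _
    | add x y _ _ hx hy => rw [add_mul]; exact add_mem hx hy
    | smul z x _ hx => rw [smul_mul_assoc]; exact Submodule.smul_mem _ _ hx
  exact h7 _ h2

/-- Spans of sets of monomials intersect in the span of the intersection. -/
lemma span_inter {α : Type*} [Nonempty α] (S : α → Set (ι → ℤ)) {f : KK ι}
    (hf : ∀ x, f ∈ Submodule.span ℂ (mon '' S x)) :
    f ∈ Submodule.span ℂ (mon '' {u | ∀ x, u ∈ S x}) := by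
  have h1 : ∀ x, ∃ l ∈ Finsupp.supported ℂ ℂ (S x), Finsupp.linearCombination ℂ mon l = f := by
    intro x
    have := hf x
    rw [Finsupp.span_image_eq_map_linearCombination] at this
    exact this
  choose l hl hlf using h1
  obtain ⟨x0⟩ := ‹Nonempty α›
  have h2 : ∀ x, l x = l x0 := fun x =>
    linearIndependent_mon ((hlf x).trans (hlf x0).symm)
  rw [Finsupp.span_image_eq_map_linearCombination]
  refine ⟨l x0, ?_, hlf x0⟩
  rw [SetLike.mem_coe, Finsupp.mem_supported]
  intro u hu x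
  have := hl x
  rw [Finsupp.mem_supported, h2 x] at this
  exact this hu

lemma antican_eq [Nonempty F.C] (m : ℕ) :
    F.variety.antican m = Submodule.span ℂ (mon '' F.pts m) := by
  apply le_antisymm
  · intro f hf
    exact span_inter (fun c => {u : ι → ℤ | ∀ a, -(m : ℤ) ≤ (F.cone c).pr a u})
      (fun c => F.antican_chart hf c)
  · rw [Submodule.span_le]
    rintro _ ⟨u, hu, rfl⟩
    exact F.mon_mem_antican hu

end Fan

end FanoFib.Tor
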