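import Mathlib

namespace FanoFib.Val

variable {K : Type} [Field K] [Algebra ℂ K] {ι : Type} [Fintype ι] [DecidableEq ι]

/-- Derivations are bounded on the valuation ring of a valuation whose ring is a localisation of a
finitely generated algebra. -/
theorem exists_bound (D : ι → Derivation ℂ K K) (v : AddValuation K (WithTop ℤ))
    (hconst : ∀ z : ℂ, z ≠ 0 → v (algebraMap ℂ K z) = 0)
    (B : Subalgebra ℂ K) (hfg : B.FG) (hB : ∀ b ∈ B, 0 ≤ v b)
    (hfrac : ∀ f : K, 0 ≤ v f → ∃ a ∈ B, ∃ s ∈ B, v s = 0 ∧ f = a / s) :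
    ∃ μ : ℤ, ∀ f : K, 0 ≤ v f → ∀ j, (μ : WithTop ℤ) ≤ v (D j f) := by
  classical
  obtain ⟨S, hS⟩ := hfg
  have hm : ∀ (b : K) (j : ι), ∃ m : ℤ, (m : WithTop ℤ) ≤ v (D j b) := by
    intro b j
    induction v (D j b) using WithTop.recTopCoe with
    | top => exact ⟨0, le_top⟩
    | coe x => exact ⟨x, le_rfl⟩
  choose m hm using hm
  obtain ⟨μ', hμ'⟩ := Finset.exists_le
    ((S ×ˢ (Finset.univ : Finset ι)).image fun p => -m p.1 p.2)
  obtain ⟨μ, rfl⟩ : ∃ μ : ℤ, μ' = -μ := ⟨-μ', by ring⟩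
  have hSμ : ∀ b ∈ S, ∀ j, (μ : WithTop ℤ) ≤ v (D j b) := by
    intro b hb j
    have h1 : -m b j ≤ -μ := hμ' _ (Finset.mem_image.2 ⟨(b, j),
      Finset.mem_product.2 ⟨hb, Finset.mem_univ _⟩, rfl⟩)
    have h1 : μ ≤ m b j := by linarith
    exact (WithTop.coe_le_coe.2 h1).trans (hm b j)
  have hBμ : ∀ b ∈ B, ∀ j, (μ : WithTop ℤ) ≤ v (D j b) := by
    intro b hb j
    rw [← hS] at hb
    induction hb using Algebra.adjoin_induction with
    | mem x hx => exact hSμ x hx j
    | algebraMap r =>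
      rw [Derivation.map_algebraMap, AddValuation.map_zero]
      exact le_top
    | add x y hx hy h1 h2 =>
      rw [map_add]
      exact v.map_le_add h1 h2
    | mul x y hx hy h1 h2 =>
      rw [hS] at hx hy
      rw [Derivation.leibniz, smul_eq_mul, smul_eq_mul]
      refine v.map_le_add ?_ ?_
      · rw [AddValuation.map_mul]
        calc (μ : WithTop ℤ) = 0 + μ := (zero_add _).symm
          _ ≤ _ := add_le_add (hB x hx) h2
      · rw [AddValuation.map_mul]
        calc (μ : WithTop ℤ) = 0 + μ := (zero_add _).symm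
          _ ≤ _ := add_le_add (hB y hy) h1
  refine ⟨μ, fun f hf j => ?_⟩
  obtain ⟨a, ha, s, hs, hvs, e⟩ := hfrac f hf
  have hs0 : s ≠ 0 := by
    rintro rfl
    rw [AddValuation.map_zero] at hvs
    exact absurd hvs (by simp)
  have e1 : f * s = a := by rw [e, div_mul_cancel₀ _ hs0]
  have e2 : s * D j f = D j a - f * D j s := by
    rw [← e1, Derivation.leibniz, smul_eq_mul, smul_eq_mul]
    ring
  have e3 : v (D j f) = v (D j a - f * D j s) := by
    rw [← e2, AddValuation.map_mul, hvs, zero_add]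
  rw [e3]
  refine v.map_le_sub (hBμ a ha j) ?_
  rw [AddValuation.map_mul]
  calc (μ : WithTop ℤ) = 0 + μ := (zero_add _).symm
    _ ≤ _ := add_le_add hf (hBμ s hs j)

/-- Hence Jacobian determinants are bounded below. -/
theorem exists_det_bound (D : ι → Derivation ℂ K K) (v : AddValuation K (WithTop ℤ)) (μ : ℤ)
    (hμ : ∀ f : K, 0 ≤ v f → ∀ j, (μ : WithTop ℤ) ≤ v (D j f)) :
    ∃ k : ℤ, ∀ t : ι → K, (∀ i, 0 ≤ v (t i)) →
      (k : WithTop ℤ) ≤ v (Matrix.det (Matrix.of fun i j => D j (t i))) := by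
  refine ⟨(Finset.univ : Finset ι).card * μ, fun t ht => ?_⟩
  rw [Matrix.det_apply']
  refine v.map_le_sum fun σ _ => ?_
  have h1 : ∀ s : Finset ι, (((s.card : ℤ) * μ : ℤ) : WithTop ℤ) ≤
      v (∏ i ∈ s, (Matrix.of fun i j => D j (t i)) (σ i) i) := by
    classical
    intro s
    induction s using Finset.induction_on with
    | empty => simp
    | insert a s ha ih =>
      rw [Finset.prod_insert ha, AddValuation.map_mul, Finset.card_insert_of_notMem ha]
      have e : (((s.card + 1 : ℕ) : ℤ) * μ : ℤ) = μ + (s.card : ℤ) * μ := by push_cast; ring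
      rw [e, WithTop.coe_add]
      exact add_le_add (hμ _ (ht _) _) ih
  have h2 : v (((Equiv.Perm.sign σ : ℤˣ) : ℤ) : K) = 0 := by
    rcases Int.units_eq_one_or (Equiv.Perm.sign σ) with h | h
    · rw [h]; simp
    · rw [h]
      simp [AddValuation.map_neg]
  rw [AddValuation.map_mul, h2, zero_add]
  exact h1 _

end FanoFib.Val


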