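import Mathlib

namespace FanoFib.Val

variable {K : Type} [Field K] [Algebra ℂ K] {ι : Type} [Fintype ι] [DecidableEq ι]

theorem v_inv_9346 (v : AddValuation K (WithTop ℤ)) {π : K} (hπ : v π = 1) :
    v π⁻¹ = ((-1 : ℤ) : WithTop ℤ) := by
  have hπ0 : π ≠ 0 := by
    rintro rfl
    rw [AddValuation.map_zero] at hπ
    exact WithTop.top_ne_one hπ
  have h1 : v (π * π⁻¹) = 0 := by rw [mul_inv_cancel₀ hπ0, AddValuation.map_one]
  rw [AddValuation.map_mul, hπ] at h1
  cases h2 : v π⁻¹ with
  | top => rw [h2] at h1; simp at h1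
  | coe n =>
    rw [h2] at h1
    norm_cast at h1 ⊢
    omega

theorem v_zpow_9346 (v : AddValuation K (WithTop ℤ)) {π : K} (hπ : v π = 1) (hπ0 : π ≠ 0) (n : ℤ) :
    v (π ^ n) = (n : WithTop ℤ) := by
  induction n using Int.induction_on with
  | zero => simp
  | succ n ih =>
    rw [zpow_add_one₀ hπ0, AddValuation.map_mul, ih, hπ]
    norm_cast
  | pred n ih =>
    rw [zpow_sub_one₀ hπ0, AddValuation.map_mul, ih, v_inv_9346 v hπ]
    norm_cast

theorem L_mul_9346 (D : Derivation ℂ K K) {x y : K} (hx : x ≠ 0) (hy : y ≠ 0) :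
    D (x * y) / (x * y) = D x / x + D y / y := by
  rw [Derivation.leibniz, smul_eq_mul, smul_eq_mul]
  field_simp
  ring

theorem L_inv_9346 (D : Derivation ℂ K K) {x : K} (hx : x ≠ 0) :
    D x⁻¹ / x⁻¹ = - (D x / x) := by
  have h := L_mul_9346 D hx (inv_ne_zero hx)
  rw [mul_inv_cancel₀ hx, Derivation.map_one_eq_zero, zero_div] at h
  exact eq_neg_of_add_eq_zero_right h.symm

theorem L_zpow_9346 (D : Derivation ℂ K K) {π : K} (hπ0 : π ≠ 0) (n : ℤ) :
    D (π ^ n) / π ^ n = n * (D π / π) := by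
  induction n using Int.induction_on with
  | zero => simp
  | succ n ih =>
    rw [zpow_add_one₀ hπ0, L_mul_9346 D (zpow_ne_zero _ hπ0) hπ0, ih]
    push_cast
    ring
  | pred n ih =>
    rw [zpow_sub_one₀ hπ0, L_mul_9346 D (zpow_ne_zero _ hπ0) (inv_ne_zero hπ0), ih,
      L_inv_9346 D hπ0]
    push_cast
    ring

theorem v_prod_9346 (v : AddValuation K (WithTop ℤ)) (s : Finset ι) (f : ι → K)
    (hf : ∀ i ∈ s, v (f i) = 0) : v (∏ i ∈ s, f i) = 0 := by
  refine Finset.prod_induction f (fun x => v x = 0) (fun a b ha hb => ?_) (AddValuation.map_one v)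
    hf
  rw [AddValuation.map_mul, ha, hb, add_zero]

/-- If all Jacobian determinants of elements of the valuation ring have order at least `k`, then
all logarithmic Jacobian determinants have order at least `k - 1`. -/
theorem log_det_bound (D : ι → Derivation ℂ K K) (v : AddValuation K (WithTop ℤ))
    (hconst : ∀ z : ℂ, z ≠ 0 → v (algebraMap ℂ K z) = 0) (π : K) (hπ : v π = 1) (k : ℤ)
    (hk : ∀ t : ι → K, (∀ i, 0 ≤ v (t i)) →
      (k : WithTop ℤ) ≤ v (Matrix.det (Matrix.of fun i j => D j (t i))))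
    (h : ι → K) (hh : ∀ i, h i ≠ 0) :
    ((k - 1 : ℤ) : WithTop ℤ) ≤ v (Matrix.det (Matrix.of fun i j => D j (h i) / h i)) := by
  classical
  have hπ0 : π ≠ 0 := by
    rintro rfl
    rw [AddValuation.map_zero] at hπ
    exact WithTop.top_ne_one hπ
  have hint : ∀ n : ℤ, 0 ≤ v (n : K) := by
    intro n
    by_cases hn : n = 0
    · rw [hn, Int.cast_zero, AddValuation.map_zero]
      exact le_top
    · have : (n : K) = algebraMap ℂ K (n : ℂ) := by simp
      rw [this, hconst _ (Int.cast_ne_zero.2 hn)]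
  have hex : ∀ i, ∃ (n : ℤ) (u : K), u ≠ 0 ∧ v u = 0 ∧ h i = π ^ n * u := by
    intro i
    cases h2 : v (h i) with
    | top => exact absurd ((AddValuation.top_iff v).1 h2) (hh i)
    | coe n =>
      refine ⟨n, π ^ (-n) * h i, mul_ne_zero (zpow_ne_zero _ hπ0) (hh i), ?_, ?_⟩
      · rw [AddValuation.map_mul, v_zpow_9346 v hπ hπ0, h2]
        norm_cast
        omega
      · rw [← mul_assoc, ← zpow_add₀ hπ0, add_neg_cancel, zpow_zero, one_mul]
  choose n u hu0 hvu hhu using hex
  have hM : (Matrix.of fun i j => D j (h i) / h i) =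
      ((fun i j => (u i)⁻¹ * D j (u i)) + fun i j => ((n i : K) * π⁻¹) * D j π : ι → ι → K) := by
    funext i j
    simp only [Matrix.of_apply, Pi.add_apply]
    rw [hhu i, L_mul_9346 (D j) (zpow_ne_zero _ hπ0) (hu0 i), L_zpow_9346 (D j) hπ0]
    ring
  have hdet : Matrix.det (Matrix.of fun i j => D j (h i) / h i) =
      ∑ s : Finset ι, Matrix.det (Matrix.of (s.piecewise (fun i j => (u i)⁻¹ * D j (u i))
        (fun i j => ((n i : K) * π⁻¹) * D j π) : ι → ι → K)) := by
    rw [hM]
    exact MultilinearMap.map_add_univ (Matrix.detRowAlternating (R := K) (n := ι)).toMultilinearMap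
      (fun i j => (u i)⁻¹ * D j (u i)) (fun i j => ((n i : K) * π⁻¹) * D j π)
  rw [hdet]
  refine AddValuation.map_le_sum v fun s _ => ?_
  obtain ⟨w, hw⟩ : ∃ w : ι → K, ∀ i, w i = if i ∈ s then (u i)⁻¹ else (n i : K) * π⁻¹ :=
    ⟨_, fun _ => rfl⟩
  obtain ⟨t, ht⟩ : ∃ t : ι → K, ∀ i, t i = if i ∈ s then u i else π := ⟨_, fun _ => rfl⟩
  have hrow : (Matrix.of (s.piecewise (fun i j => (u i)⁻¹ * D j (u i))
        (fun i j => ((n i : K) * π⁻¹) * D j π) : ι → ι → K)) =
        Matrix.of fun i j => w i * (Matrix.of fun i j => D j (t i)) i j := by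
    ext i j
    simp only [Matrix.of_apply, Finset.piecewise, hw, ht]
    split_ifs <;> rfl
  rw [hrow, Matrix.det_mul_column]
  by_cases hs : ∃ i i', i ∉ s ∧ i' ∉ s ∧ i ≠ i'
  · obtain ⟨i, i', hi, hi', hne⟩ := hs
    have h0 : Matrix.det (Matrix.of fun i j => D j (t i)) = 0 := by
      refine Matrix.det_zero_of_row_eq hne ?_
      funext j
      simp only [Matrix.of_apply, ht, if_neg hi, if_neg hi']
    rw [h0, mul_zero, AddValuation.map_zero]
    exact le_top
  · push Not at hs
    have hvt : (k : WithTop ℤ) ≤ v (Matrix.det (Matrix.of fun i j => D j (t i))) := by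
      refine hk t fun i => ?_
      rw [ht]
      split_ifs
      · rw [hvu]
      · rw [hπ]
        exact zero_le_one
    have hws : ∀ i ∈ s, v (w i) = 0 := by
      intro i hi
      rw [hw, if_pos hi]
      have h1 : v (u i * (u i)⁻¹) = 0 := by rw [mul_inv_cancel₀ (hu0 i), AddValuation.map_one]
      rw [AddValuation.map_mul, hvu, zero_add] at h1
      exact h1
    have hvw : ((-1 : ℤ) : WithTop ℤ) ≤ v (∏ i, w i) := by
      by_cases hall : ∀ i, i ∈ s
      · rw [v_prod_9346 v _ _ (fun i _ => hws i (hall i))]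
        exact_mod_cast (by norm_num : (-1 : ℤ) ≤ 0)
      · push Not at hall
        obtain ⟨i0, hi0⟩ := hall
        rw [← Finset.mul_prod_erase Finset.univ w (Finset.mem_univ i0), AddValuation.map_mul,
          v_prod_9346 v (Finset.univ.erase i0) w (fun i hi => hws i (by
            by_contra hn
            exact Finset.ne_of_mem_erase hi (hs i i0 hn hi0))), add_zero, hw, if_neg hi0,
          AddValuation.map_mul, v_inv_9346 v hπ]
        exact le_add_of_nonneg_left (hint _)
    rw [AddValuation.map_mul]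
    have e : ((k - 1 : ℤ) : WithTop ℤ) = ((-1 : ℤ) : WithTop ℤ) + (k : WithTop ℤ) := by
      rw [← WithTop.coe_add]
      congr 1
      ring
    rw [e]
    exact add_le_add hvw hvt

end FanoFib.Val
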