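import Mathlib

namespace FanoFib.Val

variable {K : Type} [Field K] [Algebra ℂ K]

omit [Algebra ℂ K] in
theorem vprod_aux (v : AddValuation K (WithTop ℤ)) {ι : Type} (s : Finset ι) (f : ι → K)
    (a : ι → ℤ) (h : ∀ i ∈ s, v (f i) = (a i : WithTop ℤ)) :
    v (∏ i ∈ s, f i) = ((∑ i ∈ s, a i : ℤ) : WithTop ℤ) := by
  classical
  induction s using Finset.induction_on with
  | empty => simp
  | insert i s his ih =>
    rw [Finset.prod_insert his, Finset.sum_insert his, v.map_mul,
      h i (Finset.mem_insert_self _ _), ih (fun j hj => h j (Finset.mem_insert_of_mem hj))]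
    rfl

omit [Algebra ℂ K] in
theorem vint_aux (v : AddValuation K (WithTop ℤ)) {h : K} (hh : h ≠ 0) :
    ∃ a : ℤ, v h = (a : WithTop ℤ) := by
  have h1 : v h ≠ ⊤ := fun e => hh (v.top_iff.1 e)
  obtain ⟨a, ha⟩ := WithTop.ne_top_iff_exists.1 h1
  exact ⟨a, ha.symm⟩

/-- triangular families give the bound -/
theorem tri_aux {n : ℕ} (D : Fin n → Derivation ℂ K K) (v : AddValuation K (WithTop ℤ)) (k : ℤ)
    (hk : ∀ h : Fin n → K, (∀ i, h i ≠ 0) →
      ((k - 1 : ℤ) : WithTop ℤ) ≤ v (Matrix.det (Matrix.of fun i j => D j (h i) / h i)))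
    (h : Fin n → K) (h0 : ∀ i, h i ≠ 0) (hz : ∀ i j, j < i → D j (h i) = 0) (a b : Fin n → ℤ)
    (ha : ∀ i, v (h i) = (a i : WithTop ℤ)) (hb : ∀ i, v (D i (h i)) = (b i : WithTop ℤ)) :
    ∑ i, (a i - b i) ≤ 1 - k := by
  have h1 := hk h h0
  have htri : (Matrix.of fun i j => D j (h i) / h i).BlockTriangular id := by
    intro i j hij
    simp only [id_eq] at hij
    rw [Matrix.of_apply, hz i j hij, zero_div]
  rw [Matrix.det_of_upperTriangular htri] at h1
  simp only [Matrix.of_apply] at h1
  have h2 : (∏ i, D i (h i) / h i) * (∏ i, h i) = ∏ i, D i (h i) := by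
    rw [← Finset.prod_mul_distrib]
    exact Finset.prod_congr rfl (fun i _ => div_mul_cancel₀ _ (h0 i))
  have h3 := congrArg v h2
  rw [v.map_mul, vprod_aux v Finset.univ h a (fun i _ => ha i),
    vprod_aux v Finset.univ (fun i => D i (h i)) b (fun i _ => hb i)] at h3
  have h4 : ((k - 1 : ℤ) : WithTop ℤ) + ((∑ i, a i : ℤ) : WithTop ℤ) ≤
      ((∑ i, b i : ℤ) : WithTop ℤ) := by
    rw [← h3]
    gcongr
  have h5 : (((k - 1) + ∑ i, a i : ℤ) : WithTop ℤ) ≤ ((∑ i, b i : ℤ) : WithTop ℤ) := by
    exact_mod_cast h4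
  rw [WithTop.coe_le_coe] at h5
  rw [Finset.sum_sub_distrib]
  omega

/-- Existence of the constants `γ_s` (triangular logarithmic Jacobian determinants). -/
theorem exists_gamma {n : ℕ} (D : Fin n → Derivation ℂ K K) (v : AddValuation K (WithTop ℤ))
    (x : Fin n → K) (hx : ∀ i, x i ≠ 0) (hDx : ∀ i j, D i (x j) = if j = i then x i else 0)
    (k : ℤ)
    (hk : ∀ h : Fin n → K, (∀ i, h i ≠ 0) →
      ((k - 1 : ℤ) : WithTop ℤ) ≤ v (Matrix.det (Matrix.of fun i j => D j (h i) / h i))) :
    ∃ γ : Fin n → ℤ, (∀ s, 0 ≤ γ s) ∧ ∑ s, γ s ≤ 1 - k ∧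
      ∀ (s : Fin n) (h : K), (∀ j, j < s → D j h = 0) →
        v h ≤ v (D s h) + (γ s : WithTop ℤ) := by
  classical
  let Γ : Fin n → Set ℤ := fun s => {z | ∃ h : K, h ≠ 0 ∧ (∀ j, j < s → D j h = 0) ∧
    ∃ a b : ℤ, v h = (a : WithTop ℤ) ∧ v (D s h) = (b : WithTop ℤ) ∧ z = a - b}
  have hzero : ∀ s, (0 : ℤ) ∈ Γ s := by
    intro s
    obtain ⟨a, ha⟩ := vint_aux v (hx s)
    refine ⟨x s, hx s, ?_, a, a, ha, ?_, by ring⟩
    · intro j hj
      rw [hDx, if_neg hj.ne']
    · rw [hDx, if_pos rfl, ha]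
  have hbdd : ∀ s, ∀ z ∈ Γ s, z ≤ 1 - k := by
    rintro s z ⟨h, h0, hj, a, b, ha, hb, rfl⟩
    choose ax hax using fun i => vint_aux v (hx i)
    have h1 := tri_aux D v k hk (Function.update x s h) (by
        intro i
        by_cases hi : i = s
        · subst hi; rwa [Function.update_self]
        · rw [Function.update_of_ne hi]; exact hx i) (by
        intro i j hji
        by_cases hi : i = s
        · subst hi; rw [Function.update_self]; exact hj j hji
        · rw [Function.update_of_ne hi, hDx, if_neg hji.ne'])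
      (Function.update ax s a) (Function.update ax s b) (by
        intro i
        by_cases hi : i = s
        · subst hi; rw [Function.update_self, Function.update_self]; exact ha
        · rw [Function.update_of_ne hi, Function.update_of_ne hi]; exact hax i) (by
        intro i
        by_cases hi : i = s
        · subst hi; rw [Function.update_self, Function.update_self]; exact hb
        · rw [Function.update_of_ne hi, Function.update_of_ne hi, hDx, if_pos rfl]; exact hax i)
    have h2 : ∑ i, (Function.update ax s a i - Function.update ax s b i) = a - b := by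
      rw [Finset.sum_eq_single s]
      · rw [Function.update_self, Function.update_self]
      · intro i _ hi
        rw [Function.update_of_ne hi, Function.update_of_ne hi, sub_self]
      · intro hs; exact absurd (Finset.mem_univ s) hs
    rw [h2] at h1
    exact h1
  have hbdd' : ∀ s, BddAbove (Γ s) := fun s => ⟨1 - k, fun z hz => hbdd s z hz⟩
  have hmem : ∀ s, sSup (Γ s) ∈ Γ s := fun s => Int.csSup_mem ⟨0, hzero s⟩ (hbdd' s)
  refine ⟨fun s => sSup (Γ s), fun s => le_csSup (hbdd' s) (hzero s), ?_, ?_⟩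
  · choose h h0 hj a b ha hb hab using hmem
    have h1 := tri_aux D v k hk h h0 (fun i j hji => hj i j hji) a b ha hb
    calc ∑ s, sSup (Γ s) = ∑ s, (a s - b s) := Finset.sum_congr rfl (fun s _ => hab s)
      _ ≤ 1 - k := h1
  · intro s h hj
    by_cases hD : D s h = 0
    · rw [hD, v.map_zero, WithTop.top_add]
      exact le_top
    · have h0 : h ≠ 0 := by
        rintro rfl
        exact hD (map_zero _)
      obtain ⟨a, ha⟩ := vint_aux v h0
      obtain ⟨b, hb⟩ := vint_aux v hD
      have h1 : a - b ≤ sSup (Γ s) := le_csSup (hbdd' s) ⟨h, h0, hj, a, b, ha, hb, rfl⟩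
      rw [ha, hb]
      have h2 : a ≤ b + sSup (Γ s) := by omega
      exact_mod_cast h2

end FanoFib.Val
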