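import Mathlib

namespace FanoFib.Val

variable {K : Type} [Field K] [Algebra ℂ K]

section aux

/-- the Laurent monomial with exponent `w` -/
noncomputable def kbMono {n : ℕ} (x : Fin n → K) (w : Fin n → ℤ) : K := ∏ i, x i ^ (w i)

omit [Algebra ℂ K] in
theorem kbMono_add {n : ℕ} (x : Fin n → K) (hx : ∀ i, x i ≠ 0) (w w' : Fin n → ℤ) :
    kbMono x (w + w') = kbMono x w * kbMono x w' := by
  unfold kbMono
  rw [← Finset.prod_mul_distrib]
  exact Finset.prod_congr rfl (fun i _ => zpow_add₀ (hx i) _ _)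

theorem kb_D_prod {n : ℕ} (D : Derivation ℂ K K) (x : Fin n → K) (hx : ∀ i, x i ≠ 0) (s : Fin n)
    (hD : ∀ j, D (x j) = if j = s then x s else 0) (w : Fin n → ℤ) (S : Finset (Fin n)) :
    D (∏ i ∈ S, x i ^ (w i)) = (if s ∈ S then (w s : ℂ) else 0) • ∏ i ∈ S, x i ^ (w i) := by
  classical
  induction S using Finset.induction_on with
  | empty => simp
  | insert a S ha ih =>
    rw [Finset.prod_insert ha, Derivation.leibniz, ih, Derivation.leibniz_zpow, hD]
    by_cases h : a = s
    · subst h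
      rw [if_neg ha, if_pos rfl, if_pos (Finset.mem_insert_self _ _), zpow_sub_one₀ (hx a)]
      have h1 : (x a ^ w a * (x a)⁻¹) • x a = x a ^ w a := by
        rw [smul_eq_mul, mul_assoc, inv_mul_cancel₀ (hx a), mul_one]
      rw [h1, zero_smul, smul_zero, zero_add, smul_eq_mul]
      rw [zsmul_eq_mul, Algebra.smul_def ((w a : ℤ) : ℂ), map_intCast]
      ring
    · rw [if_neg h, smul_zero, smul_zero, smul_zero, add_zero]
      have h2 : (s ∈ insert a S) ↔ s ∈ S := by
        rw [Finset.mem_insert]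
        constructor
        · rintro (h3 | h3)
          · exact absurd h3.symm h
          · exact h3
        · exact Or.inr
      simp only [h2]
      rw [smul_eq_mul, mul_smul_comm]

theorem kb_D_mono {n : ℕ} (D : Derivation ℂ K K) (x : Fin n → K) (hx : ∀ i, x i ≠ 0) (s : Fin n)
    (hD : ∀ j, D (x j) = if j = s then x s else 0) (w : Fin n → ℤ) :
    D (kbMono x w) = (w s : ℂ) • kbMono x w := by
  unfold kbMono
  rw [kb_D_prod D x hx s hD, if_pos (Finset.mem_univ s)]

theorem kb_D_sum {n : ℕ} (D : Derivation ℂ K K) (x : Fin n → K) (hx : ∀ i, x i ≠ 0) (s : Fin n)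
    (hD : ∀ j, D (x j) = if j = s then x s else 0) (S : Finset (Fin n → ℤ))
    (c : (Fin n → ℤ) → ℂ) (g : (Fin n → ℤ) → (Fin n → ℤ)) :
    D (∑ w ∈ S, c w • kbMono x (g w)) = ∑ w ∈ S, c w • ((g w s : ℂ) • kbMono x (g w)) := by
  rw [map_sum]
  refine Finset.sum_congr rfl (fun w _ => ?_)
  rw [Derivation.map_smul, kb_D_mono D x hx s hD]

theorem kb_step_one {n : ℕ} (D : Fin n → Derivation ℂ K K) (v : AddValuation K (WithTop ℤ))
    (hconst : ∀ z : ℂ, z ≠ 0 → v (algebraMap ℂ K z) = 0)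
    (x : Fin n → K) (hx : ∀ i, x i ≠ 0) (hDx : ∀ i j, D i (x j) = if j = i then x i else 0)
    (γ : Fin n → ℤ) (hγ : ∀ s, 0 ≤ γ s)
    (hDγ : ∀ (s : Fin n) (h : K), (∀ j, j < s → D j h = 0) →
        v h ≤ v (D s h) + (γ s : WithTop ℤ))
    (S : Finset (Fin n → ℤ)) (c : (Fin n → ℤ) → ℂ) (s : Fin n) (p : Fin n → ℤ)
    (hp : ∀ w ∈ S, ∀ j, j < s → w j = p j) (a : ℤ) :
    v (∑ w ∈ S, c w • kbMono x w) ≤
      v (∑ w ∈ S, (c w * ((w s - a : ℤ) : ℂ)) • kbMono x w) + (γ s : WithTop ℤ) := by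
  classical
  set p' : Fin n → ℤ := fun j => if j < s then p j else 0 with hp'
  have hsplit : ∀ w : Fin n → ℤ, kbMono x w = kbMono x p' * kbMono x (w - p') := by
    intro w
    rw [← kbMono_add x hx, add_sub_cancel]
  set h : K := ∑ w ∈ S, c w • kbMono x w with hh
  set h1 : K := ∑ w ∈ S, c w • kbMono x (w - p') with hh1
  set g : K := ∑ w ∈ S, c w • ((w s : ℂ) • kbMono x w) with hg
  have e1 : h = kbMono x p' * h1 := by
    rw [hh, hh1, Finset.mul_sum]
    refine Finset.sum_congr rfl (fun w _ => ?_)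
    rw [hsplit w, mul_smul_comm]
  have e2 : g = kbMono x p' * D s h1 := by
    rw [hh1, kb_D_sum (D s) x hx s (hDx s) S c (fun w => w - p'), hg, Finset.mul_sum]
    refine Finset.sum_congr rfl (fun w _ => ?_)
    have : (w - p') s = w s := by
      rw [Pi.sub_apply, hp']
      simp
    rw [this, mul_smul_comm, mul_smul_comm, ← hsplit w]
  have e3 : ∀ j, j < s → D j h1 = 0 := by
    intro j hj
    rw [hh1, kb_D_sum (D j) x hx j (hDx j) S c (fun w => w - p')]
    refine Finset.sum_eq_zero (fun w hw => ?_)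
    have : (w - p') j = 0 := by
      rw [Pi.sub_apply, hp']
      simp only [if_pos hj]
      rw [hp w hw j hj, sub_self]
    rw [this, Int.cast_zero, zero_smul, smul_zero]
  have e4 : v h ≤ v g + (γ s : WithTop ℤ) := by
    rw [e1, e2, AddValuation.map_mul, AddValuation.map_mul, add_assoc]
    exact add_le_add le_rfl (hDγ s h1 e3)
  have e5 : ∑ w ∈ S, (c w * ((w s - a : ℤ) : ℂ)) • kbMono x w = g - (a : ℂ) • h := by
    rw [hg, hh, Finset.smul_sum, ← Finset.sum_sub_distrib]
    refine Finset.sum_congr rfl (fun w _ => ?_)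
    rw [smul_smul, smul_smul, ← sub_smul]
    congr 1
    push_cast
    ring
  have e6 : v h ≤ v ((a : ℂ) • h) := by
    by_cases ha : (a : ℂ) = 0
    · rw [ha, zero_smul, AddValuation.map_zero]
      exact le_top
    · rw [Algebra.smul_def, AddValuation.map_mul, hconst _ ha, zero_add]
  rw [e5]
  have h0 : (0 : WithTop ℤ) ≤ (γ s : WithTop ℤ) := by exact_mod_cast hγ s
  rcases min_le_iff.mp (AddValuation.map_sub v g ((a : ℂ) • h)) with h2 | h2
  · exact e4.trans (add_le_add h2 le_rfl)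
  · calc v h ≤ v ((a : ℂ) • h) := e6
      _ ≤ v (g - (a : ℂ) • h) := h2
      _ = v (g - (a : ℂ) • h) + 0 := (add_zero _).symm
      _ ≤ _ := add_le_add le_rfl h0

theorem kb_step_iter {n : ℕ} (D : Fin n → Derivation ℂ K K) (v : AddValuation K (WithTop ℤ))
    (hconst : ∀ z : ℂ, z ≠ 0 → v (algebraMap ℂ K z) = 0)
    (x : Fin n → K) (hx : ∀ i, x i ≠ 0) (hDx : ∀ i j, D i (x j) = if j = i then x i else 0)
    (γ : Fin n → ℤ) (hγ : ∀ s, 0 ≤ γ s)
    (hDγ : ∀ (s : Fin n) (h : K), (∀ j, j < s → D j h = 0) →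
        v h ≤ v (D s h) + (γ s : WithTop ℤ))
    (S : Finset (Fin n → ℤ)) (c : (Fin n → ℤ) → ℂ) (s : Fin n) (p : Fin n → ℤ)
    (hp : ∀ w ∈ S, ∀ j, j < s → w j = p j) (m : ℤ) (N : ℕ) :
    v (∑ w ∈ S, c w • kbMono x w) ≤
      v (∑ w ∈ S, (c w * ∏ k ∈ Finset.range N, ((w s - (-m + (k : ℤ)) : ℤ) : ℂ)) • kbMono x w) +
        (((N : ℤ) * γ s : ℤ) : WithTop ℤ) := by
  induction N with
  | zero => simp
  | succ N ih =>
    refine ih.trans ?_
    have h := kb_step_one D v hconst x hx hDx γ hγ hDγ S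
      (fun w => c w * ∏ k ∈ Finset.range N, ((w s - (-m + (k : ℤ)) : ℤ) : ℂ)) s p hp (-m + (N : ℤ))
    refine (add_le_add h le_rfl).trans (le_of_eq ?_)
    rw [add_assoc]
    congr 1
    · congr 1
      refine Finset.sum_congr rfl (fun w _ => ?_)
      rw [Finset.prod_range_succ, mul_assoc]
    · rw [← WithTop.coe_add]
      congr 1
      push_cast
      ring

omit [Algebra ℂ K] in
theorem kb_v_zpow (v : AddValuation K (WithTop ℤ)) (x : K) (hx : x ≠ 0) (e : ℤ)
    (he : v x = (e : WithTop ℤ)) (k : ℤ) : v (x ^ k) = ((k * e : ℤ) : WithTop ℤ) := by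
  have hinv : v x⁻¹ = ((-e : ℤ) : WithTop ℤ) := by
    have h1 : v x + v x⁻¹ = 0 := by
      rw [← AddValuation.map_mul, mul_inv_cancel₀ hx, AddValuation.map_one]
    rw [he] at h1
    have h2 : v x⁻¹ ≠ ⊤ := by
      intro h3
      rw [h3, WithTop.add_top] at h1
      exact WithTop.top_ne_zero h1
    obtain ⟨z, hz⟩ := WithTop.ne_top_iff_exists.mp h2
    rw [← hz] at h1 ⊢
    have h4 : e + z = 0 := by exact_mod_cast h1
    congr 1
    linarith
  induction k using Int.induction_on with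
  | zero => simp
  | succ k ih =>
    rw [zpow_add_one₀ hx, AddValuation.map_mul, ih, he, ← WithTop.coe_add]
    congr 1
    ring
  | pred k ih =>
    rw [zpow_sub_one₀ hx, AddValuation.map_mul, ih, hinv, ← WithTop.coe_add]
    congr 1
    ring

omit [Algebra ℂ K] in
theorem kb_v_mono {n : ℕ} (v : AddValuation K (WithTop ℤ)) (x : Fin n → K) (hx : ∀ i, x i ≠ 0)
    (e : Fin n → ℤ) (he : ∀ i, v (x i) = (e i : WithTop ℤ)) (w : Fin n → ℤ) (S : Finset (Fin n)) :
    v (∏ i ∈ S, x i ^ (w i)) = ((∑ i ∈ S, w i * e i : ℤ) : WithTop ℤ) := by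
  classical
  induction S using Finset.induction_on with
  | empty => simp
  | insert a S ha ih =>
    rw [Finset.prod_insert ha, Finset.sum_insert ha, AddValuation.map_mul, ih,
      kb_v_zpow v (x a) (hx a) (e a) (he a), WithTop.coe_add]

theorem kb_main {n : ℕ} (D : Fin n → Derivation ℂ K K) (v : AddValuation K (WithTop ℤ))
    (hconst : ∀ z : ℂ, z ≠ 0 → v (algebraMap ℂ K z) = 0)
    (x : Fin n → K) (hx : ∀ i, x i ≠ 0) (hDx : ∀ i j, D i (x j) = if j = i then x i else 0)
    (γ : Fin n → ℤ) (hγ : ∀ s, 0 ≤ γ s)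
    (hDγ : ∀ (s : Fin n) (h : K), (∀ j, j < s → D j h = 0) →
        v h ≤ v (D s h) + (γ s : WithTop ℤ))
    (m : ℤ) (F : Finset (Fin n → ℤ)) (hF : F.Nonempty) (c : (Fin n → ℤ) → ℂ)
    (hc : ∀ w ∈ F, c w ≠ 0) (hm : ∀ w ∈ F, ∀ i, -m ≤ w i) (t : ℕ) (ht : t ≤ n) :
    ∃ F' ⊆ F, ∃ p ∈ F', ∃ c' : (Fin n → ℤ) → ℂ, (∀ w ∈ F', c' w ≠ 0) ∧
      (∀ w ∈ F', ∀ i : Fin n, i.val < t → w i = p i) ∧
      v (∑ w ∈ F, c w • kbMono x w) ≤ v (∑ w ∈ F', c' w • kbMono x w) +
        ((∑ i : Fin n, (if i.val < t then (p i + m) * γ i else 0) : ℤ) : WithTop ℤ) := by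
  classical
  induction t with
  | zero =>
    obtain ⟨p, hp⟩ := hF
    refine ⟨F, Finset.Subset.refl _, p, hp, c, hc, fun w _ i hi => absurd hi (Nat.not_lt_zero _), ?_⟩
    simp
  | succ t ih =>
    obtain ⟨F', hF', p, hp, c', hc', hpp, hv⟩ := ih (by omega)
    set s : Fin n := ⟨t, by omega⟩ with hs
    obtain ⟨q, hq, hqmax⟩ := Finset.exists_max_image F' (fun w => w s) ⟨p, hp⟩
    have hqm : -m ≤ q s := hm q (hF' hq) s
    set N : ℕ := (q s + m).toNat with hN
    have hNc : (N : ℤ) = q s + m := by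
      rw [hN]; exact Int.toNat_of_nonneg (by linarith)
    have hiter := kb_step_iter D v hconst x hx hDx γ hγ hDγ F' c' s p
      (fun w hw j hj => hpp w hw j (by
        have : j.val < s.val := hj
        simpa [hs] using this)) m N
    refine ⟨F'.filter (fun w => w s = q s), (Finset.filter_subset _ _).trans hF', q,
      Finset.mem_filter.mpr ⟨hq, rfl⟩,
      fun w => c' w * ∏ k ∈ Finset.range N, ((w s - (-m + (k : ℤ)) : ℤ) : ℂ), ?_, ?_, ?_⟩
    · intro w hw
      rw [Finset.mem_filter] at hw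
      refine mul_ne_zero (hc' w hw.1) (Finset.prod_ne_zero_iff.mpr (fun k hk => ?_))
      rw [Finset.mem_range] at hk
      have hk' : (k : ℤ) < N := by exact_mod_cast hk
      rw [Int.cast_ne_zero, hw.2]
      intro h0
      linarith
    · intro w hw i hi
      rw [Finset.mem_filter] at hw
      by_cases h : i.val < t
      · rw [hpp w hw.1 i h, hpp q hq i h]
      · have : i = s := by
          apply Fin.ext
          rw [hs]
          change i.val = t
          omega
        rw [this, hw.2]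
    · have hsum : ∑ w ∈ F', (c' w * ∏ k ∈ Finset.range N, ((w s - (-m + (k : ℤ)) : ℤ) : ℂ)) •
          kbMono x w = ∑ w ∈ F'.filter (fun w => w s = q s),
          (c' w * ∏ k ∈ Finset.range N, ((w s - (-m + (k : ℤ)) : ℤ) : ℂ)) • kbMono x w := by
        rw [Finset.sum_filter]
        refine Finset.sum_congr rfl (fun w hw => ?_)
        split_ifs with h
        · rfl
        · have hlt : w s < q s := lt_of_le_of_ne (hqmax w hw) h
          have hwm : -m ≤ w s := hm w (hF' hw) s
          have hz : ∏ k ∈ Finset.range N, ((w s - (-m + (k : ℤ)) : ℤ) : ℂ) = 0 := by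
            refine Finset.prod_eq_zero (i := (w s + m).toNat) ?_ ?_
            · rw [Finset.mem_range]
              have h3 : ((w s + m).toNat : ℤ) = w s + m := Int.toNat_of_nonneg (by linarith)
              have h4 : ((w s + m).toNat : ℤ) < N := by rw [h3, hNc]; linarith
              exact_mod_cast h4
            · have h3 : ((w s + m).toNat : ℤ) = w s + m := Int.toNat_of_nonneg (by linarith)
              rw [h3]
              rw [Int.cast_eq_zero]
              ring
          rw [hz, mul_zero, zero_smul]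
      rw [hsum] at hiter
      refine hv.trans ((add_le_add hiter le_rfl).trans (le_of_eq ?_))
      rw [add_assoc, ← WithTop.coe_add]
      congr 2
      have hpt : ∀ i : Fin n, (if i.val < t + 1 then (q i + m) * γ i else 0) =
          (if i = s then (q s + m) * γ s else 0) + (if i.val < t then (p i + m) * γ i else 0) := by
        intro i
        by_cases h1 : i.val < t
        · have h2 : i ≠ s := by
            intro h3
            rw [h3] at h1
            exact absurd h1 (by simp [hs])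
          rw [if_pos h1, if_neg h2, if_pos (by omega), hpp q hq i h1, zero_add]
        · by_cases h2 : i = s
          · rw [if_neg h1, if_pos h2, h2, add_zero, if_pos (by simp [hs])]
          · have h3 : ¬ i.val < t + 1 := by
              intro h4
              apply h2
              apply Fin.ext
              rw [hs]
              change i.val = t
              omega
            rw [if_neg h1, if_neg h2, if_neg h3, add_zero]
      rw [Finset.sum_congr rfl (fun i _ => hpt i), Finset.sum_add_distrib,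
        Finset.sum_ite_eq' Finset.univ s, if_pos (Finset.mem_univ s), hNc]

end aux

/-- The key estimate: a Laurent polynomial `f = ∑ c_w x^w` with exponents bounded below by `-m`
has an exponent `u` in its support with `v f ≤ ∑ u_i v(x_i) + ∑ (u_i + m) γ_i`. -/
theorem key_bound {n : ℕ} (D : Fin n → Derivation ℂ K K) (v : AddValuation K (WithTop ℤ))
    (hconst : ∀ z : ℂ, z ≠ 0 → v (algebraMap ℂ K z) = 0)
    (x : Fin n → K) (hx : ∀ i, x i ≠ 0) (hDx : ∀ i j, D i (x j) = if j = i then x i else 0)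
    (e : Fin n → ℤ) (he : ∀ i, v (x i) = (e i : WithTop ℤ))
    (γ : Fin n → ℤ) (hγ : ∀ s, 0 ≤ γ s)
    (hDγ : ∀ (s : Fin n) (h : K), (∀ j, j < s → D j h = 0) →
        v h ≤ v (D s h) + (γ s : WithTop ℤ))
    (m : ℤ) (F : Finset (Fin n → ℤ)) (hF : F.Nonempty) (c : (Fin n → ℤ) → ℂ)
    (hc : ∀ w ∈ F, c w ≠ 0) (hm : ∀ w ∈ F, ∀ i, -m ≤ w i) :
    ∃ u ∈ F, v (∑ w ∈ F, c w • ∏ i, x i ^ (w i)) ≤
      ((∑ i, u i * e i + ∑ i, (u i + m) * γ i : ℤ) : WithTop ℤ) := by
  classical
  obtain ⟨F', hF', p, hp, c', hc', hpp, hv⟩ :=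
    kb_main D v hconst x hx hDx γ hγ hDγ m F hF c hc hm n le_rfl
  refine ⟨p, hF' hp, hv.trans (le_of_eq ?_)⟩
  have hsing : F' = {p} := by
    apply Finset.eq_singleton_iff_unique_mem.mpr
    refine ⟨hp, fun w hw => ?_⟩
    funext i
    exact hpp w hw i i.isLt
  rw [hsing, Finset.sum_singleton, Algebra.smul_def, AddValuation.map_mul,
    hconst _ (hc' p hp), zero_add]
  unfold kbMono
  rw [kb_v_mono v x hx e he p, ← WithTop.coe_add]
  congr 2
  refine Finset.sum_congr rfl (fun i _ => ?_)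
  rw [if_pos i.isLt]

end FanoFib.Val
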