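import Mathlib
import Pool.Agent.Helper419.KS.Defs
import Pool.Agent.Helper419.KS.Tor
import Pool.Agent.Helper419.KS.Chart
import Pool.Agent.Helper419.KS.Fan
import Pool.Agent.Helper419.KS.V1
import Pool.Agent.Helper419.KS.V3
import Pool.Agent.Helper419.KS.V4
import Pool.Agent.Helper419.KS.V5

/-! The order of sections along a divisor, on toric varieties. -/

namespace FanoFib.Tor

open FanoFib.Val

variable {ι : Type} [Fintype ι] [DecidableEq ι]

/-- `key_bound` for a general finite index set. -/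
theorem key_bound_gen (v : AddValuation (KK ι) (WithTop ℤ))
    (hconst : ∀ z : ℂ, z ≠ 0 → v (algebraMap ℂ (KK ι) z) = 0) (π : KK ι) (hπ : v π = 1) (k : ℤ)
    (hk : ∀ t : ι → KK ι, (∀ i, 0 ≤ v (t i)) → (k : WithTop ℤ) ≤ v (tjac t)) :
    ∃ γ e : ι → ℤ, (∀ i, 0 ≤ γ i) ∧ (∀ i, v (xx i) = (e i : WithTop ℤ)) ∧ ∑ i, γ i ≤ 1 - k ∧
      ∀ (m : ℤ) (G : Finset (ι → ℤ)), G.Nonempty → ∀ c : (ι → ℤ) → ℂ, (∀ w ∈ G, c w ≠ 0) →
        (∀ w ∈ G, ∀ i, -m ≤ w i) → ∃ u ∈ G, v (∑ w ∈ G, c w • mon w) ≤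
          ((∑ i, u i * e i + ∑ i, (u i + m) * γ i : ℤ) : WithTop ℤ) := by
  obtain ⟨q⟩ : Nonempty (ι ≃ Fin (Fintype.card ι)) := ⟨Fintype.equivFin ι⟩
  set n := Fintype.card ι
  have hlog := log_det_bound (fun i => frame (ι := ι) i) v hconst π hπ k hk
  have hvx : ∀ i : ι, ∃ z : ℤ, v (xx i) = (z : WithTop ℤ) := by
    intro i
    have : v (xx i) ≠ ⊤ := by
      rw [Ne, v.top_iff]; exact xx_ne_zero i
    exact ⟨(v (xx i)).untop this, (WithTop.coe_untop _ this).symm⟩
  choose e he using hvx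
  have hx' : ∀ i : Fin n, (xx (q.symm i) : KK ι) ≠ 0 := fun i => xx_ne_zero _
  have hDx' : ∀ i j : Fin n, (frame (q.symm i) : Derivation ℂ (KK ι) (KK ι)) (xx (q.symm j)) =
      if j = i then xx (q.symm i) else 0 := by
    intro i j
    rw [frame_xx]
    simp [q.symm.injective.eq_iff]
  have hk' : ∀ h : Fin n → KK ι, (∀ i, h i ≠ 0) → ((k - 1 : ℤ) : WithTop ℤ) ≤
      v (Matrix.det (Matrix.of fun i j => (frame (q.symm j) : Derivation ℂ (KK ι) (KK ι)) (h i) / h i)) := by
    intro h hh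
    have h1 := hlog (fun a => h (q a)) fun a => hh _
    have h2 : (Matrix.of fun i j : Fin n =>
        (frame (q.symm j) : Derivation ℂ (KK ι) (KK ι)) (h i) / h i) =
        (Matrix.of fun a b : ι => (frame b : Derivation ℂ (KK ι) (KK ι)) (h (q a)) / h (q a)).submatrix
          q.symm q.symm := by
      ext i j
      simp
    rw [h2, Matrix.det_submatrix_equiv_self]
    exact h1
  obtain ⟨γ, hγ0, hγs, hγ⟩ := exists_gamma (fun i => frame (ι := ι) (q.symm i)) v
    (fun i => xx (q.symm i)) hx' hDx' k hk'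
  refine ⟨fun i => γ (q i), e, fun i => hγ0 _, he, ?_, ?_⟩
  · have : ∑ i, γ (q i) = ∑ s, γ s := q.sum_comp γ
    rw [this]; exact hγs
  · intro m G hG c hc hm
    let φ : (ι → ℤ) ≃ (Fin n → ℤ) := Equiv.arrowCongr q (Equiv.refl ℤ)
    have hφ : ∀ w i, φ w i = w (q.symm i) := fun w i => rfl
    have hφ' : ∀ w i, φ.symm w i = w (q i) := fun w i => rfl
    obtain ⟨u, hu, hle⟩ := key_bound (fun i => frame (ι := ι) (q.symm i)) v hconst
      (fun i => xx (q.symm i)) hx' hDx' (fun i => e (q.symm i)) (fun i => he _) γ hγ0 hγ m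
      (G.map φ.toEmbedding) (hG.map) (fun w => c (φ.symm w))
      (by
        intro w hw
        obtain ⟨w', hw', rfl⟩ := Finset.mem_map.1 hw
        simpa using hc w' hw')
      (by
        intro w hw i
        obtain ⟨w', hw', rfl⟩ := Finset.mem_map.1 hw
        exact hm w' hw' _)
    obtain ⟨u', hu', rfl⟩ := Finset.mem_map.1 hu
    refine ⟨u', hu', ?_⟩
    rw [Finset.sum_map] at hle
    have h3 : ∀ w : ι → ℤ, ∏ i : Fin n, (xx (q.symm i) : KK ι) ^ (φ w i) = mon w := by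
      intro w
      rw [mon]
      exact q.symm.prod_comp (fun i => (xx i : KK ι) ^ (w i))
    have h4 : ∑ w ∈ G, c (φ.symm (φ.toEmbedding w)) •
        ∏ i : Fin n, (xx (q.symm i) : KK ι) ^ ((φ.toEmbedding w) i) = ∑ w ∈ G, c w • mon w := by
      refine Finset.sum_congr rfl fun w _ => ?_
      rw [← h3 w]
      simp
    rw [h4] at hle
    refine hle.trans (le_of_eq ?_)
    congr 1
    congr 1
    · exact q.symm.sum_comp (fun i => u' i * e i)
    · have h5 := q.sum_comp (fun i => (u' (q.symm i) + m) * γ i)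
      simp only [Equiv.symm_apply_apply] at h5
      exact h5.symm

end FanoFib.Tor
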