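import Mathlib

/-- Renaming along an injective map of variables is smooth. -/
theorem smooth_rename_419 {σ τ : Type} [Finite σ] [Finite τ] (f : σ → τ)
    (hf : Function.Injective f) :
    RingHom.Smooth (MvPolynomial.rename f : MvPolynomial σ ℂ →ₐ[ℂ] MvPolynomial τ ℂ).toRingHom := by
  classical
  let S := ↥(Set.range f)ᶜ
  let e : S ⊕ σ ≃ τ := (Equiv.sumComm _ _).trans
    ((Equiv.sumCongr (Equiv.ofInjective f hf) (Equiv.refl _)).trans
      (Equiv.Set.sumCompl (Set.range f)))
  have he : ∀ s : σ, e (Sum.inr s) = f s := fun s => rfl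
  have h1 : RingHom.Smooth (MvPolynomial.C : MvPolynomial σ ℂ →+* MvPolynomial S (MvPolynomial σ ℂ)) := by
    rw [← MvPolynomial.algebraMap_eq, RingHom.smooth_algebraMap]
    exact ⟨inferInstance, inferInstance⟩
  let φ : MvPolynomial S (MvPolynomial σ ℂ) ≃ₐ[ℂ] MvPolynomial τ ℂ :=
    (MvPolynomial.sumAlgEquiv ℂ S σ).symm.trans (MvPolynomial.renameEquiv ℂ e)
  have h2 : RingHom.Smooth (φ : MvPolynomial S (MvPolynomial σ ℂ) →+* MvPolynomial τ ℂ) :=
    RingHom.Smooth.of_bijective φ.bijective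
  have h3 := h1.comp h2
  have h4 : (MvPolynomial.rename f : MvPolynomial σ ℂ →ₐ[ℂ] MvPolynomial τ ℂ).toRingHom =
      (φ : MvPolynomial S (MvPolynomial σ ℂ) →+* MvPolynomial τ ℂ).comp
        (MvPolynomial.C : MvPolynomial σ ℂ →+* MvPolynomial S (MvPolynomial σ ℂ)) := by
    apply MvPolynomial.ringHom_ext
    · intro r
      show MvPolynomial.rename f (MvPolynomial.C r) =
        MvPolynomial.rename e ((MvPolynomial.sumAlgEquiv ℂ S σ).symm
          (MvPolynomial.C (MvPolynomial.C r)))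
      rw [MvPolynomial.sumAlgEquiv_symm_C_C]
      simp
    · intro i
      show MvPolynomial.rename f (MvPolynomial.X i) =
        MvPolynomial.rename e ((MvPolynomial.sumAlgEquiv ℂ S σ).symm
          (MvPolynomial.C (MvPolynomial.X i)))
      rw [MvPolynomial.sumAlgEquiv_symm_C_X]
      simp [he]
  rw [h4]
  exact h3
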