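import Mathlib
import Pool.Agent.Helper419.KS.Comb
import Pool.Agent.Helper419.KS.TowerDefs

namespace FanoFib.Tower

variable {I J : Type} [Fintype I] [DecidableEq I] [Fintype J] [DecidableEq J]

theorem pair_inl_9822 (ℓ : J → I → ℤ) (ε : I → Bool) (o : J → Fin 3) (i : I)
    (u : I ⊕ J × Fin 2 → ℤ) :
    ∑ p, rr ℓ ε o (.inl i) p * u p = sg (ε i) * u (.inl i) := by
  rw [Finset.sum_eq_single (Sum.inl i)]
  · simp [rr]
  · intro p _ hp
    simp [rr, hp]
  · intro h
    exact absurd (Finset.mem_univ _) h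

theorem pair_rho_9822 (ℓ : J → I → ℤ) (j : J) (k : Fin 3) (u : I ⊕ J × Fin 2 → ℤ) :
    ∑ p, rho ℓ j k p * u p = if k = 0 then ∑ i, ℓ j i * u (.inl i) - u (.inr (j, 0)) -
      u (.inr (j, 1)) else if k = 1 then u (.inr (j, 0)) else u (.inr (j, 1)) := by
  rw [Fintype.sum_sum_type, Fintype.sum_prod_type]
  have h2 : ∑ j', ∑ k' : Fin 2, rho ℓ j k (Sum.inr (j', k')) * u (Sum.inr (j', k')) =
      ∑ k' : Fin 2, rho ℓ j k (Sum.inr (j, k')) * u (Sum.inr (j, k')) := by
    rw [Finset.sum_eq_single j]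
    · intro j' _ hj'
      apply Finset.sum_eq_zero
      intro k' _
      simp [rho, hj']
    · intro h
      exact absurd (Finset.mem_univ _) h
  rw [h2, Fin.sum_univ_two]
  fin_cases k
  · simp [rho]
    ring
  · simp [rho]
  · simp [rho]

theorem kap_inl_9822 (ℓ : J → I → ℤ) (ε : I → Bool) (o : J → Fin 3) (i : I) :
    (∑ a, bb ℓ ε o a) (.inl i) = sg (ε i) := by
  rw [Finset.sum_apply, Fintype.sum_sum_type]
  have h1 : ∀ p : J × Fin 2, bb ℓ ε o (Sum.inr p) (Sum.inl i) = 0 := by
    intro p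
    simp [bb, tt]
  have h2 : ∀ i' : I, bb ℓ ε o (Sum.inl i') (Sum.inl i) = if i = i' then sg (ε i') else 0 := by
    intro i'
    by_cases h : i = i'
    · subst h
      simp [bb, tt]
    · simp [bb, tt, h]
  simp only [h1, h2]
  simp

theorem bb_inl_inr_9822 (ℓ : J → I → ℤ) (ε : I → Bool) (o : J → Fin 3) (i : I) (j : J)
    (k : Fin 2) :
    bb ℓ ε o (.inl i) (.inr (j, k)) = if o j = k.succ then sg (ε i) * ℓ j i else 0 := by
  have h1 : ∀ j', (ℓ j' i • (tt j' (o j') : I ⊕ J × Fin 2 → ℤ)) (.inr (j, k)) =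
      if j' = j then (if o j = k.succ then ℓ j i else 0) else 0 := by
    intro j'
    by_cases h : j' = j
    · subst h
      by_cases h' : o j' = k.succ
      · simp [tt, h']
      · simp [tt, h']
    · have : ¬ j = j' := fun h' => h h'.symm
      simp [tt, h, this]
  show sg (ε i) * ((Pi.single (Sum.inl i) (1 : ℤ) : I ⊕ J × Fin 2 → ℤ) (.inr (j, k)) +
    (∑ j', ℓ j' i • (tt j' (o j') : I ⊕ J × Fin 2 → ℤ)) (.inr (j, k))) = _
  rw [Finset.sum_apply]
  simp only [h1]
  by_cases h' : o j = k.succ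
  · simp [h']
  · simp [h']

theorem bb_inr_inr_9822 (ℓ : J → I → ℤ) (ε : I → Bool) (o : J → Fin 3) (j' : J) (k' : Fin 2)
    (j : J) (k : Fin 2) :
    bb ℓ ε o (.inr (j', k')) (.inr (j, k)) = if j = j' then
      ((if (o j).succAbove k' = k.succ then 1 else 0) - (if o j = k.succ then 1 else 0)) else 0 := by
  by_cases h : j = j'
  · subst h
    simp [bb, tt]
  · simp [bb, tt, h]

theorem kap_inr_9822 (ℓ : J → I → ℤ) (ε : I → Bool) (o : J → Fin 3) (j : J) (k : Fin 2) :
    (∑ a, bb ℓ ε o a) (.inr (j, k)) =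
      if o j = k.succ then ∑ i, sg (ε i) * ℓ j i - 2 else 1 := by
  rw [Finset.sum_apply, Fintype.sum_sum_type, Fintype.sum_prod_type]
  simp only [bb_inl_inr_9822, bb_inr_inr_9822]
  have h2 : ∑ j', ∑ k' : Fin 2, (if j = j' then
      (((if (o j).succAbove k' = k.succ then 1 else 0) : ℤ) - (if o j = k.succ then 1 else 0))
        else 0) = ∑ k' : Fin 2,
      (((if (o j).succAbove k' = k.succ then 1 else 0) : ℤ) - (if o j = k.succ then 1 else 0)) := by
    rw [Finset.sum_eq_single j]
    · simp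
    · intro j' _ hj'
      apply Finset.sum_eq_zero
      intro k' _
      rw [if_neg (fun h => hj' h.symm)]
    · intro h
      exact absurd (Finset.mem_univ _) h
  rw [h2, Fin.sum_univ_two]
  generalize o j = t
  by_cases h : t = k.succ
  · subst h
    have h3 : ∀ k' : Fin 2, (k.succ).succAbove k' ≠ k.succ := fun k' => Fin.succAbove_ne _ _
    simp only [h3, if_true, if_false]
    ring
  · simp only [h, if_false]
    revert h
    fin_cases t <;> fin_cases k <;> simp <;> decide

theorem sg_9822 (e : Bool) : |sg e| ≤ 1 := by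
  cases e <;> simp [sg]

theorem sbd_9822 (ℓ : J → I → ℤ) (hℓ : ∀ j, ∑ i, |ℓ j i| ≤ 2) (c : I → ℤ) (hc : ∀ i, |c i| ≤ 1)
    (j : J) : ∑ i, c i * ℓ j i ≤ 2 := by
  calc ∑ i, c i * ℓ j i ≤ ∑ i, |ℓ j i| := by
        apply Finset.sum_le_sum
        intro i _
        calc c i * ℓ j i ≤ |c i * ℓ j i| := le_abs_self _
          _ = |c i| * |ℓ j i| := abs_mul _ _
          _ ≤ 1 * |ℓ j i| := mul_le_mul_of_nonneg_right (hc i) (abs_nonneg _)
          _ = |ℓ j i| := one_mul _
    _ ≤ 2 := hℓ j

open FanoFib.Comb in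
theorem inP_9822 (ℓ : J → I → ℤ) (hℓ : ∀ j, ∑ i, |ℓ j i| ≤ 2) (o : J → Fin 3) (c : I → ℤ)
    (hc : ∀ i, |c i| ≤ 1) (u : I ⊕ J × Fin 2 → ℤ) (hu1 : ∀ i, u (.inl i) = -c i)
    (hu2 : ∀ j, (∀ k, u (.inr (j, k)) = if o j = k.succ then 2 - ∑ i, c i * ℓ j i else -1) ∨
      (∃ k', ∀ k, u (.inr (j, k)) = (if o j = k.succ then 2 - ∑ i, c i * ℓ j i else -1) +
        ((if (o j).succAbove k' = k.succ then 1 else 0) - (if o j = k.succ then 1 else 0)))) :
    InP ℓ 1 u := by
  refine ⟨?_, ?_⟩
  · intro i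
    rw [hu1]
    have := abs_le.1 (hc i)
    constructor <;> linarith [this.1, this.2]
  · intro j
    have hS := sbd_9822 ℓ hℓ c hc j
    have hsum : ∑ i, ℓ j i * u (.inl i) = -∑ i, c i * ℓ j i := by
      rw [← Finset.sum_neg_distrib]
      apply Finset.sum_congr rfl
      intro i _
      rw [hu1]
      ring
    rw [hsum]
    have hu := hu2 j
    obtain ⟨s, hs⟩ : ∃ s, s = ∑ i, c i * ℓ j i := ⟨_, rfl⟩
    rw [← hs] at hS hu ⊢
    rcases hu with h | ⟨k', h⟩
    · rw [h 0, h 1]
      generalize o j = t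
      fin_cases t <;> simp <;> omega
    · rw [h 0, h 1]
      generalize o j = t
      fin_cases t <;> fin_cases k' <;> simp [Fin.succAbove, Fin.ext_iff, Fin.lt_def] <;> omega

open FanoFib.Comb in
/-- The inequalities of all cones together describe the polytope `InP`. -/
theorem pts_iff (ℓ : J → I → ℤ) (m : ℤ) (u : I ⊕ J × Fin 2 → ℤ) :
    (∀ (ε : I → Bool) (o : J → Fin 3) (a : I ⊕ J × Fin 2), -m ≤ ∑ p, rr ℓ ε o a p * u p) ↔
      InP ℓ m u := by
  constructor
  · intro h
    refine ⟨?_, ?_⟩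
    · intro i
      have h1 := h (fun _ => true) (fun _ => 0) (.inl i)
      have h2 := h (fun _ => false) (fun _ => 0) (.inl i)
      rw [pair_inl_9822] at h1 h2
      simp [sg] at h1 h2
      constructor <;> linarith
    · intro j
      have h1 := h (fun _ => true) (fun _ => 1) (.inr (j, 0))
      have h2 := h (fun _ => true) (fun _ => 0) (.inr (j, 0))
      have h3 := h (fun _ => true) (fun _ => 0) (.inr (j, 1))
      have e1 : rr ℓ (fun _ => true) (fun _ => (1 : Fin 3)) (.inr (j, 0)) = rho ℓ j 0 := rfl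
      have e2 : rr ℓ (fun _ => true) (fun _ => (0 : Fin 3)) (.inr (j, 0)) = rho ℓ j 1 := rfl
      have e3 : rr ℓ (fun _ => true) (fun _ => (0 : Fin 3)) (.inr (j, 1)) = rho ℓ j 2 := rfl
      rw [e1, pair_rho_9822, if_pos rfl] at h1
      rw [e2, pair_rho_9822, if_neg (by decide), if_pos rfl] at h2
      rw [e3, pair_rho_9822, if_neg (by decide), if_neg (by decide)] at h3
      exact ⟨h2, h3, by linarith⟩
  · rintro ⟨h1, h2⟩ ε o a
    rcases a with i | ⟨j, k⟩
    · rw [pair_inl_9822]
      have := h1 i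
      cases ε i
      · simp only [sg]
        simp
        exact this.2
      · simp only [sg]
        simp
        exact this.1
    · have e1 : rr ℓ ε o (.inr (j, k)) = rho ℓ j ((o j).succAbove k) := rfl
      rw [e1, pair_rho_9822]
      obtain ⟨g1, g2, g3⟩ := h2 j
      split_ifs
      · linarith
      · exact g1
      · exact g2

open FanoFib.Comb in
/-- The vertices of the polytope and the adjacent lattice points lie in the polytope
(`-∑ bb` is the vertex of the cone). -/
theorem vertex_mem (ℓ : J → I → ℤ) (hℓ : ∀ j, ∑ i, |ℓ j i| ≤ 2) (ε : I → Bool) (o : J → Fin 3) :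
    InP ℓ 1 (-∑ a, bb ℓ ε o a) ∧ ∀ a, InP ℓ 1 (bb ℓ ε o a - ∑ a', bb ℓ ε o a') := by
  constructor
  · apply inP_9822 ℓ hℓ o (fun i => sg (ε i)) (fun i => sg_9822 _)
    · intro i
      rw [Pi.neg_apply, kap_inl_9822]
    · intro j
      left
      intro k
      rw [Pi.neg_apply, kap_inr_9822]
      split_ifs <;> ring
  · intro a
    rcases a with i0 | ⟨j0, k0⟩
    · apply inP_9822 ℓ hℓ o (fun i => if i = i0 then 0 else sg (ε i))
      · intro i
        by_cases h : i = i0
        · simp [h]
        · simp [h, sg_9822]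
      · intro i
        rw [Pi.sub_apply, kap_inl_9822]
        by_cases h : i = i0
        · subst h
          simp [bb, tt]
        · simp [bb, tt, h]
      · intro j
        left
        intro k
        rw [Pi.sub_apply, kap_inr_9822, bb_inl_inr_9822]
        have hs : ∑ i, (if i = i0 then 0 else sg (ε i)) * ℓ j i =
            ∑ i, sg (ε i) * ℓ j i - sg (ε i0) * ℓ j i0 := by
          have h1 : ∀ i, (if i = i0 then 0 else sg (ε i)) * ℓ j i =
              sg (ε i) * ℓ j i - if i = i0 then sg (ε i0) * ℓ j i0 else 0 := by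
            intro i
            by_cases h : i = i0
            · subst h
              simp
            · simp [h]
          simp only [h1, Finset.sum_sub_distrib]
          simp
        rw [hs]
        split_ifs <;> ring
    · apply inP_9822 ℓ hℓ o (fun i => sg (ε i)) (fun i => sg_9822 _)
      · intro i
        rw [Pi.sub_apply, kap_inl_9822]
        simp [bb, tt]
      · intro j
        by_cases h : j = j0
        · subst h
          right
          refine ⟨k0, fun k => ?_⟩
          rw [Pi.sub_apply, kap_inr_9822, bb_inr_inr_9822, if_pos rfl]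
          by_cases h' : o j = k.succ
          · simp only [h', if_true]
            ring
          · simp only [h', if_false]
            ring
        · left
          intro k
          rw [Pi.sub_apply, kap_inr_9822, bb_inr_inr_9822, if_neg h]
          split_ifs <;> ring

end FanoFib.Tower
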