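import Mathlib
import Pool.Agent.Helper419.KS.Defs
import Pool.Agent.Helper419.KS.Fan
import Pool.Agent.Helper419.KS.Dual
import Pool.Agent.Helper419.KS.Poly
import Pool.Agent.Helper419.KS.Cover

/-! The fan of an iterated `P^1`-bundle over a product of projective planes. -/

namespace FanoFib.Tor

variable {ι : Type} [Fintype ι] [DecidableEq ι]

/-- Very ampleness from the vertices of the polytope. -/
theorem Fan.veryAmple (F : Fan ι) (U : Finset (ι → ℤ)) (hU : ∀ u, u ∈ U ↔ u ∈ F.pts 1)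
    (hv : ∀ c : F.C, -(F.cone c).κ ∈ F.pts 1 ∧ ∀ a, (F.cone c).b a - (F.cone c).κ ∈ F.pts 1) :
    F.variety.VeryAmple 1 := by
  classical
  refine ⟨U.image mon, ?_, ?_⟩
  · intro s hs
    obtain ⟨u, hu, rfl⟩ := Finset.mem_image.1 hs
    exact ⟨mon_ne_zero u, F.mon_mem_antican ((hU u).1 hu)⟩
  · intro c p hp
    set σ := F.cone c with hσ
    have hring : F.variety.ring c = σ.ring := rfl
    refine ⟨mon (-σ.κ), Finset.mem_image.2 ⟨_, (hU _).2 (hv c).1, rfl⟩, ?_, ?_, ?_⟩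
    · refine ⟨fun _ a => mon (σ.b a), ((Matrix.det (Matrix.of σ.b) : ℤ) : σ.ring), ?_, ?_, ?_⟩
      · intro _ a
        exact σ.mon_b_mem a
      · intro hmem
        apply hp.ne_top
        rw [Ideal.eq_top_iff_one]
        obtain ⟨z, hz⟩ := σ.det_isUnit.exists_left_inv
        have h1 : ((z : ℤ) : σ.ring) * ((Matrix.det (Matrix.of σ.b) : ℤ) : σ.ring) = 1 := by
          rw [← Int.cast_mul, hz, Int.cast_one]
        have h2 := p.mul_mem_left ((z : ℤ) : σ.ring) hmem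
        rwa [h1] at h2
      · show mon (-σ.κ) * ∏ k : Fin 1, tjac (fun a => mon (σ.b a)) = _
        rw [Finset.prod_const, Finset.card_univ, Fintype.card_fin, pow_one, Cone.tjac_b, mon_neg]
        have h3 : (mon σ.κ)⁻¹ * (((Matrix.det (Matrix.of σ.b) : ℤ) : KK ι) * mon σ.κ) =
            ((Matrix.det (Matrix.of σ.b) : ℤ) : KK ι) := by
          rw [mul_comm, mul_assoc, mul_inv_cancel₀ (mon_ne_zero _), mul_one]
        rw [h3]
        simp
    · intro f hf
      have h1 : Algebra.adjoin ℂ {r : KK ι | ∃ t ∈ U.image mon, r = t / mon (-σ.κ)} ≤ σ.ring := by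
        rw [Algebra.adjoin_le_iff]
        rintro _ ⟨t, ht, rfl⟩
        obtain ⟨u, hu, rfl⟩ := Finset.mem_image.1 ht
        show mon u / mon (-σ.κ) ∈ σ.ring
        rw [← mon_sub, sub_neg_eq_add]
        refine σ.mon_mem fun a => ?_
        rw [Cone.pr_add, Cone.pr_κ]
        have := (hU u).1 hu c a
        push_cast at this
        linarith
      refine ⟨⟨f, h1 hf⟩, 1, ?_, ?_⟩
      · intro h; exact hp.ne_top ((Ideal.eq_top_iff_one _).2 h)
      · simp
    · rintro f ⟨a, s, hs, rfl⟩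
      have h1 : σ.ring ≤ Algebra.adjoin ℂ {r : KK ι | ∃ t ∈ U.image mon, r = t / mon (-σ.κ)} := by
        rw [Cone.ring, Algebra.adjoin_le_iff]
        rintro _ ⟨i, rfl⟩
        refine Algebra.subset_adjoin ⟨mon (σ.b i - σ.κ),
          Finset.mem_image.2 ⟨_, (hU _).2 ((hv c).2 i), rfl⟩, ?_⟩
        show mon (σ.b i) = mon (σ.b i - σ.κ) / mon (-σ.κ)
        rw [← mon_sub]
        congr 1
        abel
      have hs0 : (s : KK ι) ≠ 0 := by
        intro h
        apply hs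
        have : s = 0 := Subtype.ext h
        rw [this]
        exact p.zero_mem
      refine ⟨a, h1 a.2, s, h1 s.2, hs0, ⟨1, s, hs, ?_⟩, rfl⟩
      show (s : KK ι)⁻¹ = ((1 : σ.ring) : KK ι) / (s : KK ι)
      simp

end FanoFib.Tor

namespace FanoFib.Tower

open FanoFib.Tor FanoFib.Comb

variable {I J : Type} [Fintype I] [DecidableEq I] [Fintype J] [DecidableEq J]

/-- The cones of the tower. -/
def towerCone (ℓ : J → I → ℤ) (ε : I → Bool) (o : J → Fin 3) : Cone (I ⊕ J × Fin 2) :=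
  ⟨bb ℓ ε o, rr ℓ ε o, dual ℓ ε o⟩

/-- The fan of the tower. -/
noncomputable def towerFan (ℓ : J → I → ℤ) : Fan (I ⊕ J × Fin 2) where
  C := (I → Bool) × (J → Fin 3)
  cone c := towerCone ℓ c.1 c.2
  separated O c d hc hd a :=
    separated ℓ O c.1 d.1 c.2 d.2 (fun a => hc _ (Cone.mon_b_mem _ a))
      (fun a => hd _ (Cone.mon_b_mem _ a)) a
  complete O _ := by
    obtain ⟨ε, o, h⟩ := complete ℓ O
    exact ⟨(ε, o), h⟩

instance (ℓ : J → I → ℤ) : Nonempty (towerFan ℓ).C := ⟨(fun _ => true, fun _ => 0)⟩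

theorem mem_pts (ℓ : J → I → ℤ) (m : ℕ) (u : I ⊕ J × Fin 2 → ℤ) :
    u ∈ (towerFan ℓ).pts m ↔ InP ℓ m u := by
  rw [← pts_iff ℓ m u]
  constructor
  · intro h ε o a
    exact h (ε, o) a
  · intro h c a
    exact h c.1 c.2 a

/-- The lattice points of the polytope are finite in number. -/
theorem finite_pts (ℓ : J → I → ℤ) (m : ℕ) : Set.Finite {u : I ⊕ J × Fin 2 → ℤ | InP ℓ m u} := by
  set B : ℤ := ∑ j, ∑ i, |ℓ j i| with hB
  have hB0 : 0 ≤ B := Finset.sum_nonneg fun j _ => Finset.sum_nonneg fun i _ => abs_nonneg _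
  refine Set.Finite.subset (Set.finite_Icc (fun _ => -(m : ℤ)) (fun _ => (2 * m + B * m : ℤ))) ?_
  rintro u ⟨h1, h2⟩
  have hsum : ∀ j, ∑ i, ℓ j i * u (.inl i) ≤ B * m := by
    intro j
    have h3 : ∑ i, ℓ j i * u (.inl i) ≤ ∑ i, |ℓ j i| * m := by
      refine Finset.sum_le_sum fun i _ => ?_
      have h4 : |u (.inl i)| ≤ m := abs_le.2 (h1 i)
      calc ℓ j i * u (.inl i) ≤ |ℓ j i * u (.inl i)| := le_abs_self _
        _ = |ℓ j i| * |u (.inl i)| := abs_mul _ _
        _ ≤ |ℓ j i| * m := by gcongr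
    rw [← Finset.sum_mul] at h3
    refine h3.trans ?_
    have h5 : ∑ i, |ℓ j i| ≤ B :=
      Finset.single_le_sum (f := fun j => ∑ i, |ℓ j i|)
        (fun j _ => Finset.sum_nonneg fun i _ => abs_nonneg _) (Finset.mem_univ j)
    gcongr
  have hm : (0 : ℤ) ≤ m := Int.natCast_nonneg m
  have hBm : 0 ≤ B * m := mul_nonneg hB0 hm
  constructor
  · rintro (i | ⟨j, k⟩)
    · exact (h1 i).1
    · fin_cases k
      · exact (h2 j).1
      · exact (h2 j).2.1
  · rintro (i | ⟨j, k⟩)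
    · have := (h1 i).2
      show u (.inl i) ≤ 2 * m + B * m
      linarith
    · have h6 := h2 j
      have h7 := hsum j
      fin_cases k
      · show u (.inr (j, 0)) ≤ 2 * m + B * m
        linarith [h6.2.1, h6.2.2]
      · show u (.inr (j, 1)) ≤ 2 * m + B * m
        linarith [h6.1, h6.2.2]

/-- The finite set of lattice points. -/
noncomputable def pt (ℓ : J → I → ℤ) (m : ℕ) : Finset (I ⊕ J × Fin 2 → ℤ) :=
  (finite_pts ℓ m).toFinset

theorem mem_pt (ℓ : J → I → ℤ) (m : ℕ) (u : I ⊕ J × Fin 2 → ℤ) :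
    u ∈ pt ℓ m ↔ InP ℓ m u := by simp [pt]

theorem mem_pt' (ℓ : J → I → ℤ) (m : ℕ) (u : I ⊕ J × Fin 2 → ℤ) :
    u ∈ pt ℓ m ↔ u ∈ (towerFan ℓ).pts m := by rw [mem_pt, mem_pts]

/-- The tower is a Fano variety if the twists are small. -/
theorem isFano (ℓ : J → I → ℤ) (hℓ : ∀ j, ∑ i, |ℓ j i| ≤ 2) : (towerFan ℓ).variety.IsFano := by
  refine ⟨1, le_rfl, Fan.veryAmple _ (pt ℓ 1) (fun u => mem_pt' ℓ 1 u) ?_⟩
  rintro ⟨ε, o⟩
  obtain ⟨h1, h2⟩ := vertex_mem ℓ hℓ ε o
  constructor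
  · rw [mem_pts]
    exact_mod_cast h1
  · intro a
    rw [mem_pts]
    exact_mod_cast h2 a

/-- All generators of the fan. -/
def ray (ℓ : J → I → ℤ) : (I × Bool) ⊕ (J × Fin 3) → I ⊕ J × Fin 2 → ℤ
  | .inl x => sg x.2 • Pi.single (.inl x.1) 1
  | .inr x => rho ℓ x.1 x.2

theorem ray_iff (ℓ : J → I → ℤ) (m : ℤ) (u : I ⊕ J × Fin 2 → ℤ) :
    (∀ ρ, -m ≤ ∑ p, ray ℓ ρ p * u p) ↔ InP ℓ m u := by
  have h1 : ∀ (i : I) (e : Bool), ∑ p, ray ℓ (.inl (i, e)) p * u p = sg e * u (.inl i) := by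
    intro i e
    rw [Finset.sum_eq_single (Sum.inl i)]
    · simp [ray]
    · intro p _ hp
      simp [ray, hp]
    · intro h
      exact absurd (Finset.mem_univ _) h
  have h2 : ∀ (j : J) (k : Fin 3), ∑ p, ray ℓ (.inr (j, k)) p * u p =
      if k = 0 then ∑ i, ℓ j i * u (.inl i) - u (.inr (j, 0)) -
        u (.inr (j, 1)) else if k = 1 then u (.inr (j, 0)) else u (.inr (j, 1)) :=
    fun j k => pair_rho_9822 ℓ j k u
  constructor
  · intro h
    refine ⟨fun i => ?_, fun j => ?_⟩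
    · have h3 := h (.inl (i, true))
      have h4 := h (.inl (i, false))
      rw [h1] at h3 h4
      simp only [sg, if_true, Bool.false_eq_true, if_false] at h3 h4
      constructor <;> linarith
    · have h3 := h (.inr (j, 0))
      have h4 := h (.inr (j, 1))
      have h5 := h (.inr (j, 2))
      rw [h2] at h3 h4 h5
      have e1 : ¬ ((1 : Fin 3) = 0) := by decide
      have e2 : ¬ ((2 : Fin 3) = 0) := by decide
      have e3 : ¬ ((2 : Fin 3) = 1) := by decide
      simp only [if_true, e1, e2, e3, if_false] at h3 h4 h5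
      exact ⟨h4, h5, by linarith⟩
  · rintro ⟨h3, h4⟩ (⟨i, e⟩ | ⟨j, k⟩)
    · rw [h1]
      have := h3 i
      cases e
      · simp only [sg, Bool.false_eq_true, if_false]; linarith
      · simp only [sg, if_true]; linarith
    · rw [h2]
      have := h4 j
      split_ifs
      · linarith
      · exact this.1
      · exact this.2.1

theorem ray_bdd (ℓ : J → I → ℤ) :
    Bornology.IsBounded {x : I ⊕ J × Fin 2 → ℝ | ∀ ρ, -1 ≤ ∑ p, (ray ℓ ρ p : ℝ) * x p} := by
  set B : ℝ := ∑ j, ∑ i, |(ℓ j i : ℝ)| with hB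
  have hB0 : 0 ≤ B := Finset.sum_nonneg fun j _ => Finset.sum_nonneg fun i _ => abs_nonneg _
  refine (isCompact_Icc (a := fun _ : I ⊕ J × Fin 2 => (-1 : ℝ))
    (b := fun _ => (2 + B : ℝ))).isBounded.subset ?_
  intro x hx
  have h1 : ∀ (i : I) (e : Bool), ∑ p, (ray ℓ (.inl (i, e)) p : ℝ) * x p = (sg e : ℝ) * x (.inl i) := by
    intro i e
    rw [Finset.sum_eq_single (Sum.inl i)]
    · simp [ray]
    · intro p _ hp
      simp [ray, hp]
    · intro h
      exact absurd (Finset.mem_univ _) h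
  have h2 : ∀ (j : J) (k : Fin 3), ∑ p, (ray ℓ (.inr (j, k)) p : ℝ) * x p =
      if k = 0 then ∑ i, (ℓ j i : ℝ) * x (.inl i) - x (.inr (j, 0)) -
        x (.inr (j, 1)) else if k = 1 then x (.inr (j, 0)) else x (.inr (j, 1)) := by
    intro j k
    rw [Fintype.sum_sum_type, Fintype.sum_prod_type]
    have h2 : ∑ j', ∑ k' : Fin 2, (ray ℓ (.inr (j, k)) (Sum.inr (j', k')) : ℝ) * x (Sum.inr (j', k')) =
        ∑ k' : Fin 2, (ray ℓ (.inr (j, k)) (Sum.inr (j, k')) : ℝ) * x (Sum.inr (j, k')) := by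
      rw [Finset.sum_eq_single j]
      · intro j' _ hj'
        apply Finset.sum_eq_zero
        intro k' _
        simp [ray, rho, hj']
      · intro h
        exact absurd (Finset.mem_univ _) h
    rw [h2, Fin.sum_univ_two]
    fin_cases k
    · simp [ray, rho]
      ring
    · simp [ray, rho]
    · simp [ray, rho]
  have h3 : ∀ i, -1 ≤ x (.inl i) ∧ x (.inl i) ≤ 1 := by
    intro i
    have h3 := hx (.inl (i, true))
    have h4 := hx (.inl (i, false))
    rw [h1] at h3 h4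
    simp only [sg, if_true, Bool.false_eq_true, if_false] at h3 h4
    push_cast at h3 h4
    constructor <;> linarith
  have h4 : ∀ j, -1 ≤ x (.inr (j, 0)) ∧ -1 ≤ x (.inr (j, 1)) ∧
      x (.inr (j, 0)) + x (.inr (j, 1)) ≤ 1 + ∑ i, (ℓ j i : ℝ) * x (.inl i) := by
    intro j
    have h3 := hx (.inr (j, 0))
    have h4 := hx (.inr (j, 1))
    have h5 := hx (.inr (j, 2))
    rw [h2] at h3 h4 h5
    have e1 : ¬ ((1 : Fin 3) = 0) := by decide
    have e2 : ¬ ((2 : Fin 3) = 0) := by decide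
    have e3 : ¬ ((2 : Fin 3) = 1) := by decide
    simp only [if_true, e1, e2, e3, if_false] at h3 h4 h5
    exact ⟨h4, h5, by linarith⟩
  have hsum : ∀ j, ∑ i, (ℓ j i : ℝ) * x (.inl i) ≤ B := by
    intro j
    have h6 : ∑ i, (ℓ j i : ℝ) * x (.inl i) ≤ ∑ i, |(ℓ j i : ℝ)| := by
      refine Finset.sum_le_sum fun i _ => ?_
      have h4 : |x (.inl i)| ≤ 1 := abs_le.2 (h3 i)
      calc (ℓ j i : ℝ) * x (.inl i) ≤ |(ℓ j i : ℝ) * x (.inl i)| := le_abs_self _
        _ = |(ℓ j i : ℝ)| * |x (.inl i)| := abs_mul _ _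
        _ ≤ |(ℓ j i : ℝ)| * 1 := by gcongr
        _ = _ := mul_one _
    refine h6.trans ?_
    exact Finset.single_le_sum (f := fun j => ∑ i, |(ℓ j i : ℝ)|)
        (fun j _ => Finset.sum_nonneg fun i _ => abs_nonneg _) (Finset.mem_univ j)
  constructor
  · rintro (i | ⟨j, k⟩)
    · exact (h3 i).1
    · fin_cases k
      · exact (h4 j).1
      · exact (h4 j).2.1
  · rintro (i | ⟨j, k⟩)
    · have := (h3 i).2
      show x (.inl i) ≤ 2 + B
      linarith
    · have h6 := h4 j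
      have h7 := hsum j
      fin_cases k
      · show x (.inr (j, 0)) ≤ 2 + B
        linarith [h6.2.1, h6.2.2]
      · show x (.inr (j, 1)) ≤ 2 + B
        linarith [h6.1, h6.2.2]

/-- The inequalities of the chart with all signs positive and `o = 0`. -/
theorem base_le (ℓ : J → I → ℤ) (m : ℕ) (u : I ⊕ J × Fin 2 → ℤ)
    (hu : u ∈ (towerFan ℓ).pts m) (p : I ⊕ J × Fin 2) : -(m : ℤ) ≤ u p := by
  rw [mem_pts] at hu
  obtain ⟨h1, h2⟩ := hu
  rcases p with i | ⟨j, k⟩
  · exact (h1 i).1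
  · fin_cases k
    · exact (h2 j).1
    · exact (h2 j).2.1

end FanoFib.Tower
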