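import Mathlib
import Pool.Agent.Helper419.KS.TowerFan
import Pool.Agent.Helper419.KS.Ren

/-! The smooth morphism forgetting some of the `P^1`-factors. -/

namespace FanoFib.Tower

open FanoFib.Tor FanoFib.Comb

variable {I I' J : Type} [Fintype I] [DecidableEq I] [Fintype I'] [DecidableEq I']
  [Fintype J] [DecidableEq J]

/-- The map of index sets. -/
def gg (f : I' → I) : I' ⊕ J × Fin 2 → I ⊕ J × Fin 2 := Sum.map f id

omit [Fintype I] [DecidableEq I] [Fintype I'] [DecidableEq I'] [Fintype J] [DecidableEq J] in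
theorem gg_inj {f : I' → I} (hf : Function.Injective f) :
    Function.Injective (gg (J := J) f) := Sum.map_injective.2 ⟨hf, Function.injective_id⟩

/-- The map of polynomial rings into the big field. -/
noncomputable def gmap (f : I' → I) :
    MvPolynomial (I' ⊕ J × Fin 2) ℂ →ₐ[ℂ] KK (I ⊕ J × Fin 2) :=
  (IsScalarTower.toAlgHom ℂ (MvPolynomial (I ⊕ J × Fin 2) ℂ) (KK (I ⊕ J × Fin 2))).comp
      (MvPolynomial.rename (gg (J := J) f))

omit [Fintype I] [DecidableEq I] [Fintype I'] [DecidableEq I'] [Fintype J] [DecidableEq J] in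
theorem gmap_inj {f : I' → I} (hf : Function.Injective f) :
    Function.Injective (gmap (J := J) f) := by
  intro p q h
  have h1 := IsFractionRing.injective (MvPolynomial (I ⊕ J × Fin 2) ℂ)
    (KK (I ⊕ J × Fin 2)) h
  exact MvPolynomial.rename_injective _ (gg_inj hf) h1

/-- The inclusion of function fields. -/
noncomputable def pull {f : I' → I} (hf : Function.Injective f) :
    KK (I' ⊕ J × Fin 2) →ₐ[ℂ] KK (I ⊕ J × Fin 2) :=
  IsFractionRing.liftAlgHom (gmap_inj (J := J) hf)

omit [Fintype I] [DecidableEq I] [Fintype I'] [DecidableEq I'] [Fintype J] [DecidableEq J] in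
theorem pull_xx {f : I' → I} (hf : Function.Injective f) (p : I' ⊕ J × Fin 2) :
    pull hf (xx p) = xx (gg f p) := by
  have h1 : pull hf (xx p) = gmap (J := J) f (MvPolynomial.X p) :=
    IsFractionRing.lift_algebraMap (gmap_inj (J := J) hf) _
  rw [h1, gmap, AlgHom.comp_apply, MvPolynomial.rename_X]
  rfl

theorem pull_mon {f : I' → I} (hf : Function.Injective f) (u : I' ⊕ J × Fin 2 → ℤ)
    (w : I ⊕ J × Fin 2 → ℤ) (h1 : ∀ p, w (gg f p) = u p) (h2 : ∀ q, q ∉ Set.range (gg (J := J) f) → w q = 0) :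
    pull hf (mon u) = mon w := by
  rw [mon, map_prod, mon]
  rw [← Finset.prod_subset (Finset.subset_univ (Finset.univ.image (gg (J := J) f)))]
  · rw [Finset.prod_image fun a _ b _ h => gg_inj hf h]
    refine Finset.prod_congr rfl fun p _ => ?_
    rw [map_zpow₀, pull_xx, h1]
  · intro q _ hq
    rw [h2 q, zpow_zero]
    rintro ⟨p, rfl⟩
    exact hq (Finset.mem_image_of_mem _ (Finset.mem_univ p))

theorem pull_bb {f : I' → I} (hf : Function.Injective f) (ℓ : J → I → ℤ) (ε : I → Bool)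
    (o : J → Fin 3) (a : I' ⊕ J × Fin 2) :
    pull hf (mon (bb (fun j i => ℓ j (f i)) (fun i => ε (f i)) o a)) = mon (bb ℓ ε o (gg f a)) := by
  have htt : ∀ (j : J) (k : Fin 3) (p : I' ⊕ J × Fin 2),
      (tt j k : I ⊕ J × Fin 2 → ℤ) (gg f p) = (tt j k : I' ⊕ J × Fin 2 → ℤ) p := by
    rintro j k (i | p) <;> rfl
  have htt' : ∀ (j : J) (k : Fin 3) (q : I ⊕ J × Fin 2), q ∉ Set.range (gg (J := J) f) →
      (tt j k : I ⊕ J × Fin 2 → ℤ) q = 0 := by
    rintro j k (i | p) hq
    · rfl
    · exact absurd ⟨.inr p, rfl⟩ hq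
  apply pull_mon
  · intro p
    rcases a with i | a
    · show (sg (ε (f i)) • (Pi.single (Sum.inl (f i)) 1 + ∑ j, ℓ j (f i) • tt j (o j)) :
        I ⊕ J × Fin 2 → ℤ) (gg f p) = (sg (ε (f i)) • (Pi.single (Sum.inl i) 1 +
          ∑ j, ℓ j (f i) • tt j (o j)) : I' ⊕ J × Fin 2 → ℤ) p
      simp only [Pi.smul_apply, Pi.add_apply, Finset.sum_apply, htt]
      congr 2
      have hinj := gg_inj (J := J) hf
      have : (Sum.inl (f i) : I ⊕ J × Fin 2) = gg f (Sum.inl i) := rfl
      rw [this]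
      by_cases hp : p = Sum.inl i
      · subst hp; simp
      · rw [Pi.single_eq_of_ne hp, Pi.single_eq_of_ne fun h => hp (hinj h)]
    · show (tt a.1 ((o a.1).succAbove a.2) - tt a.1 (o a.1) : I ⊕ J × Fin 2 → ℤ) (gg f p) =
        (tt a.1 ((o a.1).succAbove a.2) - tt a.1 (o a.1) : I' ⊕ J × Fin 2 → ℤ) p
      simp only [Pi.sub_apply, htt]
  · intro q hq
    rcases a with i | a
    · show (sg (ε (f i)) • (Pi.single (Sum.inl (f i)) 1 + ∑ j, ℓ j (f i) • tt j (o j)) :
        I ⊕ J × Fin 2 → ℤ) q = 0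
      have hne : q ≠ Sum.inl (f i) := by
        rintro rfl
        exact hq ⟨Sum.inl i, rfl⟩
      simp only [Pi.smul_apply, Pi.add_apply, Finset.sum_apply, htt' _ _ q hq,
        Pi.single_eq_of_ne hne]
      simp
    · show (tt a.1 ((o a.1).succAbove a.2) - tt a.1 (o a.1) : I ⊕ J × Fin 2 → ℤ) q = 0
      simp only [Pi.sub_apply, htt' _ _ q hq, sub_zero]

theorem pull_mem {f : I' → I} (hf : Function.Injective f) (ℓ : J → I → ℤ) (ε : I → Bool)
    (o : J → Fin 3) (b : KK (I' ⊕ J × Fin 2))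
    (hb : b ∈ (towerCone (fun j i => ℓ j (f i)) (fun i => ε (f i)) o).ring) :
    pull hf b ∈ (towerCone ℓ ε o).ring := by
  have h1 : (towerCone (fun j i => ℓ j (f i)) (fun i => ε (f i)) o).ring ≤
      (towerCone ℓ ε o).ring.comap (pull hf) := by
    rw [Cone.ring, Algebra.adjoin_le_iff]
    rintro _ ⟨a, rfl⟩
    have h2 : pull hf (mon (bb (fun j i => ℓ j (f i)) (fun i => ε (f i)) o a)) ∈
        (towerCone ℓ ε o).ring := by
      rw [pull_bb]
      exact Cone.mon_b_mem (towerCone ℓ ε o) _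
    exact h2
  exact h1 hb

theorem equivRing_X {ι : Type} [Fintype ι] [DecidableEq ι] (σ : Cone ι) (a : ι) :
    ((σ.equivRing (MvPolynomial.X a) : σ.ring) : KK ι) = mon (σ.b a) := by
  show σ.toRing (MvPolynomial.X a) = _
  rw [Cone.toRing, MvPolynomial.aeval_X]

/-- The restriction of `pull` to a chart. -/
noncomputable def pullC {f : I' → I} (hf : Function.Injective f) (ℓ : J → I → ℤ) (ε : I → Bool)
    (o : J → Fin 3) : (towerCone (fun j i => ℓ j (f i)) (fun i => ε (f i)) o).ring →ₐ[ℂ]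
      (towerCone ℓ ε o).ring :=
  ((pull hf).comp (towerCone (fun j i => ℓ j (f i)) (fun i => ε (f i)) o).ring.val).codRestrict
    (towerCone ℓ ε o).ring (fun b => pull_mem hf ℓ ε o b b.2)

theorem pullC_eq {f : I' → I} (hf : Function.Injective f) (ℓ : J → I → ℤ) (ε : I → Bool)
    (o : J → Fin 3) (p : MvPolynomial (I' ⊕ J × Fin 2) ℂ) :
    pullC hf ℓ ε o ((towerCone (fun j i => ℓ j (f i)) (fun i => ε (f i)) o).equivRing p) =
      (towerCone ℓ ε o).equivRing (MvPolynomial.rename (gg (J := J) f) p) := by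
  have h2 : (pullC hf ℓ ε o).comp
      ((towerCone (fun j i => ℓ j (f i)) (fun i => ε (f i)) o).equivRing.toAlgHom) =
    (towerCone ℓ ε o).equivRing.toAlgHom.comp (MvPolynomial.rename (gg (J := J) f)) := by
    apply MvPolynomial.algHom_ext
    intro a
    apply Subtype.ext
    have h3 : ((pullC hf ℓ ε o ((towerCone (fun j i => ℓ j (f i)) (fun i => ε (f i)) o).equivRing
        (MvPolynomial.X a)) : (towerCone ℓ ε o).ring) : KK (I ⊕ J × Fin 2)) =
        mon (bb ℓ ε o (gg f a)) := by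
      rw [← pull_bb hf]
      exact congrArg (pull hf)
        (equivRing_X (towerCone (fun j i => ℓ j (f i)) (fun i => ε (f i)) o) a)
    have h4 : (((towerCone ℓ ε o).equivRing (MvPolynomial.rename (gg (J := J) f)
        (MvPolynomial.X a)) : (towerCone ℓ ε o).ring) : KK (I ⊕ J × Fin 2)) =
        mon (bb ℓ ε o (gg f a)) := by
      rw [MvPolynomial.rename_X, equivRing_X]
      rfl
    exact h3.trans h4.symm
  exact AlgHom.congr_fun h2 p

theorem pullC_smooth {f : I' → I} (hf : Function.Injective f) (ℓ : J → I → ℤ) (ε : I → Bool)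
    (o : J → Fin 3) : RingHom.Smooth (pullC hf ℓ ε o).toRingHom := by
  have s1 : RingHom.Smooth ((towerCone ℓ ε o).equivRing.toAlgHom.toRingHom) :=
    RingHom.Smooth.of_bijective (towerCone ℓ ε o).equivRing.bijective
  have s2 : RingHom.Smooth
      ((towerCone (fun j i => ℓ j (f i)) (fun i => ε (f i)) o).equivRing.symm.toAlgHom.toRingHom) :=
    RingHom.Smooth.of_bijective
      (towerCone (fun j i => ℓ j (f i)) (fun i => ε (f i)) o).equivRing.symm.bijective
  have key : (pullC hf ℓ ε o).toRingHom =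
      ((towerCone ℓ ε o).equivRing.toAlgHom.toRingHom.comp
        (MvPolynomial.rename (gg (J := J) f) :
            MvPolynomial (I' ⊕ J × Fin 2) ℂ →ₐ[ℂ] MvPolynomial (I ⊕ J × Fin 2) ℂ).toRingHom).comp
        ((towerCone (fun j i => ℓ j (f i)) (fun i => ε (f i)) o).equivRing.symm.toAlgHom.toRingHom) := by
    apply RingHom.ext
    intro b
    have h := pullC_eq hf ℓ ε o
      ((towerCone (fun j i => ℓ j (f i)) (fun i => ε (f i)) o).equivRing.symm b)
    rw [AlgEquiv.apply_symm_apply] at h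
    exact h
  rw [key]
  exact s2.comp ((smooth_rename_419 _ (gg_inj hf)).comp s1)

/-- The smooth morphism. -/
noncomputable def towerMor {f : I' → I} (hf : Function.Injective f) (ℓ : J → I → ℤ) :
    SmoothMorphism (towerFan ℓ).variety (towerFan fun j i => ℓ j (f i)).variety where
  pullback := pull hf
  smooth := by
    rintro ⟨ε, o⟩
    exact ⟨(fun i => ε (f i), o), fun b => pull_mem hf ℓ ε o b b.2, pullC_smooth hf ℓ ε o⟩

end FanoFib.Tower
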