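import Mathlib
import Pool.Agent.Helper419.KS.Gamma
import Pool.Agent.Helper419.KS.A1

/-! K-semistability of toric varieties whose polytopes have lattice points summing to zero. -/

open MeasureTheory Filter
open scoped ENNReal

namespace FanoFib.Tor

open FanoFib.Val FanoFib.Ana

variable {ι : Type} [Fintype ι] [DecidableEq ι]

namespace Fan

variable (F : Fan ι)

/-- Elements of the anticanonical module as finite sums of monomials. -/
theorem exists_sum [Nonempty F.C] {m : ℕ} {f : KK ι} (hf : f ∈ F.variety.antican m) :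
    ∃ (G : Finset (ι → ℤ)) (c : (ι → ℤ) → ℂ), (∀ w ∈ G, c w ≠ 0) ∧ (∀ w ∈ G, w ∈ F.pts m) ∧
      f = ∑ w ∈ G, c w • mon w := by
  have hf' : f ∈ Submodule.span ℂ (mon '' F.pts m) := by
    have := F.antican_eq m
    rw [← this]; exact hf
  rw [Finsupp.span_image_eq_map_linearCombination] at hf'
  obtain ⟨l, hl, rfl⟩ := hf'
  refine ⟨l.support, l, fun w hw => Finsupp.mem_support_iff.1 hw, fun w hw => hl hw, ?_⟩
  rw [Finsupp.linearCombination_apply, Finsupp.sum]

theorem span_mon_finset (U : Finset (ι → ℤ)) :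
    Submodule.span ℂ (mon '' (U : Set (ι → ℤ))) =
      Submodule.span ℂ (Set.range fun u : U => (mon (u : ι → ℤ) : KK ι)) := by
  congr 1
  ext x
  constructor
  · rintro ⟨u, hu, rfl⟩; exact ⟨⟨u, hu⟩, rfl⟩
  · rintro ⟨⟨u, hu⟩, rfl⟩; exact ⟨u, hu, rfl⟩

theorem finrank_span_mon (U : Finset (ι → ℤ)) :
    Module.finrank ℂ (Submodule.span ℂ (mon '' (U : Set (ι → ℤ)))) = U.card := by
  have h := linearIndependent_mon.comp (fun u : U => (u : ι → ℤ)) Subtype.val_injective
  have h' : LinearIndependent ℂ (fun u : U => (mon (u : ι → ℤ) : KK ι)) := h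
  rw [span_mon_finset, finrank_span_eq_card h']
  simp

theorem finrank_antican [Nonempty F.C] {m : ℕ} {U : Finset (ι → ℤ)}
    (hU : ∀ u, u ∈ U ↔ u ∈ F.pts m) :
    Module.finrank ℂ (F.variety.antican m) = U.card := by
  have h1 : F.pts m = (U : Set (ι → ℤ)) := by
    ext u; simp [hU]
  rw [F.antican_eq m, h1]
  exact finrank_span_mon U

theorem nsmul_coe (n : ℕ) (z : ℤ) : n • (z : WithTop ℤ) = ((n * z : ℤ) : WithTop ℤ) := by
  induction n with
  | zero => simp
  | succ n ih =>
    rw [succ_nsmul, ih, ← WithTop.coe_add]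
    congr 1
    push_cast
    ring

theorem vcoe {v : AddValuation (KK ι) (WithTop ℤ)} {f : KK ι} (hf : f ≠ 0) :
    ∃ z : ℤ, v f = (z : WithTop ℤ) := by
  have : v f ≠ ⊤ := by
    rw [Ne, v.top_iff]; exact hf
  exact ⟨(v f).untop this, (WithTop.coe_untop _ this).symm⟩

/-- The valuation ring of a divisor. -/
noncomputable def valRing (v : AddValuation (KK ι) (WithTop ℤ)) : ValuationSubring (KK ι) where
  carrier := {f | 0 ≤ v f}
  mul_mem' := by
    intro a b ha hb
    show 0 ≤ v (a * b)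
    rw [v.map_mul]; exact add_nonneg ha hb
  one_mem' := by show 0 ≤ v 1; rw [v.map_one]
  add_mem' := by
    intro a b ha hb
    exact (le_min ha hb).trans (v.map_add a b)
  zero_mem' := by show 0 ≤ v 0; rw [v.map_zero]; exact le_top
  neg_mem' := by
    intro a ha
    show 0 ≤ v (-a)
    rw [v.map_neg]; exact ha
  mem_or_inv_mem' := by
    intro x
    by_cases hx : x = 0
    · left; subst hx; show 0 ≤ v 0; rw [v.map_zero]; exact le_top
    · have h1 : v x + v x⁻¹ = 0 := by
        rw [← v.map_mul, mul_inv_cancel₀ hx, v.map_one]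
      obtain ⟨z, hz⟩ := vcoe (v := v) hx
      obtain ⟨w, hw⟩ := vcoe (v := v) (inv_ne_zero hx)
      rw [hz, hw] at h1
      have h2 : z + w = 0 := by exact_mod_cast h1
      rcases le_total 0 z with h3 | h3
      · left; show 0 ≤ v x; rw [hz]; exact_mod_cast h3
      · right; show 0 ≤ v x⁻¹; rw [hw]
        have : 0 ≤ w := by omega
        exact_mod_cast this

variable {F}

/-- Lower bound for Jacobians of elements of the valuation ring. -/
theorem ordE_le (E : F.variety.DivisorOver) :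
    (∀ t : ι → KK ι, (∀ i, 0 ≤ E.v (t i)) → (E.ordE : WithTop ℤ) ≤ E.v (tjac t)) ∧
    (∀ (c : F.C) (t : ι → KK ι), (∀ a ∈ (F.cone c).ring, 0 ≤ E.v a) →
      (∀ i, t i ∈ (F.cone c).ring) → (E.ordX : WithTop ℤ) ≤ E.v (tjac t)) ∧
    (∃ (c : F.C) (t : ι → KK ι), (∀ a ∈ (F.cone c).ring, 0 ≤ E.v a) ∧
      (∀ i, t i ∈ (F.cone c).ring) ∧ E.v (tjac t) = (E.ordX : WithTop ℤ)) := by
  obtain ⟨B, hfg, hB, hfrac⟩ := E.geometric
  obtain ⟨μ, hμ⟩ := exists_bound (fun i => frame (ι := ι) i) E.v E.const B hfg hB hfrac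
  obtain ⟨k, hk⟩ := exists_det_bound (fun i => frame (ι := ι) i) E.v μ hμ
  have hbddE : BddBelow {z : ℤ | ∃ t : ι → KK ι, (∀ i, 0 ≤ E.v (t i)) ∧
      E.v (tjac t) = (z : WithTop ℤ)} := by
    refine ⟨k, ?_⟩
    rintro z ⟨t, ht, hz⟩
    have := hk t ht
    rw [show Matrix.det (Matrix.of fun i j => frame j (t i)) = tjac t from rfl, hz] at this
    exact_mod_cast this
  have hbddX : BddBelow {z : ℤ | ∃ (c : F.C) (t : ι → KK ι), (∀ a ∈ (F.cone c).ring, 0 ≤ E.v a) ∧
      (∀ i, t i ∈ (F.cone c).ring) ∧ E.v (tjac t) = (z : WithTop ℤ)} := by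
    refine ⟨k, ?_⟩
    rintro z ⟨c, t, hc, ht, hz⟩
    have := hk t fun i => hc _ (ht i)
    rw [show Matrix.det (Matrix.of fun i j => frame j (t i)) = tjac t from rfl, hz] at this
    exact_mod_cast this
  have hE : E.ordE = sInf {z : ℤ | ∃ t : ι → KK ι, (∀ i, 0 ≤ E.v (t i)) ∧
      E.v (tjac t) = (z : WithTop ℤ)} := rfl
  have hX : E.ordX = sInf {z : ℤ | ∃ (c : F.C) (t : ι → KK ι),
      (∀ a ∈ (F.cone c).ring, 0 ≤ E.v a) ∧
      (∀ i, t i ∈ (F.cone c).ring) ∧ E.v (tjac t) = (z : WithTop ℤ)} := rfl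
  refine ⟨?_, ?_, ?_⟩
  · intro t ht
    by_cases h0 : tjac t = 0
    · rw [h0, E.v.map_zero]; exact le_top
    · obtain ⟨z, hz⟩ := vcoe (v := E.v) h0
      rw [hz, hE]
      exact_mod_cast csInf_le hbddE ⟨t, ht, hz⟩
  · intro c t hc ht
    by_cases h0 : tjac t = 0
    · rw [h0, E.v.map_zero]; exact le_top
    · obtain ⟨z, hz⟩ := vcoe (v := E.v) h0
      rw [hz, hX]
      exact_mod_cast csInf_le hbddX ⟨c, t, hc, ht, hz⟩
  · have hne : {z : ℤ | ∃ (c : F.C) (t : ι → KK ι), (∀ a ∈ (F.cone c).ring, 0 ≤ E.v a) ∧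
        (∀ i, t i ∈ (F.cone c).ring) ∧ E.v (tjac t) = (z : WithTop ℤ)}.Nonempty := by
      obtain ⟨c, hc⟩ := F.variety.complete (valRing E.v) fun z => by
        show 0 ≤ E.v (algebraMap ℂ (KK ι) z)
        by_cases hz : z = 0
        · rw [hz, map_zero, E.v.map_zero]; exact le_top
        · rw [E.const z hz]
      have h0 : tjac (fun a => mon ((F.cone c).b a)) ≠ 0 := by
        rw [Cone.tjac_b]
        exact mul_ne_zero (Int.cast_ne_zero.2 (F.cone c).det_isUnit.ne_zero) (mon_ne_zero _)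
      obtain ⟨z, hz⟩ := vcoe (v := E.v) h0
      exact ⟨z, c, _, hc, fun i => (F.cone c).mon_b_mem i, hz⟩
    have := Int.csInf_mem hne hbddX
    rw [← hX] at this
    exact this

/-- K-semistability, if the lattice points of all multiples of the polytope sum to zero. -/
theorem semistable [Nonempty F.C] (hbase : ∀ (m : ℕ), ∀ u ∈ F.pts m, ∀ i, -(m : ℤ) ≤ u i)
    {R : Type} [Finite R] (r : R → ι → ℤ)
    (hbdd : Bornology.IsBounded {x : ι → ℝ | ∀ ρ, -1 ≤ ∑ i, (r ρ i : ℝ) * x i})
    (U : ℕ → Finset (ι → ℤ)) (hr : ∀ m u, u ∈ U m ↔ ∀ ρ, -(m : ℤ) ≤ ∑ i, r ρ i * u i)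
    (hU : ∀ m u, u ∈ U m ↔ u ∈ F.pts m) (hsum : ∀ m, ∑ u ∈ U m, u = 0) :
    F.variety.KSemistable := by
  intro E
  obtain ⟨hE, hX, c₀, t₀, hc₀, ht₀, hX0⟩ := ordE_le E
  obtain ⟨π, hπ⟩ := E.uniformizer
  obtain ⟨γ, e, hγ0, he, hγs, hkey⟩ := key_bound_gen E.v E.const π hπ E.ordE hE
  -- the order of a monomial
  have hmon : ∀ u : ι → ℤ, E.v (mon u) = ((∑ i, u i * e i : ℤ) : WithTop ℤ) := by
    intro u
    have hz : ∀ (i : ι) (k : ℤ), E.v (xx i ^ k) = ((k * e i : ℤ) : WithTop ℤ) := by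
      intro i k
      obtain ⟨z, hz⟩ := vcoe (v := E.v) (zpow_ne_zero k (xx_ne_zero i))
      have hn : ∀ n : ℕ, E.v (xx i ^ n) = ((n * e i : ℤ) : WithTop ℤ) := by
        intro n
        rw [E.v.map_pow, he i, nsmul_coe]
      obtain ⟨n, rfl | rfl⟩ := k.eq_nat_or_neg
      · rw [zpow_natCast]; exact hn n
      · have h1 : E.v (xx i ^ (-(n : ℤ))) + E.v (xx i ^ n) = 0 := by
          rw [← E.v.map_mul, ← zpow_natCast, ← zpow_add₀ (xx_ne_zero i)]
          simp [E.v.map_one]
        rw [hz, hn] at h1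
        rw [hz]
        have h2 : z + n * e i = 0 := by exact_mod_cast h1
        have h3 : z = -(n : ℤ) * e i := by linarith
        rw [h3]
    have : ∀ s : Finset ι, E.v (∏ i ∈ s, xx i ^ (u i)) = ((∑ i ∈ s, u i * e i : ℤ) : WithTop ℤ) := by
      intro s
      induction s using Finset.induction_on with
      | empty => simp [E.v.map_one]
      | insert a s ha ih =>
        rw [Finset.prod_insert ha, Finset.sum_insert ha, E.v.map_mul, ih, hz]
        norm_cast
    exact this _
  set α : ι → ℤ := fun i => e i + γ i with hα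
  set β : ℤ := ∑ i, γ i + E.ordX with hβ
  have hLeq : ∀ (m : ℕ) (u : ι → ℤ), ∑ i, u i * α i + m * β =
      (∑ i, u i * e i + ∑ i, (u i + m) * γ i) + m * E.ordX := by
    intro m u
    simp only [hα, hβ, mul_add, add_mul, Finset.sum_add_distrib, Finset.mul_sum]
    ring
  -- sections have nonnegative order
  have hnonneg : ∀ m, ∀ u ∈ U m, 0 ≤ ∑ i, u i * α i + m * β := by
    intro m u hu
    have h1 := F.mon_mem_antican ((hU m u).1 hu)
    rw [mem_antican_iff] at h1
    have h2 := hc₀ _ (h1 c₀ (fun _ => t₀) fun _ i => ht₀ i)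
    rw [E.v.map_mul, Finset.prod_const, Finset.card_univ, Fintype.card_fin, E.v.map_pow, hX0,
      hmon] at h2
    rw [nsmul_coe] at h2
    have h4 : 0 ≤ ∑ i, u i * e i + m * E.ordX := by exact_mod_cast h2
    have h5 : 0 ≤ ∑ i, (u i + m) * γ i :=
      Finset.sum_nonneg fun i _ => mul_nonneg (by
        have := hbase m u ((hU m u).1 hu) i
        linarith) (hγ0 i)
    rw [hLeq]; linarith
  -- the dimension bound
  have hdim : ∀ m : ℕ, 1 ≤ m → ∀ j : ℤ, Module.finrank ℂ (E.vanishing m j) ≤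
      ((U m).filter fun u => j ≤ ∑ i, u i * α i + m * β).card := by
    intro m _ j
    set T := (U m).filter fun u => j ≤ ∑ i, u i * α i + m * β with hT
    -- each nonzero element has an exponent in T
    have hexp : ∀ f : KK ι, f ∈ E.vanishing m j → f ≠ 0 →
        ∀ (G : Finset (ι → ℤ)) (c : (ι → ℤ) → ℂ), (∀ w ∈ G, c w ≠ 0) → (∀ w ∈ G, w ∈ F.pts m) →
          f = ∑ w ∈ G, c w • mon w → ∃ u ∈ G, u ∈ T := by
      intro f hf hf0 G c hc hG hfG
      have hGne : G.Nonempty := by
        rw [Finset.nonempty_iff_ne_empty]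
        rintro rfl
        exact hf0 (by rw [hfG]; simp)
      obtain ⟨u, hu, hle⟩ := hkey m G hGne c hc fun w hw i => hbase m w (hG w hw) i
      refine ⟨u, hu, ?_⟩
      rw [hT, Finset.mem_filter]
      refine ⟨(hU m u).2 (hG u hu), ?_⟩
      have h1 : (j : WithTop ℤ) ≤ E.v f + ((m * E.ordX : ℤ) : WithTop ℤ) := hf.2
      rw [← hfG] at hle
      have h2 : (j : WithTop ℤ) ≤ ((∑ i, u i * e i + ∑ i, (u i + m) * γ i : ℤ) : WithTop ℤ) +
          ((m * E.ordX : ℤ) : WithTop ℤ) := h1.trans (by gcongr)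
      rw [hLeq]
      exact_mod_cast h2
    -- the span of the monomials outside T meets the space trivially
    set V := F.variety.antican m with hV
    have hVfin : Module.Finite ℂ (Submodule.span ℂ (mon '' ((U m : Finset (ι → ℤ)) : Set (ι → ℤ)) :
        Set (KK ι))) := by
      rw [span_mon_finset]
      exact Module.Finite.span_of_finite ℂ (Set.finite_range _)
    have hpts : F.pts m = ((U m : Finset (ι → ℤ)) : Set (ι → ℤ)) := by
      ext u; simp [hU]
    set W : Submodule ℂ (KK ι) := Submodule.span ℂ (mon '' (((U m \ T : Finset (ι → ℤ))) : Set (ι → ℤ)))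
    set V' : Submodule ℂ (KK ι) := Submodule.span ℂ (mon '' ((U m : Finset (ι → ℤ)) : Set (ι → ℤ)))
      with hV'
    set S : Submodule ℂ (KK ι) := E.vanishing m j
    have hSV : S ≤ V' := by
      intro f hf
      have h1 : f ∈ F.variety.antican m := hf.1
      rw [F.antican_eq m, hpts] at h1
      exact h1
    have hWV : W ≤ V' := Submodule.span_mono (Set.image_mono (by
      intro u hu
      rw [Finset.mem_coe, Finset.mem_sdiff] at hu
      exact hu.1))
    have hdisj : S ⊓ W = ⊥ := by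
      rw [Submodule.eq_bot_iff]
      rintro f ⟨hfS, hfW⟩
      by_contra hf0
      have hfW' : f ∈ Submodule.span ℂ
          (mon '' (((U m \ T : Finset (ι → ℤ))) : Set (ι → ℤ))) := hfW
      rw [Finsupp.span_image_eq_map_linearCombination] at hfW'
      obtain ⟨l, hl, hlf⟩ := hfW'
      obtain ⟨u, hu, huT⟩ := hexp f hfS hf0 l.support l
        (fun w hw => Finsupp.mem_support_iff.1 hw)
        (fun w hw => by
          have := hl hw
          rw [Finset.mem_coe, Finset.mem_sdiff] at this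
          exact (hU m w).1 this.1)
        (by rw [← hlf, Finsupp.linearCombination_apply, Finsupp.sum])
      have := hl hu
      rw [Finset.mem_coe, Finset.mem_sdiff] at this
      exact this.2 huT
    haveI : Module.Finite ℂ V' := hVfin
    have hfinS : Module.Finite ℂ S := Submodule.finiteDimensional_of_le hSV
    have hfinW : Module.Finite ℂ W := Submodule.finiteDimensional_of_le hWV
    have h1 := Submodule.finrank_sup_add_finrank_inf_eq S W
    rw [hdisj, finrank_bot, add_zero] at h1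
    have h2 : Module.finrank ℂ (S ⊔ W : Submodule ℂ (KK ι)) ≤ Module.finrank ℂ V' :=
      Submodule.finrank_mono (sup_le hSV hWV)
    have h3 : Module.finrank ℂ V' = (U m).card := finrank_span_mon (U m)
    have h4 : Module.finrank ℂ W = (U m \ T).card := finrank_span_mon (U m \ T)
    have h5 : (U m \ T).card = (U m).card - T.card :=
      Finset.card_sdiff_of_subset (Finset.filter_subset _ _)
    have h6 : T.card ≤ (U m).card := Finset.card_le_card (Finset.filter_subset _ _)
    show Module.finrank ℂ S ≤ T.card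
    omega
  -- conclusion
  have hint := integral_bound r hbdd U hr α β hnonneg hsum
    (fun m j => Module.finrank ℂ (E.vanishing m j)) hdim (Fintype.card ι) rfl
  have hvol : F.variety.antiVol = limsup (fun m : ℕ =>
        (((Fintype.card ι).factorial * (U m).card : ℕ) : ℝ≥0∞) / (m : ℝ≥0∞) ^ (Fintype.card ι))
        atTop := by
    have : ∀ m, Module.finrank ℂ (F.variety.antican m) = (U m).card :=
      fun m => F.finrank_antican (hU m)
    unfold SmoothProperVariety.antiVol
    simp only [this]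
    rfl
  have h1 : (∫⁻ t in Set.Ioi (0 : ℝ), E.vol t) ≤ ENNReal.ofReal (β : ℝ) * F.variety.antiVol := by
    rw [hvol]; exact hint
  have h2 : E.S ≤ ENNReal.ofReal (β : ℝ) := ENNReal.div_le_of_le_mul h1
  refine h2.trans (ENNReal.ofReal_le_ofReal ?_)
  have h3 : β ≤ E.logDiscrepancy := by
    unfold SmoothProperVariety.DivisorOver.logDiscrepancy
    rw [hβ]; linarith
  exact_mod_cast h3

end Fan

end FanoFib.Tor
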