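import Mathlib
import Pool.Agent.Helper419.KS.Semi
import Pool.Agent.Helper419.KS.A2
import Pool.Agent.Helper419.KS.Adic

/-! Instability of toric varieties whose polytope has its barycentre on the wrong side. -/

open MeasureTheory Filter
open scoped ENNReal

namespace FanoFib.Tor

open FanoFib.Val FanoFib.Ana

variable {ι : Type} [Fintype ι] [DecidableEq ι]

/-- The order of a monomial. -/
theorem v_mon (v : AddValuation (KK ι) (WithTop ℤ)) (e : ι → ℤ)
    (he : ∀ i, v (xx i) = (e i : WithTop ℤ)) (u : ι → ℤ) :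
    v (mon u) = ((∑ i, u i * e i : ℤ) : WithTop ℤ) := by
  have hz : ∀ (i : ι) (k : ℤ), v (xx i ^ k) = ((k * e i : ℤ) : WithTop ℤ) := by
    intro i k
    obtain ⟨z, hz⟩ := Fan.vcoe (v := v) (zpow_ne_zero k (xx_ne_zero i))
    have hn : ∀ n : ℕ, v (xx i ^ n) = ((n * e i : ℤ) : WithTop ℤ) := by
      intro n
      rw [v.map_pow, he i, Fan.nsmul_coe]
    obtain ⟨n, rfl | rfl⟩ := k.eq_nat_or_neg
    · rw [zpow_natCast]; exact hn n
    · have h1 : v (xx i ^ (-(n : ℤ))) + v (xx i ^ n) = 0 := by
        rw [← v.map_mul, ← zpow_natCast, ← zpow_add₀ (xx_ne_zero i)]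
        simp [v.map_one]
      rw [hz, hn] at h1
      rw [hz]
      have h2 : z + n * e i = 0 := by exact_mod_cast h1
      have h3 : z = -(n : ℤ) * e i := by linarith
      rw [h3]
  have : ∀ s : Finset ι, v (∏ i ∈ s, xx i ^ (u i)) = ((∑ i ∈ s, u i * e i : ℤ) : WithTop ℤ) := by
    intro s
    induction s using Finset.induction_on with
    | empty => simp [v.map_one]
    | insert a s ha ih =>
      rw [Finset.prod_insert ha, Finset.sum_insert ha, v.map_mul, ih, hz]
      norm_cast
  exact this _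

/-- Logarithmic derivations of polynomials are polynomials. -/
theorem frame_poly (j : ι) (p : MvPolynomial ι ℂ) :
    frame j (algebraMap (MvPolynomial ι ℂ) (KK ι) p) =
      algebraMap (MvPolynomial ι ℂ) (KK ι) (MvPolynomial.X j * MvPolynomial.pderiv j p) := by
  induction p using MvPolynomial.induction_on with
  | C z =>
    have h1 : algebraMap (MvPolynomial ι ℂ) (KK ι) (MvPolynomial.C z) =
        algebraMap ℂ (KK ι) z := by
      rw [← MvPolynomial.algebraMap_eq, ← IsScalarTower.algebraMap_apply]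
    rw [h1, Derivation.map_algebraMap, MvPolynomial.pderiv_C, mul_zero, map_zero]
  | add p q hp hq => rw [map_add, map_add, hp, hq, map_add, mul_add, map_add]
  | mul_X p i hp =>
    rw [map_mul, Derivation.leibniz, hp]
    have h2 : frame j (algebraMap (MvPolynomial ι ℂ) (KK ι) (MvPolynomial.X i)) =
        if i = j then xx j else 0 := frame_xx j i
    rw [h2, Derivation.leibniz, MvPolynomial.pderiv_X]
    by_cases h : i = j
    · subst h
      simp only [if_true, Pi.single_eq_same, smul_eq_mul, mul_one, map_mul, map_add, xx]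
      ring
    · have h' : ¬ j = i := fun h' => h h'.symm
      simp only [h, if_false, smul_eq_mul, mul_zero, zero_add, map_mul, map_add,
        Pi.single_eq_of_ne h, map_zero, add_zero]
      ring

namespace Fan

variable {F : Fan ι}

/-- Instability. -/
theorem not_semistable [Nonempty F.C] (a : ι) (n : ℕ) (hn : n = Fintype.card ι)
    (U : ℕ → Finset (ι → ℤ)) (hU : ∀ m u, u ∈ U m ↔ u ∈ F.pts m)
    (hUa : ∀ m, ∀ u ∈ U m, u a ≤ m)
    (C : ℝ) (hC : ∀ m : ℕ, 1 ≤ m → ((U m).card : ℝ) ≤ C * (m : ℝ) ^ n)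
    (c : ℝ) (hc : 0 < c)
    (hsum : ∀ m : ℕ, 1 ≤ m → c * (m : ℝ) ^ (n + 1) ≤ ∑ u ∈ U m, (u a : ℝ)) :
    ¬ F.variety.KSemistable := by
  subst hn
  obtain ⟨v, hconst, hvx, hpoly, hfrac⟩ := exists_adic a
  have he : ∀ i, v (xx i) = ((if i = a then 1 else 0 : ℤ) : WithTop ℤ) := by
    intro i; rw [hvx]; split_ifs <;> rfl
  have hmon : ∀ u : ι → ℤ, v (mon u) = (u a : WithTop ℤ) := by
    intro u
    rw [v_mon v _ he]
    simp
  let E : F.variety.DivisorOver :=
    { v := v
      const := hconst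
      uniformizer := ⟨xx a, by
        have := hvx a
        rwa [if_pos rfl] at this⟩
      geometric := by
        refine ⟨(IsScalarTower.toAlgHom ℂ (MvPolynomial ι ℂ) (KK ι)).range, ?_, ?_, ?_⟩
        · rw [← Algebra.map_top]
          exact (Algebra.FiniteType.out (R := ℂ) (A := MvPolynomial ι ℂ)).map _
        · rintro _ ⟨p, rfl⟩
          exact hpoly p
        · intro f hf
          obtain ⟨p, s, hs, hf'⟩ := hfrac f hf
          exact ⟨_, ⟨p, rfl⟩, _, ⟨s, rfl⟩, hs, hf'⟩ }
  obtain ⟨hE, hX, c₁, t₁, hc₁, ht₁, hX1⟩ := ordE_le E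
  -- derivatives of elements of the valuation ring
  have hder : ∀ f : KK ι, 0 ≤ v f → (∀ j, 0 ≤ v (frame j f)) ∧ 1 ≤ v (frame a f) := by
    intro f hf
    obtain ⟨p, s, hs, rfl⟩ := hfrac f hf
    have hs0 : algebraMap (MvPolynomial ι ℂ) (KK ι) s ≠ 0 := by
      intro h0
      rw [h0, v.map_zero] at hs
      exact absurd hs (by simp)
    have hsinv : v (algebraMap (MvPolynomial ι ℂ) (KK ι) s)⁻¹ = 0 := by
      have h1 : v (algebraMap (MvPolynomial ι ℂ) (KK ι) s) +
          v (algebraMap (MvPolynomial ι ℂ) (KK ι) s)⁻¹ = 0 := by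
        rw [← v.map_mul, mul_inv_cancel₀ hs0, v.map_one]
      rwa [hs, zero_add] at h1
    have key : ∀ (j : ι) (r : WithTop ℤ), r ≤ v (xx j) →
        r ≤ v (frame j (algebraMap (MvPolynomial ι ℂ) (KK ι) p /
          algebraMap (MvPolynomial ι ℂ) (KK ι) s)) := by
      intro j r hr
      rw [Derivation.leibniz_div, frame_poly, frame_poly]
      have h2 : (algebraMap (MvPolynomial ι ℂ) (KK ι) s)⁻¹ ^ 2 •
          (algebraMap (MvPolynomial ι ℂ) (KK ι) s •
            algebraMap (MvPolynomial ι ℂ) (KK ι) (MvPolynomial.X j * MvPolynomial.pderiv j p) -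
          algebraMap (MvPolynomial ι ℂ) (KK ι) p •
            algebraMap (MvPolynomial ι ℂ) (KK ι) (MvPolynomial.X j * MvPolynomial.pderiv j s)) =
          (algebraMap (MvPolynomial ι ℂ) (KK ι) s)⁻¹ ^ 2 * (xx j *
            algebraMap (MvPolynomial ι ℂ) (KK ι) (s * MvPolynomial.pderiv j p -
              p * MvPolynomial.pderiv j s)) := by
        simp only [smul_eq_mul, map_mul, map_sub, xx]
        ring
      rw [h2, v.map_mul, v.map_pow, hsinv, smul_zero, zero_add, v.map_mul]
      calc r = r + 0 := (add_zero r).symm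
        _ ≤ _ := add_le_add hr (hpoly _)
    refine ⟨fun j => key j 0 ?_, key a 1 ?_⟩
    · rw [hvx]; split_ifs <;> norm_num
    · rw [hvx, if_pos rfl]
  -- Jacobians vanish along the divisor
  have hjac : ∀ t : ι → KK ι, (∀ i, 0 ≤ v (t i)) → 1 ≤ v (tjac t) := by
    intro t ht
    have h1 : tjac t = Matrix.det (Matrix.of fun i j => frame j (t i)) := rfl
    rw [h1, Matrix.det_apply]
    refine v.map_le_sum fun s _ => ?_
    have h2 : 1 ≤ v (∏ i, (Matrix.of fun i j => frame j (t i)) (s i) i) := by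
      rw [← Finset.mul_prod_erase _ _ (Finset.mem_univ a), v.map_mul]
      have h3 : 0 ≤ v (∏ i ∈ Finset.univ.erase a, (Matrix.of fun i j => frame j (t i)) (s i) i) := by
        have : ∀ S : Finset ι, 0 ≤ v (∏ i ∈ S, (Matrix.of fun i j => frame j (t i)) (s i) i) := by
          intro S
          induction S using Finset.induction_on with
          | empty => simp [v.map_one]
          | insert b S hb ih =>
            rw [Finset.prod_insert hb, v.map_mul]
            exact add_nonneg ((hder _ (ht _)).1 _) ih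
        exact this _
      calc (1 : WithTop ℤ) = 1 + 0 := (add_zero 1).symm
        _ ≤ _ := add_le_add (hder _ (ht _)).2 h3
    rcases Int.units_eq_one_or (Equiv.Perm.sign s) with h' | h' <;> rw [h'] <;>
      simpa [v.map_neg] using h2
  have hX1' : (1 : ℤ) ≤ E.ordX := by
    have h1 := hjac t₁ fun i => hc₁ _ (ht₁ i)
    have h2 : v (tjac t₁) = (E.ordX : WithTop ℤ) := hX1
    rw [h2] at h1
    exact_mod_cast h1
  have hE1 : (1 : ℤ) ≤ E.ordE := by
    have hEdef : E.ordE = sInf {z : ℤ | ∃ t : ι → KK ι, (∀ i, 0 ≤ E.v (t i)) ∧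
      E.v (tjac t) = (z : WithTop ℤ)} := rfl
    rw [hEdef]
    refine le_csInf ⟨E.ordX, t₁, fun i => hc₁ _ (ht₁ i), hX1⟩ ?_
    rintro z ⟨t, ht, hz⟩
    have h1 : 1 ≤ v (tjac t) := hjac t ht
    have h2 : v (tjac t) = (z : WithTop ℤ) := hz
    rw [h2] at h1
    exact_mod_cast h1
  -- dimensions
  have hpts : ∀ m, F.pts m = ((U m : Finset (ι → ℤ)) : Set (ι → ℤ)) := by
    intro m; ext u; simp [hU]
  have hdim : ∀ m : ℕ, 1 ≤ m → ∀ j : ℤ, ((U m).filter fun u => j ≤ u a + m * E.ordX).card ≤
      Module.finrank ℂ (E.vanishing m j) := by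
    intro m _ j
    rw [← finrank_span_mon]
    have hfin : Module.Finite ℂ (Submodule.span ℂ (mon '' ((U m : Finset (ι → ℤ)) : Set (ι → ℤ)) :
        Set (KK ι))) := by
      rw [span_mon_finset]
      exact Module.Finite.span_of_finite ℂ (Set.finite_range _)
    have hSV : (E.vanishing m j : Submodule ℂ (KK ι)) ≤
        Submodule.span ℂ (mon '' ((U m : Finset (ι → ℤ)) : Set (ι → ℤ))) := by
      intro f hf
      have h1 : f ∈ F.variety.antican m := hf.1
      rw [F.antican_eq m, hpts] at h1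
      exact h1
    have : Module.Finite ℂ (E.vanishing m j : Submodule ℂ (KK ι)) :=
      Submodule.finiteDimensional_of_le hSV
    refine Submodule.finrank_mono (R := ℂ) (M := KK ι) ?_
    rw [Submodule.span_le]
    rintro _ ⟨u, hu, rfl⟩
    rw [Finset.mem_coe, Finset.mem_filter] at hu
    refine ⟨F.mon_mem_antican ((hU m u).1 hu.1), ?_⟩
    show (j : WithTop ℤ) ≤ v (mon u) + ((m * E.ordX : ℤ) : WithTop ℤ)
    rw [hmon]
    exact_mod_cast hu.2
  have hlow := integral_lower (Fintype.card ι) a U hUa C hC c hc hsum E.ordX (by omega)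
    (fun m j => Module.finrank ℂ (E.vanishing m j)) hdim
  obtain ⟨hv0, hvtop⟩ := vol_pos_finite (Fintype.card ι) a U hUa C hC c hc hsum
  have hvol : F.variety.antiVol = limsup (fun m : ℕ =>
        (((Fintype.card ι).factorial * (U m).card : ℕ) : ℝ≥0∞) / (m : ℝ≥0∞) ^ (Fintype.card ι))
        atTop := by
    have : ∀ m, Module.finrank ℂ (F.variety.antican m) = (U m).card :=
      fun m => F.finrank_antican (hU m)
    unfold SmoothProperVariety.antiVol
    simp only [this]
    rfl
  intro hss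
  have h1 : E.S ≤ ENNReal.ofReal (E.logDiscrepancy : ℝ) := hss E
  have h2 : E.logDiscrepancy ≤ E.ordX := by
    unfold SmoothProperVariety.DivisorOver.logDiscrepancy
    omega
  have h3 : E.S ≤ ENNReal.ofReal (E.ordX : ℝ) :=
    h1.trans (ENNReal.ofReal_le_ofReal (by exact_mod_cast h2))
  unfold SmoothProperVariety.DivisorOver.S at h3
  rw [ENNReal.div_le_iff (by rw [hvol]; exact hv0) (by rw [hvol]; exact hvtop), hvol] at h3
  exact absurd (lt_of_lt_of_le hlow h3) (lt_irrefl _)

end Fan

end FanoFib.Tor
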